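import Pool.Agent.Helper83.RU.Stm

/-!
Row SGN: the sign vectors of the square roots at the primes dividing `q`.
-/

namespace Pool.Agent.Helper83.RU.RSGN

open Finset

/-- two square roots agree up to sign modulo `2 p ^ e` -/
theorem pair {b q n m p e : ℕ} {x z : ℕ} (hbq : Nat.Coprime b q) (hx : x ^ 2 = b + 4 * n * q)
    (hz : z ^ 2 = b + 4 * m * q) (hp : p.Prime) (hpq : p ∣ q) (he : p ^ e ∣ q) :
    ((2 * p ^ e : ℕ) : ℤ) ∣ (x : ℤ) - z ∨ ((2 * p ^ e : ℕ) : ℤ) ∣ (x : ℤ) + z := by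
  have hx' : (x : ℤ) ^ 2 = b + 4 * n * q := by exact_mod_cast hx
  have hz' : (z : ℤ) ^ 2 = b + 4 * m * q := by exact_mod_cast hz
  have hprod : ((x : ℤ) - z) * (x + z) = 4 * ((n - m) * q) := by linear_combination hx' - hz'
  -- parity
  have hpar : (2 : ℤ) ∣ (x : ℤ) - z := by
    have h2 : (2 : ℤ) ∣ ((x : ℤ) - z) * (x + z) := by
      rw [hprod]; exact ⟨2 * ((n - m) * q), by ring⟩
    rcases Int.prime_two.dvd_or_dvd h2 with h | h
    · exact h
    · have : (x : ℤ) - z = (x + z) - 2 * z := by ring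
      rw [this]
      exact dvd_sub h (dvd_mul_right _ _)
  obtain ⟨A, hA⟩ := hpar
  have hB : (x : ℤ) + z = 2 * (A + z) := by linear_combination hA
  have hAB : A * (A + z) = (n - m) * q := by
    have h1 : 4 * (A * (A + z)) = 4 * ((n - m) * q) := by
      rw [← hprod, hA, hB]; ring
    linarith
  have hpp : Prime (p : ℤ) := Nat.prime_iff_prime_int.1 hp
  have hpe : ((p : ℤ)) ^ e ∣ A * (A + z) := by
    rw [hAB]
    exact Dvd.dvd.mul_left (by exact_mod_cast he) _
  have hnot : ¬ ((p : ℤ) ∣ A ∧ (p : ℤ) ∣ A + z) := by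
    rintro ⟨h1, h2⟩
    have h3 : (p : ℤ) ∣ x := by
      have : (x : ℤ) = A + (A + z) := by linear_combination hA
      rw [this]; exact dvd_add h1 h2
    have h4 : (p : ℤ) ∣ (b : ℤ) := by
      have h5 : (b : ℤ) = (x : ℤ) ^ 2 - 4 * n * q := by linear_combination -hx'
      rw [h5]
      exact dvd_sub (dvd_pow h3 two_ne_zero) (Dvd.dvd.mul_left (by exact_mod_cast hpq) _)
    have h6 : p ∣ b := by exact_mod_cast h4
    have h7 : p ∣ Nat.gcd b q := Nat.dvd_gcd h6 hpq
    rw [hbq] at h7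
    exact hp.one_lt.ne' (Nat.dvd_one.1 h7)
  push_cast
  by_cases h1 : (p : ℤ) ∣ A
  · have h2 : ¬ (p : ℤ) ∣ A + z := fun h => hnot ⟨h1, h⟩
    left
    rw [hA]
    refine mul_dvd_mul_left 2 (hpp.pow_dvd_of_dvd_mul_right e h2 hpe)
  · right
    rw [hB]
    exact mul_dvd_mul_left 2 (hpp.pow_dvd_of_dvd_mul_left e h1 hpe)

theorem row : SgnStmt := by
  intro b q S y hq hbq hy
  rcases S.eq_empty_or_nonempty with rfl | ⟨n0, hn0⟩
  · refine ⟨fun _ _ => 1, fun _ _ => Or.inl rfl, ?_⟩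
    intro T hT j hj p _
    have hT0 : T = ∅ := subset_empty.1 hT
    subst hT0
    have hj0 : j = 0 := by simpa using hj.symm
    subst hj0
    simp
  classical
  refine ⟨fun n p => if ((2 * p ^ q.factorization p : ℕ) : ℤ) ∣ (y n : ℤ) - y n0 then 1 else -1,
    fun n p => by dsimp only; split_ifs <;> simp, ?_⟩
  intro T hT j hj p hp
  have hpp : p.Prime := Nat.prime_of_mem_primeFactors hp
  have hpq : p ∣ q := Nat.dvd_of_mem_primeFactors hp
  have hpe : p ^ q.factorization p ∣ q := Nat.ordProj_dvd q p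
  set M : ℤ := ((2 * p ^ q.factorization p : ℕ) : ℤ) with hM
  set v : ℕ → ℤ := fun n => if M ∣ (y n : ℤ) - y n0 then 1 else -1 with hv
  have h1 : ∀ n ∈ T, (y n : ℤ) ≡ v n * y n0 [ZMOD M] := by
    intro n hn
    have hnS := hT hn
    by_cases hd : M ∣ (y n : ℤ) - y n0
    · have : v n = 1 := by simp only [hv]; rw [if_pos hd]
      rw [this, one_mul]
      exact (Int.modEq_iff_dvd.2 hd).symm
    · have : v n = -1 := by simp only [hv]; rw [if_neg hd]
      rw [this]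
      have h2 := (pair hbq (hy n hnS) (hy n0 hn0) hpp hpq hpe).resolve_left hd
      refine (Int.modEq_iff_dvd.2 ?_).symm
      have e : (y n : ℤ) - -1 * y n0 = y n + y n0 := by ring
      rw [e]
      exact h2
  have h2 : (∏ n ∈ T, (y n : ℤ)) ≡ ∏ n ∈ T, (v n * y n0) [ZMOD M] := by
    clear hj hT
    induction T using Finset.induction_on with
    | empty => simp only [prod_empty]; exact Int.ModEq.refl _
    | insert a T ha ih =>
      rw [prod_insert ha, prod_insert ha]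
      exact (h1 a (mem_insert_self _ _)).mul (ih fun n hn => h1 n (mem_insert_of_mem hn))
  have h3 : ∏ n ∈ T, (v n * (y n0 : ℤ)) = (∏ n ∈ T, v n) * ((y n0 : ℤ) ^ 2) ^ j := by
    rw [prod_mul_distrib, prod_const, hj, pow_mul]
  have h4 : ((y n0 : ℤ) ^ 2) ≡ (b : ℤ) [ZMOD M] := by
    have h5 : (y n0 : ℤ) ^ 2 = b + 4 * n0 * q := by exact_mod_cast hy n0 hn0
    refine (Int.modEq_iff_dvd.2 ?_).symm
    rw [h5]
    have e : (b : ℤ) + 4 * n0 * q - b = (2 * n0) * (2 * q) := by ring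
    rw [e]
    refine Dvd.dvd.mul_left ?_ _
    rw [hM]
    push_cast
    exact mul_dvd_mul_left 2 (by exact_mod_cast hpe)
  rw [h3] at h2
  have h6 : (∏ n ∈ T, (y n : ℤ)) ≡ (∏ n ∈ T, v n) * (b : ℤ) ^ j [ZMOD M] :=
    h2.trans ((h4.pow j).mul_left _)
  exact Int.modEq_iff_dvd.1 h6.symm

end Pool.Agent.Helper83.RU.RSGN
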