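import Pool.Agent.Helper83.RU.UnsCore
import Pool.Agent.Helper83.RU.RSGN
import Pool.Agent.Helper46.RD.SGN

/-!
# Unsplit primes: the moments of the sign sums, for the signs of project RD
-/

namespace Pool.Agent.Helper83.RU.UnsSg

open Finset Pool.Agent.Helper18.RD

/-- pairwise products of the two families of signs agree -/
theorem pair {q a b b0 Q c : ℕ} {l n n' : ℕ} {y y' v v' : ℤ} (hq : 1 ≤ q)
    (hco : Nat.Coprime q a) (hb : IsSquare (q * b + a)) (hn : IsSquare (q * n + a))
    (hn' : IsSquare (q * n' + a)) (hl : l ∈ OP q) (hc : c = 1 ∨ c = 2)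
    (hy : y = c * mm q a n) (hy' : y' = c * mm q a n')
    (hb0 : (pw q l : ℤ) ∣ y ^ 2 - b0) (hv : v = 1 ∨ v = -1) (hv' : v' = 1 ∨ v' = -1)
    (hQ : pw q l ∣ Q) (hdiv : (pw q l : ℤ) ∣ y * y' - v * v' * b0) :
    sg q a b n l * sg q a b n' l = v * v' := by
  obtain ⟨hp, hl2, hlq, hk⟩ := mem_OP hl
  have hpi : Prime (l : ℤ) := Nat.prime_iff_prime_int.1 hp
  have hpl : (l : ℤ) ∣ (pw q l : ℤ) := by
    have h1 : l ∣ pw q l := by
      unfold pw
      exact dvd_pow_self l (by omega)
    exact_mod_cast h1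
  have hcop : ∀ z : ℤ, ¬ (l : ℤ) ∣ z → IsCoprime (pw q l : ℤ) z := by
    intro z hz
    unfold pw
    push_cast
    exact IsCoprime.pow_left ((Prime.coprime_iff_not_dvd hpi).2 hz)
  have hlc : ¬ (l : ℤ) ∣ (c : ℤ) := by
    intro h
    have h2 : l ∣ c := by exact_mod_cast h
    rcases hc with rfl | rfl
    · exact hp.one_lt.ne' (Nat.dvd_one.1 h2)
    · exact hl2 ((Nat.prime_dvd_prime_iff_eq hp Nat.prime_two).1 h2)
  have hly : ¬ (l : ℤ) ∣ y := by
    rw [hy]
    intro h
    rcases hpi.dvd_or_dvd h with h | h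
    · exact hlc h
    · exact not_dvd_mm hco hn hp hlq h
  -- the two divisibilities for `v`
  have h1 : v * v' = 1 → (pw q l : ℤ) ∣ (mm q a n' : ℤ) - mm q a n := by
    intro h
    rw [h] at hdiv
    have h2 : (pw q l : ℤ) ∣ (y * c) * ((mm q a n' : ℤ) - mm q a n) := by
      have h3 := dvd_sub hdiv hb0
      have e : y * y' - 1 * b0 - (y ^ 2 - b0) = (y * c) * ((mm q a n' : ℤ) - mm q a n) := by
        rw [hy']
        nth_rewrite 2 [hy]
        rw [hy]
        ring
      rwa [e] at h3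
    exact (hcop _ (fun h3 => (hpi.dvd_or_dvd h3).elim hly hlc)).dvd_of_dvd_mul_left h2
  have h2 : v * v' = -1 → (pw q l : ℤ) ∣ (mm q a n' : ℤ) + mm q a n := by
    intro h
    rw [h] at hdiv
    have h2 : (pw q l : ℤ) ∣ (y * c) * ((mm q a n' : ℤ) + mm q a n) := by
      have h3 := dvd_add hdiv hb0
      have e : y * y' - -1 * b0 + (y ^ 2 - b0) = (y * c) * ((mm q a n' : ℤ) + mm q a n) := by
        rw [hy']
        nth_rewrite 2 [hy]
        rw [hy]
        ring
      rwa [e] at h3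
    exact (hcop _ (fun h3 => (hpi.dvd_or_dvd h3).elim hly hlc)).dvd_of_dvd_mul_left h2
  have hvv : v * v' = 1 ∨ v * v' = -1 := by
    rcases hv with rfl | rfl <;> rcases hv' with rfl | rfl <;> simp
  have hs1 := st_SGN q a b n l hq hco hb hn hl
  have hs2 := st_SGN q a b n' l hq hco hb hn' hl
  have hsg : ∀ m, sg q a b m l = 1 ∨ sg q a b m l = -1 := by
    intro m
    unfold sg
    split_ifs
    · exact Or.inl rfl
    · exact Or.inr rfl
  have key1 : (pw q l : ℤ) ∣ (mm q a n' : ℤ) - mm q a n →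
      (pw q l : ℤ) ∣ (mm q a n' : ℤ) + mm q a n → False := by
    intro h3 h4
    exact not_both hco hn' hl (m := mm q a n) (hpl.trans h3) (hpl.trans h4)
  rcases hsg n with e1 | e1 <;> rcases hsg n' with e2 | e2 <;> rw [e1, e2]
  · have h3 := (hs1.1 e1).1
    have h4 := (hs2.1 e2).1
    have h5 : (pw q l : ℤ) ∣ (mm q a n' : ℤ) - mm q a n := by
      have := dvd_sub h4 h3
      rwa [show (mm q a n' : ℤ) - mm q a b - ((mm q a n : ℤ) - mm q a b) =
        (mm q a n' : ℤ) - mm q a n by ring] at this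
    rcases hvv with h | h
    · rw [h]; norm_num
    · exact (key1 h5 (h2 h)).elim
  · have h3 := (hs1.1 e1).1
    have h4 := (hs2.2 e2).1
    have h5 : (pw q l : ℤ) ∣ (mm q a n' : ℤ) + mm q a n := by
      have := dvd_add h4 h3
      rwa [show (mm q a n' : ℤ) + mm q a b + ((mm q a n : ℤ) - mm q a b) =
        (mm q a n' : ℤ) + mm q a n by ring] at this
    rcases hvv with h | h
    · exact (key1 (h1 h) h5).elim
    · rw [h]; norm_num
  · have h3 := (hs1.2 e1).1
    have h4 := (hs2.1 e2).1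
    have h5 : (pw q l : ℤ) ∣ (mm q a n' : ℤ) + mm q a n := by
      have := dvd_add h4 h3
      rwa [show (mm q a n' : ℤ) - mm q a b + ((mm q a n : ℤ) + mm q a b) =
        (mm q a n' : ℤ) + mm q a n by ring] at this
    rcases hvv with h | h
    · exact (key1 (h1 h) h5).elim
    · rw [h]; norm_num
  · have h3 := (hs1.2 e1).1
    have h4 := (hs2.2 e2).1
    have h5 : (pw q l : ℤ) ∣ (mm q a n' : ℤ) - mm q a n := by
      have := dvd_sub h4 h3
      rwa [show (mm q a n' : ℤ) + mm q a b - ((mm q a n : ℤ) + mm q a b) =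
        (mm q a n' : ℤ) - mm q a n by ring] at this
    rcases hvv with h | h
    · rw [h]; norm_num
    · exact (key1 h5 (h2 h)).elim

/-- the general form, with `c ^ 2 (q n + a) = b0 + 4 (t n) Q` -/
theorem gen (k N q a b b0 Q c t : ℕ) (S : Finset ℕ) (hk : 1 ≤ k) (hN : 2 ≤ N) (hq : 1 ≤ q)
    (hco : Nat.Coprime q a) (hb : IsSquare (q * b + a)) (hS : S ⊆ SS N q a)
    (hc : c = 1 ∨ c = 2) (ht : t = 1 ∨ t = 2) (hb0 : 0 < b0) (hQ : 0 < Q)
    (hbQ : Nat.Coprime b0 Q) (h1 : c ^ 2 * q = 4 * t * Q) (h2 : c ^ 2 * a = b0)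
    (hfac : ∀ l ∈ OP q, Q.factorization l = q.factorization l) :
    ∑ l ∈ OP q, wt q l * ((∑ n ∈ S, sg q a b n l : ℤ) : ℝ) ^ (2 * k) ≤
      (2 * (k : ℝ)) ^ k * (S.card : ℝ) ^ k * (6 * Real.log q) +
        (S.card : ℝ) ^ (2 * k) * (64 * ((k : ℝ) + 1) * √(Real.log q * Real.log (2 * N))) := by
  classical
  have ht0 : 0 < t := by rcases ht with rfl | rfl <;> norm_num
  have ht2 : t ≤ 2 := by rcases ht with rfl | rfl <;> norm_num
  have hinj : Function.Injective (fun n : ℕ => t * n) := fun x y h => by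
    exact Nat.eq_of_mul_eq_mul_left ht0 h
  have hsq : ∀ n ∈ S, IsSquare (q * n + a) := fun n hn => (mem_filter.1 (hS hn)).2
  have hlt : ∀ n ∈ S, n < N := fun n hn => mem_range.1 (mem_filter.1 (hS hn)).1
  set y : ℕ → ℕ := fun m => Nat.sqrt (b0 + 4 * m * Q) with hy
  have hyn : ∀ n ∈ S, y (t * n) = c * mm q a n := by
    intro n hn
    have e : b0 + 4 * (t * n) * Q = (c * mm q a n) ^ 2 := by
      have h3 : (mm q a n) ^ 2 = q * n + a := by
        have := mm_sq (hsq n hn)
        exact_mod_cast this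
      rw [mul_pow, h3]
      calc b0 + 4 * (t * n) * Q = b0 + (4 * t * Q) * n := by ring
        _ = c ^ 2 * a + (c ^ 2 * q) * n := by rw [h1, h2]
        _ = c ^ 2 * (q * n + a) := by ring
    rw [hy]
    simp only
    rw [e, Nat.sqrt_eq']
  have hyn2 : ∀ n ∈ S, y (t * n) ^ 2 = b0 + 4 * (t * n) * Q := by
    intro n hn
    have h3 : (mm q a n) ^ 2 = q * n + a := by
      have := mm_sq (hsq n hn)
      exact_mod_cast this
    rw [hyn n hn, mul_pow, h3]
    calc c ^ 2 * (q * n + a) = c ^ 2 * a + (c ^ 2 * q) * n := by ring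
      _ = b0 + (4 * t * Q) * n := by rw [h1, h2]
      _ = b0 + 4 * (t * n) * Q := by ring
  set S' := S.image (fun n => t * n) with hS'
  have hcard : S'.card = S.card := card_image_of_injective _ hinj
  obtain ⟨v, hv1, hv2⟩ := RSGN.row b0 Q S' y hQ hbQ (by
    intro m hm
    obtain ⟨n, hn, rfl⟩ := mem_image.1 hm
    exact hyn2 n hn)
  have hcore := UnsCore.core k (2 * N) b0 Q S' y v hk (by omega) hb0 hQ hbQ (by
      intro m hm
      obtain ⟨n, hn, rfl⟩ := mem_image.1 hm
      have h3 := hlt n hn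
      calc t * n ≤ 2 * n := Nat.mul_le_mul_right _ ht2
        _ < 2 * N := by omega) (by
      intro m hm
      obtain ⟨n, hn, rfl⟩ := mem_image.1 hm
      exact hyn2 n hn) hv1 hv2
  rw [hcard] at hcore
  have hsub : OP q ⊆ Q.primeFactors := by
    intro l hl
    obtain ⟨hp, hl2, hlq, hk1⟩ := mem_OP hl
    have h3 := hfac l hl
    exact Nat.mem_primeFactors.2 ⟨hp, (hp.dvd_iff_one_le_factorization hQ.ne').2 (by omega), hQ.ne'⟩
  have hpw : ∀ l ∈ OP q, pw q l = l ^ Q.factorization l := by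
    intro l hl
    unfold pw
    rw [hfac l hl]
  -- the even powers agree
  have heq : ∀ l ∈ OP q, ((∑ n ∈ S, sg q a b n l : ℤ) : ℝ) ^ (2 * k) =
      (∑ m ∈ S', (v m l : ℝ)) ^ (2 * k) := by
    intro l hl
    have h3 : ∀ n ∈ S, ∀ n' ∈ S, sg q a b n l * sg q a b n' l = v (t * n) l * v (t * n') l := by
      intro n hn n' hn'
      have hpQ : pw q l ∣ Q := by
        rw [hpw l hl]
        exact Nat.ordProj_dvd Q l
      have hbb : (pw q l : ℤ) ∣ ((y (t * n) : ℕ) : ℤ) ^ 2 - b0 := by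
        have h4 := hyn2 n hn
        have h5 : ((y (t * n) : ℕ) : ℤ) ^ 2 - b0 = (4 * (t * n)) * (Q : ℤ) := by
          have : ((y (t * n) : ℕ) : ℤ) ^ 2 = b0 + 4 * (t * n) * Q := by exact_mod_cast h4
          rw [this]
          ring
        rw [h5]
        exact Dvd.dvd.mul_left (by exact_mod_cast hpQ) _
      have hdiv : (pw q l : ℤ) ∣ ((y (t * n) : ℕ) : ℤ) * ((y (t * n') : ℕ) : ℤ) -
          v (t * n) l * v (t * n') l * b0 := by
        rcases eq_or_ne n n' with rfl | hne
        · have h6 : v (t * n) l * v (t * n) l = 1 := by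
            rcases hv1 (t * n) l with h | h <;> rw [h] <;> norm_num
          rw [h6, one_mul, ← sq]
          exact hbb
        · have h4 := hv2 {t * n, t * n'} (by
            intro m hm
            rcases mem_insert.1 hm with h | h
            · rw [h]; exact mem_image_of_mem _ hn
            · rw [mem_singleton.1 h]; exact mem_image_of_mem _ hn') 1 (by
            rw [card_pair (fun h => hne (hinj h))]) l (hsub hl)
          rw [prod_pair (fun h => hne (hinj h)), prod_pair (fun h => hne (hinj h)), pow_one] at h4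
          refine dvd_trans ?_ h4
          rw [hpw l hl]
          push_cast
          exact Dvd.intro_left 2 rfl
      exact pair hq hco hb (hsq n hn) (hsq n' hn') hl hc (by rw [hyn n hn]; push_cast; rfl)
        (by rw [hyn n' hn']; push_cast; rfl) hbb (hv1 _ _) (hv1 _ _) hpQ hdiv
    have h4 : (∑ n ∈ S, sg q a b n l) ^ 2 = (∑ n ∈ S, v (t * n) l) ^ 2 := by
      rw [sq, sq, sum_mul_sum, sum_mul_sum]
      exact sum_congr rfl fun n hn => sum_congr rfl fun n' hn' => h3 n hn n' hn'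
    have h5 : ∑ m ∈ S', (v m l : ℝ) = ((∑ n ∈ S, v (t * n) l : ℤ) : ℝ) := by
      rw [hS', sum_image (fun x _ y _ h => hinj h)]
      push_cast
      rfl
    rw [h5, pow_mul, pow_mul]
    have h6 : (((∑ n ∈ S, sg q a b n l : ℤ) : ℝ)) ^ 2 = ((∑ n ∈ S, v (t * n) l : ℤ) : ℝ) ^ 2 := by
      exact_mod_cast h4
    rw [h6]
  have hwt : ∀ l ∈ OP q, wt q l = (Q.factorization l : ℝ) * Real.log l := by
    intro l hl
    unfold wt
    rw [hpw l hl]
    push_cast
    rw [Real.log_pow]
  have hQq : (Q : ℝ) ≤ q := by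
    have : Q ≤ q := by
      rcases hc with rfl | rfl <;> rcases ht with rfl | rfl <;> omega
    exact_mod_cast this
  have hQpos : (0 : ℝ) < Q := by exact_mod_cast hQ
  have hlog : Real.log Q ≤ Real.log q := Real.log_le_log hQpos hQq
  have hlogQ : 0 ≤ Real.log Q := Real.log_natCast_nonneg _
  have hlN : 0 ≤ Real.log (2 * (N : ℝ)) := by
    apply Real.log_nonneg
    have : (2 : ℝ) ≤ N := by exact_mod_cast hN
    linarith
  push_cast at hcore
  calc ∑ l ∈ OP q, wt q l * ((∑ n ∈ S, sg q a b n l : ℤ) : ℝ) ^ (2 * k)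
      = ∑ l ∈ OP q, ((Q.factorization l : ℝ) * Real.log l) *
          (∑ m ∈ S', (v m l : ℝ)) ^ (2 * k) :=
        sum_congr rfl fun l hl => by rw [hwt l hl, heq l hl]
    _ ≤ ∑ l ∈ Q.primeFactors, ((Q.factorization l : ℝ) * Real.log l) *
          (∑ m ∈ S', (v m l : ℝ)) ^ (2 * k) := by
        refine sum_le_sum_of_subset_of_nonneg hsub fun l _ _ => ?_
        exact mul_nonneg (RCORE.w_nonneg Q l) (by rw [pow_mul]; positivity)
    _ ≤ _ := hcore
    _ ≤ _ := by
        have e1 : √(Real.log Q * Real.log (2 * N)) ≤ √(Real.log q * Real.log (2 * N)) :=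
          Real.sqrt_le_sqrt (mul_le_mul_of_nonneg_right hlog hlN)
        have hk0 : (0 : ℝ) ≤ k := Nat.cast_nonneg k
        gcongr

/-- the moment inequality for all moduli -/
theorem uns (k N q a b : ℕ) (S : Finset ℕ) (hk : 1 ≤ k) (hN : 2 ≤ N) (hq : 1 ≤ q)
    (hco : Nat.Coprime q a) (hb : IsSquare (q * b + a)) (hS : S ⊆ SS N q a) :
    ∑ l ∈ OP q, wt q l * ((∑ n ∈ S, sg q a b n l : ℤ) : ℝ) ^ (2 * k) ≤
      (2 * (k : ℝ)) ^ k * (S.card : ℝ) ^ k * (6 * Real.log q) +
        (S.card : ℝ) ^ (2 * k) * (64 * ((k : ℝ) + 1) * √(Real.log q * Real.log (2 * N))) := by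
  classical
  by_cases hq1 : q = 1
  · subst hq1
    have h1 : OP 1 = ∅ := by
      unfold OP
      simp
    rw [h1]
    simp
  have ha : 0 < a := by
    rcases Nat.eq_zero_or_pos a with h0 | h0
    · subst h0; exact absurd ((Nat.coprime_zero_right q).mp hco) hq1
    · exact h0
  by_cases hodd : q % 2 = 1
  · have hcop : Nat.Coprime (4 * a) q := by
      refine Nat.Coprime.mul_left ?_ hco.symm
      have : Nat.Coprime 2 q := by
        rw [Nat.coprime_two_left, Nat.odd_iff]; exact hodd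
      exact Nat.Coprime.pow_left 2 this
    exact gen k N q a b (4 * a) q 2 1 S hk hN hq hco hb hS (Or.inr rfl) (Or.inl rfl) (by omega)
      (by omega) hcop (by ring) (by ring) (fun l _ => rfl)
  · by_cases h4 : q % 4 = 0
    · obtain ⟨Q, rfl⟩ : 4 ∣ q := Nat.dvd_of_mod_eq_zero h4
      have hQ : 0 < Q := by omega
      have hcop : Nat.Coprime a Q := (Nat.Coprime.coprime_dvd_left (Dvd.intro_left 4 rfl) hco).symm
      refine gen k N (4 * Q) a b a Q 1 1 S hk hN hq hco hb hS (Or.inl rfl) (Or.inl rfl) ha hQ hcop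
        (by ring) (by ring) ?_
      intro l hl
      obtain ⟨hp, hl2, hlq, hk1⟩ := mem_OP hl
      rw [Nat.factorization_mul (by norm_num) hQ.ne', Finsupp.add_apply,
        show (4 : ℕ) = 2 ^ 2 by norm_num, Nat.Prime.factorization_pow Nat.prime_two,
        Finsupp.single_apply, if_neg (fun h => hl2 h.symm), zero_add]
    · obtain ⟨Q, rfl⟩ : 2 ∣ q := Nat.dvd_of_mod_eq_zero (by omega)
      have hQ : 0 < Q := by omega
      have hQodd : Q % 2 = 1 := by omega
      have hcop : Nat.Coprime (4 * a) Q := by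
        refine Nat.Coprime.mul_left ?_
          (Nat.Coprime.coprime_dvd_left (Dvd.intro_left 2 rfl) hco).symm
        have : Nat.Coprime 2 Q := by
          rw [Nat.coprime_two_left, Nat.odd_iff]; exact hQodd
        exact Nat.Coprime.pow_left 2 this
      refine gen k N (2 * Q) a b (4 * a) Q 2 2 S hk hN hq hco hb hS (Or.inr rfl) (Or.inr rfl)
        (by omega) hQ hcop (by ring) (by ring) ?_
      intro l hl
      obtain ⟨hp, hl2, hlq, hk1⟩ := mem_OP hl
      rw [Nat.factorization_mul (by norm_num) hQ.ne', Finsupp.add_apply,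
        Nat.Prime.factorization Nat.prime_two, Finsupp.single_apply,
        if_neg (fun h => hl2 h.symm), zero_add]

end Pool.Agent.Helper83.RU.UnsSg
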