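import Pool.Agent.Helper83.RU.Stm

/-!
Row CORE of project RU (from LOG, SGN, MOM).
-/

open Finset

namespace Pool.Agent.Helper83.RU.RCORE

theorem sum_log (q : ℕ) :
    ∑ p ∈ q.primeFactors, ((q.factorization p : ℝ) * Real.log p) = Real.log q := by
  rw [Real.log_nat_eq_sum_factorization, Finsupp.sum, Nat.support_factorization]

theorem w_nonneg (q p : ℕ) : 0 ≤ (q.factorization p : ℝ) * Real.log p :=
  mul_nonneg (Nat.cast_nonneg _) (Real.log_natCast_nonneg _)

theorem sum_sq_le (q : ℕ) :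
    ∑ p ∈ q.primeFactors, ((q.factorization p : ℝ) * Real.log p) ^ 2 ≤ Real.log q ^ 2 := by
  have h : ∀ p ∈ q.primeFactors, (q.factorization p : ℝ) * Real.log p ≤ Real.log q := by
    intro p hp
    rw [← sum_log q]
    exact single_le_sum (f := fun p => (q.factorization p : ℝ) * Real.log p)
      (fun i _ => w_nonneg q i) hp
  calc ∑ p ∈ q.primeFactors, ((q.factorization p : ℝ) * Real.log p) ^ 2
      ≤ ∑ p ∈ q.primeFactors, ((q.factorization p : ℝ) * Real.log p) * Real.log q := by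
        refine sum_le_sum fun p hp => ?_
        rw [sq]
        exact mul_le_mul_of_nonneg_left (h p hp) (w_nonneg q p)
    _ = Real.log q ^ 2 := by rw [← sum_mul, sum_log, sq]

/-- `s ^ k ≤ (2 k) ^ k * choose s k` for `2 k ≤ s` -/
theorem pow_le_choose {s k : ℕ} (h : 2 * k ≤ s) :
    (s : ℝ) ^ k ≤ (2 * (k : ℝ)) ^ k * (s.choose k : ℝ) := by
  have h1 : ((s + 1 - k : ℕ) : ℝ) ^ k / (k.factorial : ℝ) ≤ (s.choose k : ℝ) := by
    exact_mod_cast Nat.pow_le_choose (α := ℝ) k s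
  have hf : (0 : ℝ) < (k.factorial : ℝ) := by exact_mod_cast k.factorial_pos
  have h2 : (s : ℝ) ≤ 2 * ((s + 1 - k : ℕ) : ℝ) := by
    have : s ≤ 2 * (s + 1 - k) := by omega
    exact_mod_cast this
  have h3 : (k.factorial : ℝ) ≤ (k : ℝ) ^ k := by exact_mod_cast k.factorial_le_pow
  rw [div_le_iff₀ hf] at h1
  calc (s : ℝ) ^ k ≤ (2 * ((s + 1 - k : ℕ) : ℝ)) ^ k := by gcongr
    _ = 2 ^ k * ((s + 1 - k : ℕ) : ℝ) ^ k := mul_pow _ _ _
    _ ≤ 2 ^ k * ((s.choose k : ℝ) * (k.factorial : ℝ)) := by gcongr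
    _ ≤ 2 ^ k * ((s.choose k : ℝ) * (k : ℝ) ^ k) := by gcongr
    _ = (2 * (k : ℝ)) ^ k * (s.choose k : ℝ) := by rw [mul_pow]; ring

/-- two different square terms bound `b` -/
theorem b_le {N b q : ℕ} {y : ℕ → ℕ} {n m : ℕ} (hn : y n ^ 2 = b + 4 * n * q)
    (hm : y m ^ 2 = b + 4 * m * q) (hnm : m < n) (hN : n < N) (hq : 0 < q) :
    b ≤ 4 * N ^ 2 * q ^ 2 := by
  have h1 : y m ^ 2 < y n ^ 2 := by
    rw [hn, hm]
    have : 4 * m * q < 4 * n * q := by
      apply Nat.mul_lt_mul_of_pos_right _ hq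
      omega
    omega
  have h2 : y m < y n := lt_of_pow_lt_pow_left₀ 2 (Nat.zero_le _) h1
  have h3 : y m + y n ≤ 4 * N * q := by
    have h4 : (y n + y m) * (y n - y m) = 4 * n * q - 4 * m * q := by
      rw [← Nat.sq_sub_sq, hn, hm]
      omega
    have h5 : 1 ≤ y n - y m := by omega
    calc y m + y n = (y n + y m) * 1 := by ring
      _ ≤ (y n + y m) * (y n - y m) := Nat.mul_le_mul_left _ h5
      _ = 4 * n * q - 4 * m * q := h4
      _ ≤ 4 * n * q := Nat.sub_le _ _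
      _ ≤ 4 * N * q := by gcongr
  have h6 : y m ≤ 2 * N * q := by
    have : 4 * N * q = 2 * (2 * N * q) := by ring
    omega
  calc b ≤ y m ^ 2 := by rw [hm]; omega
    _ ≤ (2 * N * q) ^ 2 := Nat.pow_le_pow_left h6 2
    _ = 4 * N ^ 2 * q ^ 2 := by ring

theorem prod_sign (T : Finset ℕ) (f : ℕ → ℤ) (hf : ∀ n, f n = 1 ∨ f n = -1) :
    ∏ n ∈ T, f n = 1 ∨ ∏ n ∈ T, f n = -1 := by
  induction T using Finset.induction_on with
  | empty => exact Or.inl prod_empty
  | insert a T ha ih =>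
    rw [prod_insert ha]
    rcases hf a with h | h <;> rcases ih with h' | h' <;> rw [h, h'] <;> norm_num

theorem row (hLOG : LogStmt) (hSGN : SgnStmt) (hMOM : MomStmt) : CoreStmt := by
  intro k
  obtain ⟨C₁, hC1, hlog⟩ := hLOG k
  refine ⟨36 * (2 * (k : ℝ)) ^ k + C₁ ^ 2 + C₁ + 1, by positivity, ?_⟩
  intro N b q S y hN hb hq hbq hSN hy
  set L := Real.log q with hL
  set l := Real.log N with hl
  set W := ∑ p ∈ q.primeFactors, ((q.factorization p : ℝ) * Real.log p) ^ 2 with hW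
  have hWL : W ≤ L ^ 2 := sum_sq_le q
  have hW0 : 0 ≤ W := sum_nonneg fun p _ => sq_nonneg _
  have hL0 : 0 ≤ L := Real.log_natCast_nonneg _
  have hl2 : Real.log 2 ≤ l := by
    apply Real.log_le_log (by norm_num)
    exact_mod_cast hN
  have hlpos : 0 < l := lt_of_lt_of_le (Real.log_pos (by norm_num)) hl2
  have hs0 : (0 : ℝ) ≤ (S.card : ℝ) ^ k := by positivity
  have hk0 : (0 : ℝ) ≤ (2 * (k : ℝ)) ^ k := by positivity
  have hX : 0 ≤ (S.card : ℝ) ^ k * L * l := by positivity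
  have hL2 : 0 ≤ L ^ 2 := sq_nonneg _
  -- case `k = 0`
  rcases Nat.eq_zero_or_pos k with hk | hk
  · subst hk
    simp only [pow_zero, one_mul] at *
    nlinarith [mul_nonneg (by positivity : (0 : ℝ) ≤ C₁ ^ 2 + C₁) hL2,
      mul_nonneg (by positivity : (0 : ℝ) ≤ 36 * 1 + C₁ ^ 2 + C₁ + 1) hX]
  -- case `q` small
  rcases le_or_gt L (C₁ * l) with hcase | hcase
  · calc (S.card : ℝ) ^ k * W ≤ (S.card : ℝ) ^ k * L ^ 2 := by gcongr
      _ = (S.card : ℝ) ^ k * L * L := by ring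
      _ ≤ (S.card : ℝ) ^ k * L * (C₁ * l) := by gcongr
      _ = C₁ * ((S.card : ℝ) ^ k * L * l) := by ring
      _ ≤ (36 * (2 * (k : ℝ)) ^ k + C₁ ^ 2 + C₁ + 1) * ((S.card : ℝ) ^ k * L * l) := by
          gcongr
          have : 0 ≤ C₁ ^ 2 := sq_nonneg _
          linarith
      _ ≤ (36 * (2 * (k : ℝ)) ^ k + C₁ ^ 2 + C₁ + 1) * (L ^ 2 + (S.card : ℝ) ^ k * L * l) := by
          gcongr
          linarith
  -- case `S` small
  rcases lt_or_ge S.card (2 * k) with hs | hs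
  · have h1 : (S.card : ℝ) ^ k ≤ (2 * (k : ℝ)) ^ k := by
      have : (S.card : ℝ) ≤ 2 * (k : ℝ) := by exact_mod_cast hs.le
      gcongr
    calc (S.card : ℝ) ^ k * W ≤ (2 * (k : ℝ)) ^ k * L ^ 2 := by gcongr
      _ ≤ (36 * (2 * (k : ℝ)) ^ k + C₁ ^ 2 + C₁ + 1) * L ^ 2 := by
          gcongr
          have : 0 ≤ C₁ ^ 2 := sq_nonneg _
          linarith
      _ ≤ (36 * (2 * (k : ℝ)) ^ k + C₁ ^ 2 + C₁ + 1) * (L ^ 2 + (S.card : ℝ) ^ k * L * l) := by
          gcongr
          linarith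
  -- main case
  have hbN : b ≤ 4 * N ^ 2 * q ^ 2 := by
    obtain ⟨n, hn, m, hm, hnm⟩ := one_lt_card.1 (by omega : 1 < S.card)
    rcases lt_or_gt_of_ne hnm with h | h
    · exact b_le (hy m hm) (hy n hn) h (hSN m hm) hq
    · exact b_le (hy n hn) (hy m hm) h (hSN n hn) hq
  obtain ⟨v, hv1, hv⟩ := hSGN b q S y hq hbq hy
  have hmaxpos : (0 : ℝ) < ((max b q : ℕ) : ℝ) := by
    have : 0 < max b q := lt_of_lt_of_le hq (le_max_right _ _)
    exact_mod_cast this
  have hqpos : (0 : ℝ) < (q : ℝ) := by exact_mod_cast hq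
  have hNpos : (0 : ℝ) < (N : ℝ) := by
    have : 0 < N := by omega
    exact_mod_cast this
  have hlam : 0 ≤ Real.log (max b q : ℕ) - L := by
    have : L ≤ Real.log (max b q : ℕ) := by
      apply Real.log_le_log hqpos
      exact_mod_cast le_max_right b q
    linarith
  have hmax : Real.log (max b q : ℕ) ≤ 6 * L := by
    have h1 : ((max b q : ℕ) : ℝ) ≤ 4 * (N : ℝ) ^ 2 * (q : ℝ) ^ 2 := by
      have h2 : max b q ≤ 4 * N ^ 2 * q ^ 2 := by
        refine max_le hbN ?_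
        have : 1 ≤ 4 * N ^ 2 * q := by
          have : 0 < 4 * N ^ 2 * q := by positivity
          omega
        calc q = 1 * q := (one_mul q).symm
          _ ≤ (4 * N ^ 2 * q) * q := Nat.mul_le_mul_right _ this
          _ = 4 * N ^ 2 * q ^ 2 := by ring
      exact_mod_cast h2
    have h3 : Real.log (4 * (N : ℝ) ^ 2 * (q : ℝ) ^ 2) = 2 * Real.log 2 + 2 * l + 2 * L := by
      rw [Real.log_mul (by positivity) (by positivity), Real.log_mul (by norm_num) (by positivity),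
        Real.log_pow, Real.log_pow, show (4 : ℝ) = 2 ^ 2 by norm_num, Real.log_pow]
      push_cast
      ring
    have h4 := Real.log_le_log hmaxpos h1
    rw [h3] at h4
    have h5 : l ≤ L := by
      have : 1 * l ≤ C₁ * l := mul_le_mul_of_nonneg_right hC1 hlpos.le
      linarith
    linarith
  have hE : ∀ T, T ⊆ S → T.Nonempty → Even T.card → T.card ≤ 2 * k →
      |∑ p ∈ q.primeFactors, ((q.factorization p : ℝ) * Real.log p) *
        ∏ n ∈ T, ((fun n p => (v n p : ℝ)) n p) + (Real.log (max b q : ℕ) - L)| ≤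
        C₁ * √(L * l) := by
    intro T hT hne hev hcard
    obtain ⟨j, hj⟩ := hev
    have hj2 : T.card = 2 * j := by omega
    have hj1 : 1 ≤ j := by
      have := hne.card_pos
      omega
    have h1 := hlog N j b q (∏ n ∈ T, y n) T (fun p => ∏ n ∈ T, v n p) hN hj1 (by omega) hj2
      (fun n hn => hSN n (hT hn)) hb hbq hcase.le hbN (by
        rw [← prod_pow]
        exact prod_congr rfl fun n hn => hy n (hT hn)) (fun p => prod_sign T _ fun n => hv1 n p) (fun p hp => by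
        have := hv T hT j hj2 p hp
        push_cast
        push_cast at this
        exact this)
    have h2 : ∑ p ∈ q.primeFactors, ((q.factorization p : ℝ) * Real.log p) *
        ∏ n ∈ T, ((fun n p => (v n p : ℝ)) n p) = ∑ p ∈ q.primeFactors,
        ((q.factorization p : ℝ) * Real.log p) * (((∏ n ∈ T, v n p : ℤ)) : ℝ) := by
      refine sum_congr rfl fun p _ => ?_
      push_cast
      rfl
    rw [h2]
    exact h1
  have hM := hMOM S q.primeFactors k (fun p => (q.factorization p : ℝ) * Real.log p)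
    (fun n p => (v n p : ℝ)) (Real.log (max b q : ℕ) - L) (C₁ * √(L * l))
    (fun p _ => w_nonneg q p) hlam (by positivity) (fun n p => by
      rcases hv1 n p with h | h
      · exact Or.inl (by rw [h]; norm_num)
      · exact Or.inr (by rw [h]; norm_num)) hE
  have hsum : ∑ p ∈ q.primeFactors, (fun p => (q.factorization p : ℝ) * Real.log p) p = L :=
    sum_log q
  rw [hsum] at hM
  have hEsq : (C₁ * √(L * l)) ^ 2 = C₁ ^ 2 * (L * l) := by
    rw [mul_pow, Real.sq_sqrt (by positivity)]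
  rw [hEsq] at hM
  have hch := pow_le_choose hs
  have hMpos : (0 : ℝ) < (S.card.choose k : ℝ) := by
    have : 0 < S.card.choose k := Nat.choose_pos (by omega)
    exact_mod_cast this
  have hM2 : (S.card.choose k : ℝ) * W ≤ 36 * L ^ 2 + (S.card.choose k : ℝ) * (C₁ ^ 2 * (L * l)) := by
    have h1 : (L + (Real.log (max b q : ℕ) - L)) ^ 2 ≤ (6 * L) ^ 2 := by
      apply pow_le_pow_left₀ (by linarith)
      linarith
    calc (S.card.choose k : ℝ) * W ≤ _ := hM
      _ ≤ (6 * L) ^ 2 + (S.card.choose k : ℝ) * (C₁ ^ 2 * (L * l)) := by gcongr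
      _ = _ := by ring
  have hM3 : W - C₁ ^ 2 * (L * l) ≤ 36 * L ^ 2 / (S.card.choose k : ℝ) := by
    rw [le_div_iff₀ hMpos]
    linarith
  have hM4 : (S.card : ℝ) ^ k * (36 * L ^ 2 / (S.card.choose k : ℝ)) ≤
      36 * (2 * (k : ℝ)) ^ k * L ^ 2 := by
    rw [← mul_div_assoc, div_le_iff₀ hMpos]
    calc (S.card : ℝ) ^ k * (36 * L ^ 2) ≤
        ((2 * (k : ℝ)) ^ k * (S.card.choose k : ℝ)) * (36 * L ^ 2) := by gcongr
      _ = _ := by ring
  have hM5 : (S.card : ℝ) ^ k * (W - C₁ ^ 2 * (L * l)) ≤ 36 * (2 * (k : ℝ)) ^ k * L ^ 2 :=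
    (mul_le_mul_of_nonneg_left hM3 hs0).trans hM4
  have hM6 : (S.card : ℝ) ^ k * W ≤ 36 * (2 * (k : ℝ)) ^ k * L ^ 2 +
      C₁ ^ 2 * ((S.card : ℝ) ^ k * L * l) := by
    have : (S.card : ℝ) ^ k * (W - C₁ ^ 2 * (L * l)) =
      (S.card : ℝ) ^ k * W - C₁ ^ 2 * ((S.card : ℝ) ^ k * L * l) := by ring
    linarith
  have hC2 : 0 ≤ C₁ ^ 2 := sq_nonneg _
  have hC3 : 0 ≤ C₁ := by linarith
  calc (S.card : ℝ) ^ k * W ≤ 36 * (2 * (k : ℝ)) ^ k * L ^ 2 +
      C₁ ^ 2 * ((S.card : ℝ) ^ k * L * l) := hM6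
    _ ≤ (36 * (2 * (k : ℝ)) ^ k + C₁ ^ 2 + C₁ + 1) * L ^ 2 +
        (36 * (2 * (k : ℝ)) ^ k + C₁ ^ 2 + C₁ + 1) * ((S.card : ℝ) ^ k * L * l) := by
        gcongr
        · linarith
        · linarith
    _ = _ := by ring

end Pool.Agent.Helper83.RU.RCORE

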