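import Pool.Agent.Helper83.RU.Stm
set_option autoImplicit false

namespace Pool.Agent.Helper83.RU.RAux

open Finset

attribute [local instance] Matrix.seminormedAddCommGroup

theorem siegel (d M : ℕ) (hM : 1 ≤ M) (A : Matrix (Fin d) (Fin (d + 1)) ℤ)
    (hA : ∀ i k, |A i k| ≤ (M : ℤ)) :
    ∃ t : Fin (d + 1) → ℤ, t ≠ 0 ∧ A.mulVec t = 0 ∧
      ∀ i, |t i| ≤ ((((d + 1) * M) ^ d : ℕ) : ℤ) := by
  rcases Nat.eq_zero_or_pos d with rfl | hd
  · refine ⟨fun _ => 1, ?_, ?_, ?_⟩
    · intro h
      have := congrFun h 0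
      simp at this
    · ext i
      exact i.elim0
    · intro i
      simp
  · obtain ⟨t, ht0, hAt, hn⟩ := Int.Matrix.exists_ne_zero_int_vec_norm_le A (by simp)
      (by simpa using hd)
    refine ⟨t, ht0, hAt, fun i => ?_⟩
    have h2 : ‖A‖ ≤ (M : ℝ) := by
      rw [Matrix.norm_le_iff (by positivity)]
      intro i k
      rw [Int.norm_eq_abs]
      exact_mod_cast hA i k
    have h3 : ‖t‖ ≤ (((d : ℝ) + 1) * M) ^ d := by
      refine hn.trans ?_
      have e1 : ((Fintype.card (Fin d) : ℕ) : ℝ) /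
          (((Fintype.card (Fin (d + 1)) : ℕ) : ℝ) - ((Fintype.card (Fin d) : ℕ) : ℝ)) = (d : ℕ) := by
        simp
      rw [e1, Real.rpow_natCast]
      have e2 : max 1 ‖A‖ ≤ (M : ℝ) := max_le (by exact_mod_cast hM) h2
      have e3 : ((Fintype.card (Fin (d + 1)) : ℕ) : ℝ) = (d : ℝ) + 1 := by simp
      rw [e3]
      gcongr
    have h4 : |((t i : ℤ) : ℝ)| ≤ (((d : ℝ) + 1) * M) ^ d := by
      rw [← Int.norm_eq_abs]
      exact (norm_le_pi_norm t i).trans h3
    have h5 : ((|t i| : ℤ) : ℝ) ≤ ((((((d + 1) * M) ^ d : ℕ) : ℤ) : ℝ)) := by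
      push_cast
      exact h4
    exact_mod_cast h5

theorem numer (N j m d : ℕ) (hN : 1 ≤ N) (hjm : j ≤ m) (hd : d + 1 ≤ m) :
    ((d + 1) * (4 ^ j * (8 * N) ^ (2 * m))) ^ d ≤ (64 * N) ^ (2 * m ^ 2) := by
  have h1 : d + 1 ≤ 2 ^ m := hd.trans (Nat.lt_two_pow_self).le
  have h2 : 4 ^ j ≤ 4 ^ m := Nat.pow_le_pow_right (by norm_num) hjm
  have h3 : (d + 1) * (4 ^ j * (8 * N) ^ (2 * m)) ≤ ((64 * N) ^ 2) ^ m := by
    calc (d + 1) * (4 ^ j * (8 * N) ^ (2 * m)) ≤ 2 ^ m * (4 ^ m * (8 * N) ^ (2 * m)) := by gcongr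
      _ = (512 * N ^ 2) ^ m := by
          rw [pow_mul, ← mul_pow, ← mul_pow]
          congr 1
          ring
      _ ≤ ((64 * N) ^ 2) ^ m := by
          apply Nat.pow_le_pow_left
          nlinarith [sq_nonneg N]
  have h0 : 1 ≤ ((64 * N) ^ 2) ^ m := Nat.one_le_pow _ _ (by positivity)
  calc ((d + 1) * (4 ^ j * (8 * N) ^ (2 * m))) ^ d ≤ (((64 * N) ^ 2) ^ m) ^ d :=
        Nat.pow_le_pow_left h3 d
    _ ≤ (((64 * N) ^ 2) ^ m) ^ m := Nat.pow_le_pow_right h0 (by omega)
    _ = (64 * N) ^ (2 * m ^ 2) := by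
        rw [← pow_mul, ← pow_mul]
        congr 1
        ring

theorem row : AuxStmt := by
  intro N j m S hN hj hjm hS
  obtain ⟨d, hd⟩ : ∃ d, d = m - j := ⟨_, rfl⟩
  have hdm : d + 1 ≤ m := by omega
  set M : ℕ := 4 ^ j * (8 * N) ^ (2 * m) with hMdef
  have hM : 1 ≤ M := Nat.one_le_iff_ne_zero.mpr (by positivity)
  have h8 : (1 : ℤ) ≤ 8 * (N : ℤ) := by
    have : (1 : ℤ) ≤ N := by exact_mod_cast hN
    linarith
  have hSM : ∀ l, l ≤ 2 * m → |PowerSeries.coeff l S| ≤ (M : ℤ) := by
    intro l hl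
    refine (hS l).trans ?_
    rw [hMdef]
    push_cast
    have := pow_le_pow_right₀ h8 hl
    gcongr
  obtain ⟨c, hc0, hAc, hcb⟩ := siegel d M hM
    (fun i k => if (k : ℕ) ≤ m + 1 + i then PowerSeries.coeff (m + 1 + (i : ℕ) - (k : ℕ)) S else 0) (by
      intro i k
      split_ifs
      · apply hSM
        have := i.2
        omega
      · simp)
  have hB : ∀ i, |c i| ≤ (((64 * N) ^ (2 * m ^ 2) : ℕ) : ℤ) := fun i =>
    (hcb i).trans (by exact_mod_cast numer N j m d hN hjm hdm)
  -- the polynomial `Q`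
  set Q : Polynomial ℤ := ∑ k : Fin (d + 1), Polynomial.C (c k) * Polynomial.X ^ (k : ℕ) with hQ
  have hQc : ∀ l, Q.coeff l = if h : l < d + 1 then c ⟨l, h⟩ else 0 := by
    intro l
    rw [hQ, Polynomial.finsetSum_coeff]
    simp only [Polynomial.coeff_C_mul, Polynomial.coeff_X_pow, mul_ite, mul_one, mul_zero]
    split_ifs with h
    · rw [Finset.sum_eq_single (⟨l, h⟩ : Fin (d + 1))]
      · simp
      · intro b _ hb
        rw [if_neg]
        intro h'
        exact hb (Fin.ext h'.symm)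
      · simp
    · apply Finset.sum_eq_zero
      intro b _
      rw [if_neg]
      intro h'
      exact h (h' ▸ b.2)
  have hQb : ∀ l, |Q.coeff l| ≤ (((64 * N) ^ (2 * m ^ 2) : ℕ) : ℤ) := by
    intro l
    rw [hQc]
    split_ifs with h
    · exact hB _
    · simp
  have hQdeg : Q.natDegree ≤ d := by
    rw [Polynomial.natDegree_le_iff_coeff_eq_zero]
    intro l hl
    rw [hQc, dif_neg (by omega)]
  have hQ0 : Q ≠ 0 := by
    intro h
    apply hc0
    ext i
    have := hQc (i : ℕ)
    rw [h, dif_pos i.2] at this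
    simpa using this.symm
  -- the coefficients of `Q S`
  have hQS : ∀ l, PowerSeries.coeff l ((Q : PowerSeries ℤ) * S) =
      ∑ k ∈ Finset.range (d + 1), if k ≤ l then Q.coeff k * PowerSeries.coeff (l - k) S else 0 := by
    intro l
    rw [PowerSeries.coeff_mul, Finset.Nat.sum_antidiagonal_eq_sum_range_succ_mk]
    simp only [Polynomial.coeff_coe]
    rw [← Finset.sum_filter]
    symm
    apply Finset.sum_subset_zero_on_sdiff
    · intro x hx
      rw [Finset.mem_filter] at hx
      rw [Finset.mem_range]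
      omega
    · intro x hx
      rw [Finset.mem_sdiff, Finset.mem_filter, Finset.mem_range, Finset.mem_range] at hx
      have : d < x := by
        by_contra h
        exact hx.2 ⟨by omega, by omega⟩
      rw [hQc, dif_neg (by omega), zero_mul]
    · intro x _
      rfl
  refine ⟨PowerSeries.trunc (m + 1) ((Q : PowerSeries ℤ) * S), Q, ?_, ?_, ?_, ?_, ?_, ?_⟩
  · rintro ⟨-, h⟩
    exact hQ0 h
  · exact Nat.lt_succ_iff.mp (PowerSeries.natDegree_trunc_lt _ _)
  · rw [← hd]
    exact hQdeg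
  · intro l
    rw [PowerSeries.coeff_trunc]
    split_ifs with hl
    · rw [hQS]
      have hN64 : (1 : ℤ) ≤ 64 * (N : ℤ) := by linarith
      have hterm : ∀ k ∈ Finset.range (d + 1),
          |if k ≤ l then Q.coeff k * PowerSeries.coeff (l - k) S else 0| ≤
            (64 * (N : ℤ)) ^ (2 * m ^ 2) * (4 ^ m * (8 * (N : ℤ)) ^ m) := by
        intro k _
        split_ifs with hk
        · rw [abs_mul]
          have e1 : |Q.coeff k| ≤ (64 * (N : ℤ)) ^ (2 * m ^ 2) := by
            have := hQb k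
            push_cast at this
            exact this
          have e2 : |PowerSeries.coeff (l - k) S| ≤ 4 ^ m * (8 * (N : ℤ)) ^ m := by
            refine (hS _).trans ?_
            have e3 := pow_le_pow_right₀ h8 (show l - k ≤ m by omega)
            have e4 := pow_le_pow_right₀ (show (1 : ℤ) ≤ 4 by norm_num) hjm
            gcongr
          gcongr
        · simp only [abs_zero]
          positivity
      have h2m : ((d : ℤ) + 1) ≤ 2 ^ m := by
        have : d + 1 ≤ 2 ^ m := hdm.trans (Nat.lt_two_pow_self).le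
        exact_mod_cast this
      calc |∑ k ∈ Finset.range (d + 1),
            if k ≤ l then Q.coeff k * PowerSeries.coeff (l - k) S else 0|
          ≤ ∑ k ∈ Finset.range (d + 1),
            |if k ≤ l then Q.coeff k * PowerSeries.coeff (l - k) S else 0| :=
            Finset.abs_sum_le_sum_abs _ _
        _ ≤ ∑ k ∈ Finset.range (d + 1),
            (64 * (N : ℤ)) ^ (2 * m ^ 2) * (4 ^ m * (8 * (N : ℤ)) ^ m) := Finset.sum_le_sum hterm
        _ = ((d : ℤ) + 1) * ((64 * (N : ℤ)) ^ (2 * m ^ 2) * (4 ^ m * (8 * (N : ℤ)) ^ m)) := by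
            rw [Finset.sum_const, Finset.card_range, nsmul_eq_mul]
            push_cast
            ring
        _ ≤ 2 ^ m * ((64 * (N : ℤ)) ^ (2 * m ^ 2) * (4 ^ m * (8 * (N : ℤ)) ^ m)) := by gcongr
        _ = (64 * (N : ℤ)) ^ (2 * m ^ 2 + m) := by
            rw [pow_add, show (64 * (N : ℤ)) ^ m = 2 ^ m * (4 ^ m * (8 * (N : ℤ)) ^ m) by
              rw [← mul_pow, ← mul_pow]
              congr 1
              ring]
            ring
        _ ≤ (64 * (N : ℤ)) ^ (3 * m ^ 2) := by
            apply pow_le_pow_right₀ hN64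
            nlinarith [hdm]
    · simp only [abs_zero]
      positivity
  · intro l
    refine (hQb l).trans ?_
    have hN64 : (1 : ℤ) ≤ 64 * (N : ℤ) := by linarith
    push_cast
    apply pow_le_pow_right₀ hN64
    nlinarith
  · intro l hl
    rw [map_sub, Polynomial.coeff_coe, PowerSeries.coeff_trunc]
    split_ifs with h
    · simp
    · rw [zero_sub, neg_eq_zero, hQS]
      have hi : l - (m + 1) < d := by omega
      have h1 : ∑ k : Fin (d + 1), (if (k : ℕ) ≤ m + 1 + (l - (m + 1)) then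
          PowerSeries.coeff (m + 1 + (l - (m + 1)) - (k : ℕ)) S else 0) * c k = 0 :=
        congrFun hAc ⟨l - (m + 1), hi⟩
      rw [Finset.sum_range]
      refine Eq.trans ?_ h1
      apply Finset.sum_congr rfl
      intro k _
      have e1 : m + 1 + (l - (m + 1)) = l := by omega
      rw [e1]
      rw [hQc, dif_pos k.2]
      split_ifs
      · ring
      · ring

end Pool.Agent.Helper83.RU.RAux
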