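import Pool.Agent.Helper83.RU.Stm

/-! Row BETA of the project RU (helper12): the integral square root of `1 + 4 X`. -/

set_option autoImplicit false

namespace Pool.Agent.Helper83.RU.RBETA

open Finset

/-- `c_l = (-1)^l catalan l` -/
noncomputable def c (l : ℕ) : ℤ := (-1) ^ l * (catalan l : ℤ)

theorem c_zero : c 0 = 1 := by simp [c]

theorem c_succ (n : ℕ) : c (n + 1) = - ∑ ij ∈ antidiagonal n, c ij.1 * c ij.2 := by
  unfold c
  rw [catalan_succ', Nat.cast_sum, pow_succ, Finset.mul_sum, ← Finset.sum_neg_distrib]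
  refine Finset.sum_congr rfl fun ij hij => ?_
  rw [HasAntidiagonal.mem_antidiagonal] at hij
  rw [← hij, pow_add]
  push_cast
  ring

theorem series_eq : PowerSeries.mk c + PowerSeries.X * PowerSeries.mk c ^ 2 = 1 := by
  ext n
  rw [map_add]
  cases n with
  | zero =>
    rw [PowerSeries.coeff_mk, PowerSeries.coeff_zero_X_mul, c_zero]
    simp
  | succ n =>
    rw [PowerSeries.coeff_mk, PowerSeries.coeff_succ_X_mul, sq, PowerSeries.coeff_mul, c_succ]
    simp only [PowerSeries.coeff_mk]
    rw [PowerSeries.coeff_one, if_neg (Nat.succ_ne_zero n)]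
    ring

/-- the coefficients of the square root -/
noncomputable def beta : ℕ → ℤ
  | 0 => 1
  | l + 1 => 2 * c l

theorem mk_beta : PowerSeries.mk beta = 1 + PowerSeries.C (2 : ℤ) * PowerSeries.X * PowerSeries.mk c := by
  ext n
  rw [map_add, PowerSeries.coeff_mk, mul_assoc, PowerSeries.coeff_C_mul]
  cases n with
  | zero =>
    rw [PowerSeries.coeff_zero_X_mul]
    simp [beta]
  | succ n =>
    rw [PowerSeries.coeff_succ_X_mul, PowerSeries.coeff_mk, PowerSeries.coeff_one,
      if_neg (Nat.succ_ne_zero n), zero_add]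
    rfl

theorem catalan_le (l : ℕ) : catalan l ≤ 4 ^ l := by
  rw [catalan_eq_centralBinom_div]
  refine (Nat.div_le_self _ _).trans ?_
  rw [Nat.centralBinom_eq_two_mul_choose]
  refine (Nat.choose_le_two_pow _ _).trans (le_of_eq ?_)
  rw [pow_mul]
  norm_num

/-- Row BETA -/
theorem row : BetaStmt := by
  refine ⟨beta, rfl, ?_, ?_, ?_⟩
  · intro l hl
    cases l with
    | zero => omega
    | succ l => exact even_two_mul _
  · intro l
    cases l with
    | zero => simp [beta]
    | succ l =>
      show |2 * c l| ≤ 4 ^ (l + 1)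
      have h1 : |c l| = (catalan l : ℤ) := by
        rw [c, abs_mul, abs_pow, abs_neg, abs_one, one_pow, one_mul, Nat.abs_cast]
      have h2 : (catalan l : ℤ) ≤ 4 ^ l := by exact_mod_cast catalan_le l
      rw [abs_mul, h1, pow_succ, abs_two]
      have h3 : (0 : ℤ) ≤ 4 ^ l := by positivity
      linarith
  · have e : (PowerSeries.C (4 : ℤ)) = 4 := by simp
    have e2 : (PowerSeries.C (2 : ℤ)) = 2 := by simp
    rw [mk_beta, e, e2]
    linear_combination (4 * PowerSeries.X) * series_eq

end Pool.Agent.Helper83.RU.RBETA
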