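import Pool.Agent.Helper83.RU.Stm

/-! Row CORR (from SROOT, AUX, WNZ, PAD, SIZE). -/

namespace Pool.Agent.Helper83.RU.RCORR

open Finset

/-- a product of powers of distinct primes dividing a nonzero integer is at most its size -/
theorem prod_le (F : Finset ℕ) (e : ℕ → ℕ) (J : ℕ) (W : ℤ) (hW : W ≠ 0)
    (hp : ∀ p ∈ F, p.Prime) (h : ∀ p ∈ F, ((p ^ e p : ℕ) : ℤ) ^ J ∣ W) :
    (((∏ p ∈ F, p ^ e p) ^ J : ℕ) : ℤ) ≤ |W| := by
  have h1 : (((∏ p ∈ F, p ^ e p) ^ J : ℕ) : ℤ) = ∏ p ∈ F, ((p ^ e p : ℕ) : ℤ) ^ J := by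
    push_cast
    rw [Finset.prod_pow]
  have h2 : ∏ p ∈ F, ((p ^ e p : ℕ) : ℤ) ^ J ∣ W := by
    apply Finset.prod_dvd_of_coprime
    · intro p hpF r hrF hpr
      show IsCoprime (((p ^ e p : ℕ) : ℤ) ^ J) (((r ^ e r : ℕ) : ℤ) ^ J)
      apply IsCoprime.pow
      apply Nat.isCoprime_iff_coprime.2
      exact Nat.Coprime.pow _ _ ((Nat.coprime_primes (hp p hpF) (hp r hrF)).2 hpr)
    · exact h
  rw [h1]
  exact Int.le_of_dvd (abs_pos.2 hW) ((dvd_abs _ _).2 h2)

theorem row (hS : SrootStmt) (hA : AuxStmt) (hW : WnzStmt) (hP : PadStmt) (hZ : SizeStmt) :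
    CorrStmt := by
  intro N j m b q Y T ε hN hj hjm hT hTN hb hbq hq hY hε hdiv
  obtain ⟨S, hRoot⟩ := hS N j T hN hT hTN
  obtain ⟨P, Q, hAux⟩ := hA N j m S hN hj hjm hRoot.2.2.1
  obtain ⟨hW1, hW2⟩ := hW N j m b q Y T S P Q hN hj hjm hT hTN hRoot hAux hb hbq hq hY
  have hq0 : 0 < q := lt_of_le_of_lt (Nat.zero_le _) hq
  obtain ⟨hZ1, hZ2⟩ := hZ N j m b q Y T S P Q hN hj hjm hT hTN hRoot hAux hb hq0 hY
  have hfac : ∀ p ∈ q.primeFactors, p.Prime ∧ 1 ≤ q.factorization p ∧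
      p ^ q.factorization p ∣ q := by
    intro p hp
    have hpp := Nat.prime_of_mem_primeFactors hp
    refine ⟨hpp, ?_, Nat.ordProj_dvd q p⟩
    exact hpp.factorization_pos_of_dvd hq0.ne' (Nat.dvd_of_mem_primeFactors hp)
  have hd : ∀ (s : ℤ), (s = 1 ∨ s = -1) → ∀ p ∈ q.primeFactors.filter (fun p => ε p = s),
      ((p ^ q.factorization p : ℕ) : ℤ) ^ (2 * m - j + 1) ∣
        hom P m b q - s * Y * hom Q (m - j) b q := by
    intro s hs p hp
    rw [Finset.mem_filter] at hp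
    obtain ⟨hpp, he, hdq⟩ := hfac p hp.1
    have h1 := hdiv p hp.1
    rw [hp.2] at h1
    exact hP N j m b q Y p (q.factorization p) s T S P Q hN hj hjm hT hRoot hAux hb hbq hpp he hdq
      hs hY h1
  have hprime : ∀ s : ℤ, ∀ p ∈ q.primeFactors.filter (fun p => ε p = s), p.Prime := by
    intro s p hp
    exact (hfac p (Finset.mem_filter.1 hp).1).1
  constructor
  · have h1 := prod_le (q.primeFactors.filter (fun p => ε p = 1)) q.factorization (2 * m - j + 1)
      (hom P m b q - Y * hom Q (m - j) b q) hW1 (hprime 1) (by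
        intro p hp
        have := hd 1 (Or.inl rfl) p hp
        rw [one_mul] at this
        exact this)
    have h2 : (((∏ p ∈ q.primeFactors.filter (fun p => ε p = 1), p ^ q.factorization p) ^
        (2 * m - j + 1) * (max b q) ^ (m - j + 1) : ℕ) : ℤ) ≤
        (((64 * N) ^ (9 * m ^ 2) * q ^ (2 * m - j + 1) : ℕ) : ℤ) := by
      rw [Nat.cast_mul]
      refine le_trans (mul_le_mul_of_nonneg_right h1 (Nat.cast_nonneg _)) ?_
      push_cast at hZ1 ⊢
      exact hZ1
    exact_mod_cast h2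
  · have h1 := prod_le (q.primeFactors.filter (fun p => ε p = -1)) q.factorization (2 * m - j + 1)
      (hom P m b q + Y * hom Q (m - j) b q) hW2 (hprime (-1)) (by
        intro p hp
        have := hd (-1) (Or.inr rfl) p hp
        have e : hom P m b q - -1 * Y * hom Q (m - j) b q =
            hom P m b q + Y * hom Q (m - j) b q := by ring
        rw [e] at this
        exact this)
    have h2 : (((∏ p ∈ q.primeFactors.filter (fun p => ε p = -1), p ^ q.factorization p) ^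
        (2 * m - j + 1) : ℕ) : ℤ) ≤
        (((64 * N) ^ (9 * m ^ 2) * (max b q) ^ m : ℕ) : ℤ) := by
      refine le_trans h1 ?_
      push_cast at hZ2 ⊢
      exact hZ2
    exact_mod_cast h2

end Pool.Agent.Helper83.RU.RCORR
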