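import Pool.Agent.Helper83.RU.Stm

/-!
# Row LOG: the signs at the primes dividing `q` are almost uncorrelated
-/

namespace Pool.Agent.Helper83.RU.RLOG

open Finset

lemma log_prod' (q : ℕ) (A : Finset ℕ) (hA : A ⊆ q.primeFactors) :
    Real.log ((∏ p ∈ A, p ^ q.factorization p : ℕ) : ℝ) =
      ∑ p ∈ A, q.factorization p * Real.log p := by
  have h0 : ∀ p ∈ A, ((p : ℝ) ^ q.factorization p) ≠ 0 := by
    intro p hp
    have := (Nat.prime_of_mem_primeFactors (hA hp)).pos
    positivity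
  rw [Nat.cast_prod]
  simp only [Nat.cast_pow]
  rw [Real.log_prod h0]
  exact sum_congr rfl fun p _ => Real.log_pow _ _

lemma prod_pos' (q : ℕ) (A : Finset ℕ) (hA : A ⊆ q.primeFactors) :
    0 < ∏ p ∈ A, p ^ q.factorization p :=
  prod_pos fun _ hp => pow_pos (Nat.prime_of_mem_primeFactors (hA hp)).pos _

lemma arith (k l r m j Lam X : ℝ) (hl : 0 < l) (hk : 1 ≤ k) (hjk : j ≤ k)
    (hm1 : 1 ≤ m) (hmr : m ≤ r) (hrm : r < m + 1) (hjm : j ≤ m) (hLam0 : 0 ≤ Lam)
    (hLam : Lam ≤ 192 * l * r ^ 2)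
    (hX : (2 * m - j + 1) * X ≤ 126 * m ^ 2 * l + (j - 1) * Lam) :
    X ≤ 64 * (k + 1) ^ 2 * (8 * l * r) := by
  have hr : 1 ≤ r := hm1.trans hmr
  by_cases h0 : X ≤ 0
  · exact h0.trans (by positivity)
  push Not at h0
  have h1 : m * X ≤ (2 * m - j + 1) * X := by nlinarith
  have h2 : (j - 1) * Lam ≤ k * (192 * l * r ^ 2) :=
    mul_le_mul (by linarith) hLam hLam0 (by linarith)
  have h3 : r ≤ 2 * m := by linarith
  have hlr : 0 ≤ l * r := by positivity
  have h4 : k * (192 * l * r ^ 2) ≤ m * (384 * k * (l * r)) := by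
    have : 0 ≤ k * (l * r) := by positivity
    nlinarith [mul_le_mul_of_nonneg_left h3 this]
  have h5 : 126 * m ^ 2 * l ≤ m * (126 * (l * r)) := by
    have : 0 ≤ m * l := by positivity
    nlinarith [mul_le_mul_of_nonneg_left hmr this]
  have h6 : m * X ≤ m * ((126 + 384 * k) * (l * r)) := by nlinarith
  have h7 : X ≤ (126 + 384 * k) * (l * r) := le_of_mul_le_mul_left h6 (by linarith)
  have h8 : (126 + 384 * k) ≤ 512 * (k + 1) ^ 2 := by nlinarith
  nlinarith [mul_le_mul_of_nonneg_right h8 hlr]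

/-- Row LOG. -/
theorem row (hCorr : CorrStmt) : LogStmt := by
  intro k
  refine ⟨64 * ((k : ℝ) + 1) ^ 2, by nlinarith [Nat.cast_nonneg (α := ℝ) k], ?_⟩
  intro N j b q Y T ε hN hj hjk hT hTN hb hbq hC hb2 hY hε hcong
  have hN0 : (2 : ℝ) ≤ N := by exact_mod_cast hN
  have hlog2 : Real.log 2 ≤ Real.log N := Real.log_le_log (by norm_num) hN0
  have hlog20 : 0 < Real.log 2 := Real.log_pos (by norm_num)
  have hl0 : 0 < Real.log N := by linarith
  have hk1 : (1 : ℝ) ≤ k := by exact_mod_cast hj.trans hjk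
  have hj1 : (1 : ℝ) ≤ j := by exact_mod_cast hj
  have hjk' : (j : ℝ) ≤ k := by exact_mod_cast hjk
  have hCl : 256 * Real.log N ≤ Real.log q := by
    refine le_trans (mul_le_mul_of_nonneg_right ?_ hl0.le) hC
    nlinarith
  have hL0 : 0 < Real.log q := by nlinarith
  have hq1 : (1 : ℝ) < q := by
    by_contra h
    push Not at h
    have := Real.log_nonpos (Nat.cast_nonneg q) h
    linarith
  have hq0 : 0 < q := by
    have : (0 : ℝ) < q := by linarith
    exact_mod_cast this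
  obtain ⟨r, hr⟩ : ∃ r : ℝ, r = √(Real.log q / (64 * Real.log N)) := ⟨_, rfl⟩
  have hr0 : 0 ≤ r := hr ▸ Real.sqrt_nonneg _
  have hr2 : Real.log q = 64 * Real.log N * r ^ 2 := by
    rw [hr, Real.sq_sqrt (by positivity)]
    field_simp
  have hrk : (k : ℝ) + 1 ≤ r := by
    rw [hr]
    apply Real.le_sqrt_of_sq_le
    rw [le_div_iff₀ (by positivity)]
    linarith
  obtain ⟨m, hm⟩ : ∃ m : ℕ, m = ⌊r⌋₊ := ⟨_, rfl⟩
  have hmr : (m : ℝ) ≤ r := hm ▸ Nat.floor_le hr0
  have hrm : r < m + 1 := hm ▸ Nat.lt_floor_add_one r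
  have hkm : k + 1 ≤ m := by
    rw [hm]
    exact Nat.le_floor (by push_cast; exact hrk)
  have hjm : j ≤ m := by omega
  have hjm' : (j : ℝ) ≤ m := by exact_mod_cast hjm
  have hm1 : (1 : ℝ) ≤ m := by exact_mod_cast (by omega : 1 ≤ m)
  have hlog64 : Real.log (64 * N) ≤ 7 * Real.log N := by
    rw [Real.log_mul (by norm_num) (by positivity)]
    have : Real.log 64 = 6 * Real.log 2 := by
      rw [show (64 : ℝ) = 2 ^ 6 by norm_num, Real.log_pow]
      norm_num
    linarith
  have hbig' : ((9 * m ^ 2 : ℕ) : ℝ) * Real.log (64 * N) ≤ 63 * (m : ℝ) ^ 2 * Real.log N := by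
    push_cast
    nlinarith [mul_le_mul_of_nonneg_left hlog64 (by positivity : (0 : ℝ) ≤ 9 * (m : ℝ) ^ 2)]
  have hbig : (64 * N) ^ (9 * m ^ 2) < q := by
    have h : Real.log ((64 * N : ℝ) ^ (9 * m ^ 2)) < Real.log q := by
      rw [Real.log_pow]
      refine lt_of_le_of_lt hbig' ?_
      rw [hr2]
      have h1 : (m : ℝ) ^ 2 ≤ r ^ 2 := by nlinarith
      have h2 : 0 < r ^ 2 := by nlinarith
      nlinarith [mul_le_mul_of_nonneg_left h1 hl0.le, mul_pos hl0 h2]
    have h' := (Real.log_lt_log_iff (by positivity) (by linarith)).1 h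
    exact_mod_cast h'
  obtain ⟨h1, h2⟩ := hCorr N j m b q Y T ε (by omega) hj hjm hT hTN hb hbq hbig hY hε hcong
  obtain ⟨A, hA⟩ : ∃ A, A = q.primeFactors.filter (fun p => ε p = 1) := ⟨_, rfl⟩
  obtain ⟨B, hB⟩ : ∃ B, B = q.primeFactors.filter (fun p => ε p = -1) := ⟨_, rfl⟩
  rw [← hA] at h1
  rw [← hB] at h2
  have hAs : A ⊆ q.primeFactors := hA ▸ filter_subset _ _
  have hBs : B ⊆ q.primeFactors := hB ▸ filter_subset _ _
  have hM0 : 0 < max b q := lt_of_lt_of_le hb (le_max_left _ _)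
  have hMR : (0 : ℝ) < ((max b q : ℕ) : ℝ) := by exact_mod_cast hM0
  have hPA : (0 : ℝ) < ((∏ p ∈ A, p ^ q.factorization p : ℕ) : ℝ) := by
    exact_mod_cast prod_pos' q A hAs
  have hPB : (0 : ℝ) < ((∏ p ∈ B, p ^ q.factorization p : ℕ) : ℝ) := by
    exact_mod_cast prod_pos' q B hBs
  have hqR : (0 : ℝ) < q := by linarith
  have hNR : (0 : ℝ) < 64 * (N : ℝ) := by linarith
  -- logarithms of the two inequalities
  have h1R : ((∏ p ∈ A, p ^ q.factorization p : ℕ) : ℝ) ^ (2 * m - j + 1) *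
      ((max b q : ℕ) : ℝ) ^ (m - j + 1) ≤ (64 * (N : ℝ)) ^ (9 * m ^ 2) *
        (q : ℝ) ^ (2 * m - j + 1) := by exact_mod_cast h1
  have h2R : ((∏ p ∈ B, p ^ q.factorization p : ℕ) : ℝ) ^ (2 * m - j + 1) ≤
      (64 * (N : ℝ)) ^ (9 * m ^ 2) * ((max b q : ℕ) : ℝ) ^ m := by exact_mod_cast h2
  have h1L := Real.log_le_log (by positivity) h1R
  have h2L := Real.log_le_log (by positivity) h2R
  rw [Real.log_mul (by positivity) (by positivity), Real.log_mul (by positivity) (by positivity),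
    Real.log_pow, Real.log_pow, Real.log_pow, Real.log_pow, log_prod' q A hAs] at h1L
  rw [Real.log_mul (by positivity) (by positivity),
    Real.log_pow, Real.log_pow, Real.log_pow, log_prod' q B hBs] at h2L
  have hJ : ((2 * m - j + 1 : ℕ) : ℝ) = 2 * (m : ℝ) - j + 1 := by
    have : j ≤ 2 * m := by omega
    push_cast [Nat.cast_sub this]
    ring
  have hJ' : ((m - j + 1 : ℕ) : ℝ) = (m : ℝ) - j + 1 := by
    push_cast [Nat.cast_sub hjm]
    ring
  rw [hJ, hJ'] at h1L
  rw [hJ] at h2L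
  -- the sums
  obtain ⟨a, ha⟩ : ∃ a : ℝ, a = ∑ p ∈ A, q.factorization p * Real.log p := ⟨_, rfl⟩
  obtain ⟨c, hc⟩ : ∃ c : ℝ, c = ∑ p ∈ B, q.factorization p * Real.log p := ⟨_, rfl⟩
  obtain ⟨Lam, hLam⟩ : ∃ x : ℝ, x = Real.log ((max b q : ℕ) : ℝ) := ⟨_, rfl⟩
  have hdec : q.primeFactors.filter (fun p => ¬ ε p = 1) = B := by
    rw [hB]
    refine filter_congr fun p _ => ?_
    rcases hε p with h | h <;> simp [h]
  have hsum : a + c = Real.log q := by
    have h := log_prod' q q.primeFactors (Subset.refl _)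
    have hq' : (∏ p ∈ q.primeFactors, p ^ q.factorization p : ℕ) = q :=
      Nat.prod_factorization_pow_eq_self hq0.ne'
    rw [hq'] at h
    rw [h, ha, hc, hA, ← hdec]
    exact sum_filter_add_sum_filter_not _ _ _
  have hdiff : ∑ p ∈ q.primeFactors, (q.factorization p * Real.log p) * (ε p : ℝ) = a - c := by
    rw [← sum_filter_add_sum_filter_not q.primeFactors (fun p => ε p = 1), hdec, ← hA, ha, hc,
      sub_eq_add_neg, ← sum_neg_distrib]
    congr 1
    · refine sum_congr rfl fun p hp => ?_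
      rw [hA, mem_filter] at hp
      rw [hp.2]
      simp
    · refine sum_congr rfl fun p hp => ?_
      rw [hB, mem_filter] at hp
      rw [hp.2]
      simp
  have hLam0 : 0 ≤ Lam := hLam ▸ Real.log_natCast_nonneg _
  have hLam3 : Lam ≤ 192 * Real.log N * r ^ 2 := by
    have h3 : Lam ≤ 3 * Real.log q := by
      rw [hLam]
      rcases le_total b q with h | h
      · rw [max_eq_right h]
        linarith
      · rw [max_eq_left h]
        have hb' : (b : ℝ) ≤ 4 * (N : ℝ) ^ 2 * (q : ℝ) ^ 2 := by exact_mod_cast hb2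
        have hbR : (0 : ℝ) < b := by exact_mod_cast hb
        have h4 := Real.log_le_log hbR hb'
        rw [Real.log_mul (by positivity) (by positivity),
          Real.log_mul (by positivity) (by positivity), Real.log_pow, Real.log_pow] at h4
        have h5 : Real.log 4 = 2 * Real.log 2 := by
          rw [show (4 : ℝ) = 2 ^ 2 by norm_num, Real.log_pow]
          norm_num
        push_cast at h4
        linarith
    rw [hr2] at h3
    linarith
  have hsq : √(Real.log q * Real.log N) = 8 * Real.log N * r := by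
    rw [hr2, show 64 * Real.log N * r ^ 2 * Real.log N = (8 * Real.log N * r) ^ 2 by ring]
    exact Real.sqrt_sq (by positivity)
  rw [hdiff, ← hLam, hsq, abs_le]
  rw [← ha, ← hLam] at h1L
  rw [← hc, ← hLam] at h2L
  constructor
  · have hX := arith k (Real.log N) r m j Lam (2 * c - Lam) hl0 hk1 hjk' hm1 hmr hrm hjm'
      hLam0 hLam3 (by linarith)
    linarith
  · have hX := arith k (Real.log N) r m j Lam (2 * a + Lam - 2 * Real.log q) hl0 hk1 hjk' hm1
      hmr hrm hjm' hLam0 hLam3 (by linarith)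
    linarith

end Pool.Agent.Helper83.RU.RLOG
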