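import Pool.Agent.Helper83.RU.Stm

/-!
# Row MOM: the second moment over the subsets of size `k`
-/

namespace Pool.Agent.Helper83.RU.RMOM

open Finset Pool.Agent.Helper83.RU

/-- the product of the signs over `U` -/
def chi (v : ℕ → ℕ → ℝ) (U : Finset ℕ) (p : ℕ) : ℝ := ∏ n ∈ U, v n p

lemma chi_mul {v : ℕ → ℕ → ℝ} (hv : ∀ n p, v n p = 1 ∨ v n p = -1) (U U' : Finset ℕ) (p : ℕ) :
    chi v U p * chi v U' p = chi v ((U \ U') ∪ (U' \ U)) p := by
  unfold chi
  have h1 : ∏ n ∈ U, v n p = (∏ n ∈ U \ U', v n p) * ∏ n ∈ U ∩ U', v n p := by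
    rw [← Finset.prod_sdiff (Finset.inter_subset_left : U ∩ U' ⊆ U), Finset.sdiff_inter_self_left]
  have h2 : ∏ n ∈ U', v n p = (∏ n ∈ U' \ U, v n p) * ∏ n ∈ U ∩ U', v n p := by
    rw [← Finset.prod_sdiff (Finset.inter_subset_right : U ∩ U' ⊆ U'), Finset.sdiff_inter_self_right]
  have h4 : (∏ n ∈ U ∩ U', v n p) * (∏ n ∈ U ∩ U', v n p) = 1 := by
    rw [← Finset.prod_mul_distrib]
    apply Finset.prod_eq_one
    intro n _
    rcases hv n p with h | h <;> rw [h] <;> norm_num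
  rw [Finset.prod_union disjoint_sdiff_sdiff, h1, h2]
  linear_combination ((∏ n ∈ U \ U', v n p) * ∏ n ∈ U' \ U, v n p) * h4

lemma chi_sq {v : ℕ → ℕ → ℝ} (hv : ∀ n p, v n p = 1 ∨ v n p = -1) (U : Finset ℕ) (p : ℕ) :
    chi v U p * chi v U p = 1 := by
  rw [chi_mul hv]
  simp [chi]

theorem row : MomStmt := by
  intro S P k w v lam E hw hlam hE hv hT
  set F := S.powersetCard k with hF
  have hFc : F.card = S.card.choose k := Finset.card_powersetCard _ _
  set M : ℝ := (S.card.choose k : ℝ) with hM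
  have hM0 : 0 ≤ M := Nat.cast_nonneg _
  have hFM : (F.card : ℝ) = M := by rw [hFc]
  set G : Finset ℕ → Finset ℕ → ℝ := fun U U' => ∑ p ∈ P, w p * (chi v U p * chi v U' p) + lam with hG
  -- off diagonal
  have hoff : ∀ U ∈ F, ∀ U' ∈ F, U ≠ U' → G U U' ^ 2 ≤ E ^ 2 := by
    intro U hU U' hU' hne
    rw [hF, Finset.mem_powersetCard] at hU hU'
    have hb : |G U U'| ≤ E := by
      have := hT ((U \ U') ∪ (U' \ U)) (Finset.union_subset (Finset.sdiff_subset.trans hU.1)
        (Finset.sdiff_subset.trans hU'.1)) ?_ ?_ ?_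
      · rw [hG]
        simp only [chi_mul hv]
        exact this
      · rw [Finset.nonempty_iff_ne_empty]
        intro h0
        rw [Finset.union_eq_empty, Finset.sdiff_eq_empty_iff_subset,
          Finset.sdiff_eq_empty_iff_subset] at h0
        exact hne (Finset.Subset.antisymm h0.1 h0.2)
      · rw [Finset.card_union_of_disjoint disjoint_sdiff_sdiff]
        have e1 := Finset.card_sdiff_add_card_inter U U'
        have e2 := Finset.card_sdiff_add_card_inter U' U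
        rw [Finset.inter_comm] at e2
        exact ⟨(U \ U').card, by omega⟩
      · rw [Finset.card_union_of_disjoint disjoint_sdiff_sdiff]
        have e1 := Finset.card_sdiff_add_card_inter U U'
        have e2 := Finset.card_sdiff_add_card_inter U' U
        omega
    rw [← sq_abs]
    exact pow_le_pow_left₀ (abs_nonneg _) hb 2
  have hdiag : ∀ U, G U U = ∑ p ∈ P, w p + lam := by
    intro U
    rw [hG]
    simp only [chi_sq hv, mul_one]
  -- upper bound
  have hup : ∑ U ∈ F, ∑ U' ∈ F, G U U' ^ 2 ≤ M * (∑ p ∈ P, w p + lam) ^ 2 + M ^ 2 * E ^ 2 := by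
    have hrow : ∀ U ∈ F, ∑ U' ∈ F, G U U' ^ 2 ≤ (∑ p ∈ P, w p + lam) ^ 2 + M * E ^ 2 := by
      intro U hU
      rw [← Finset.add_sum_erase F _ hU, hdiag]
      have : ∑ U' ∈ F.erase U, G U U' ^ 2 ≤ ∑ U' ∈ F.erase U, E ^ 2 := by
        apply Finset.sum_le_sum
        intro U' hU'
        rw [Finset.mem_erase] at hU'
        exact hoff U hU U' hU'.2 (fun h => hU'.1 h.symm)
      rw [Finset.sum_const, nsmul_eq_mul] at this
      have hc : ((F.erase U).card : ℝ) ≤ M := by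
        rw [← hFM]
        exact_mod_cast Finset.card_le_card (Finset.erase_subset _ _)
      nlinarith [sq_nonneg E, mul_le_mul_of_nonneg_right hc (sq_nonneg E)]
    calc ∑ U ∈ F, ∑ U' ∈ F, G U U' ^ 2
        ≤ ∑ U ∈ F, ((∑ p ∈ P, w p + lam) ^ 2 + M * E ^ 2) := Finset.sum_le_sum hrow
      _ = M * (∑ p ∈ P, w p + lam) ^ 2 + M ^ 2 * E ^ 2 := by
          rw [Finset.sum_const, nsmul_eq_mul, hFM]; ring
  -- lower bound
  have hlow : M ^ 2 * ∑ p ∈ P, w p ^ 2 ≤ ∑ U ∈ F, ∑ U' ∈ F, G U U' ^ 2 := by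
    have hexp : ∀ U U', G U U' ^ 2 = ∑ p ∈ P, ∑ p' ∈ P,
        w p * w p' * ((chi v U p * chi v U p') * (chi v U' p * chi v U' p')) +
        2 * lam * ∑ p ∈ P, w p * (chi v U p * chi v U' p) + lam ^ 2 := by
      intro U U'
      have h1 : (∑ p ∈ P, w p * (chi v U p * chi v U' p)) ^ 2 = ∑ p ∈ P, ∑ p' ∈ P,
        w p * w p' * ((chi v U p * chi v U p') * (chi v U' p * chi v U' p')) := by
        rw [sq, Finset.sum_mul_sum]
        refine Finset.sum_congr rfl fun p _ => Finset.sum_congr rfl fun p' _ => by ring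
      rw [← h1, hG]
      ring
    have hA : ∑ U ∈ F, ∑ U' ∈ F, ∑ p ∈ P, ∑ p' ∈ P,
        w p * w p' * ((chi v U p * chi v U p') * (chi v U' p * chi v U' p')) =
        ∑ p ∈ P, ∑ p' ∈ P, w p * w p' * (∑ U ∈ F, chi v U p * chi v U p') ^ 2 := by
      have s1 : ∀ U ∈ F, ∑ U' ∈ F, ∑ p ∈ P, ∑ p' ∈ P,
          w p * w p' * ((chi v U p * chi v U p') * (chi v U' p * chi v U' p')) =
          ∑ p ∈ P, ∑ p' ∈ P, ∑ U' ∈ F,
          w p * w p' * ((chi v U p * chi v U p') * (chi v U' p * chi v U' p')) := by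
        intro U _
        rw [Finset.sum_comm]
        refine Finset.sum_congr rfl fun p _ => ?_
        rw [Finset.sum_comm]
      rw [Finset.sum_congr rfl s1, Finset.sum_comm]
      refine Finset.sum_congr rfl fun p _ => ?_
      rw [Finset.sum_comm]
      refine Finset.sum_congr rfl fun p' _ => ?_
      rw [sq, Finset.sum_mul_sum, Finset.mul_sum]
      refine Finset.sum_congr rfl fun U _ => ?_
      rw [Finset.mul_sum]
    have hB : ∑ U ∈ F, ∑ U' ∈ F, 2 * lam * ∑ p ∈ P, w p * (chi v U p * chi v U' p) =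
        2 * lam * ∑ p ∈ P, w p * (∑ U ∈ F, chi v U p) ^ 2 := by
      have s1 : ∀ U ∈ F, ∑ U' ∈ F, 2 * lam * ∑ p ∈ P, w p * (chi v U p * chi v U' p) =
          2 * lam * ∑ p ∈ P, ∑ U' ∈ F, w p * (chi v U p * chi v U' p) := by
        intro U _
        rw [← Finset.mul_sum, Finset.sum_comm]
      rw [Finset.sum_congr rfl s1, ← Finset.mul_sum, Finset.sum_comm]
      congr 1
      refine Finset.sum_congr rfl fun p _ => ?_
      rw [sq, Finset.sum_mul_sum, Finset.mul_sum]
      refine Finset.sum_congr rfl fun U _ => ?_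
      rw [Finset.mul_sum]
    have hsum : ∑ U ∈ F, ∑ U' ∈ F, G U U' ^ 2 =
        ∑ p ∈ P, ∑ p' ∈ P, w p * w p' * (∑ U ∈ F, chi v U p * chi v U p') ^ 2 +
        2 * lam * ∑ p ∈ P, w p * (∑ U ∈ F, chi v U p) ^ 2 +
        ∑ U ∈ F, ∑ U' ∈ F, lam ^ 2 := by
      rw [← hA, ← hB, ← Finset.sum_add_distrib, ← Finset.sum_add_distrib]
      refine Finset.sum_congr rfl fun U _ => ?_
      rw [← Finset.sum_add_distrib, ← Finset.sum_add_distrib]
      refine Finset.sum_congr rfl fun U' _ => ?_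
      rw [hexp]
    rw [hsum]
    have p1 : M ^ 2 * ∑ p ∈ P, w p ^ 2 ≤
        ∑ p ∈ P, ∑ p' ∈ P, w p * w p' * (∑ U ∈ F, chi v U p * chi v U p') ^ 2 := by
      rw [Finset.mul_sum]
      apply Finset.sum_le_sum
      intro p hp
      have hd : M ^ 2 * w p ^ 2 = w p * w p * (∑ U ∈ F, chi v U p * chi v U p) ^ 2 := by
        have : ∑ U ∈ F, chi v U p * chi v U p = M := by
          rw [← hFM]
          simp [chi_sq hv]
        rw [this]; ring
      rw [hd]
      exact Finset.single_le_sum (f := fun p' => w p * w p' *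
        (∑ U ∈ F, chi v U p * chi v U p') ^ 2)
        (fun p' hp' => mul_nonneg (mul_nonneg (hw p hp) (hw p' hp')) (sq_nonneg _)) hp
    have p2 : 0 ≤ 2 * lam * ∑ p ∈ P, w p * (∑ U ∈ F, chi v U p) ^ 2 :=
      mul_nonneg (by positivity) (Finset.sum_nonneg fun p hp => mul_nonneg (hw p hp) (sq_nonneg _))
    have p3 : 0 ≤ ∑ U ∈ F, ∑ U' ∈ F, lam ^ 2 :=
      Finset.sum_nonneg fun _ _ => Finset.sum_nonneg fun _ _ => sq_nonneg _
    linarith
  rcases hM0.lt_or_eq with hpos | h0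
  · have h := hlow.trans hup
    have h2 : M * (M * ∑ p ∈ P, w p ^ 2) ≤ M * ((∑ p ∈ P, w p + lam) ^ 2 + M * E ^ 2) := by
      nlinarith [h]
    exact le_of_mul_le_mul_left h2 hpos
  · rw [← h0]
    nlinarith [sq_nonneg (∑ p ∈ P, w p + lam)]

end Pool.Agent.Helper83.RU.RMOM
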