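import Pool.Agent.Helper83.RU.Stm

/-! Row NONZ of the sheet RU (MP_b7477f_nt). -/

set_option autoImplicit false

namespace Pool.Agent.Helper83.RU.RNONZ

open Finset Polynomial Pool.Agent.Helper83.RU

lemma rad_map (T : Finset ℕ) :
    (rad T).map (Int.castRingHom ℚ) = ∏ n ∈ T, (1 + C (4 * (n : ℚ)) * X) := by
  unfold rad
  rw [Polynomial.map_prod]
  refine Finset.prod_congr rfl fun n _ => ?_
  rw [Polynomial.map_add, Polynomial.map_one, Polynomial.map_mul, Polynomial.map_X,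
    Polynomial.map_C]
  have h : (Int.castRingHom ℚ) (4 * (n : ℤ)) = 4 * (n : ℚ) := by simp
  rw [h]

theorem row : NonzStmt := by
  intro T P Q hT hne h
  -- a nonzero element
  obtain ⟨n, hn, hn0⟩ : ∃ n ∈ T, n ≠ 0 := by
    by_contra hno
    have hsub : T ⊆ {0} := by
      intro n hn
      rw [Finset.mem_singleton]
      by_contra h0
      exact hno ⟨n, hn, h0⟩
    have h1 := Finset.card_le_card hsub
    rw [Finset.card_singleton] at h1
    omega
  have hn4 : (4 * (n : ℚ)) ≠ 0 := by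
    have : (n : ℚ) ≠ 0 := Nat.cast_ne_zero.2 hn0
    positivity
  set r : ℚ := -1 / (4 * n) with hr
  have h1 : (P.map (Int.castRingHom ℚ)) * (P.map (Int.castRingHom ℚ)) =
      (Q.map (Int.castRingHom ℚ)) * (Q.map (Int.castRingHom ℚ)) *
        ((1 + C (4 * (n : ℚ)) * X) * ∏ k ∈ T.erase n, (1 + C (4 * (k : ℚ)) * X)) := by
    have h2 := congrArg (Polynomial.map (Int.castRingHom ℚ)) h
    rw [Polynomial.map_mul, Polynomial.map_pow, Polynomial.map_pow, rad_map,
      ← Finset.mul_prod_erase T _ hn, sq, sq] at h2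
    exact h2
  have hinj : Function.Injective (Polynomial.map (Int.castRingHom ℚ)) :=
    Polynomial.map_injective _ Int.cast_injective
  have hev : ∀ k : ℕ, k ≠ n → (1 + 4 * (k : ℚ) * r) ≠ 0 := by
    intro k hk h0
    apply hk
    have h3 : (n : ℚ) = k := by
      rw [hr] at h0
      field_simp at h0
      linarith
    exact_mod_cast h3.symm
  have hB : (∏ k ∈ T.erase n, (1 + C (4 * (k : ℚ)) * X)).eval r ≠ 0 := by
    rw [Polynomial.eval_prod]
    refine Finset.prod_ne_zero_iff.2 fun k hk => ?_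
    have h3 := hev k (Finset.ne_of_mem_erase hk)
    simpa using h3
  have hB0 : (∏ k ∈ T.erase n, (1 + C (4 * (k : ℚ)) * X)) ≠ (0 : ℚ[X]) := by
    intro h0
    rw [h0] at hB
    exact hB (by simp)
  have hA : (1 + C (4 * (n : ℚ)) * X) = C (4 * (n : ℚ)) * (X - C r) := by
    rw [mul_sub, ← C_mul]
    have h3 : 4 * (n : ℚ) * r = -1 := by
      rw [hr]
      field_simp
    rw [h3, C_neg, C_1]
    ring
  have hA0 : (1 + C (4 * (n : ℚ)) * X) ≠ (0 : ℚ[X]) := by
    rw [hA]
    exact mul_ne_zero (C_ne_zero.2 hn4) (X_sub_C_ne_zero r)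
  have hR0 : (1 + C (4 * (n : ℚ)) * X) * ∏ k ∈ T.erase n, (1 + C (4 * (k : ℚ)) * X) ≠
      (0 : ℚ[X]) := mul_ne_zero hA0 hB0
  have hP0 : P.map (Int.castRingHom ℚ) ≠ 0 := by
    intro h0
    rw [h0, zero_mul] at h1
    have h3 := (mul_eq_zero.1 h1.symm).resolve_right hR0
    have h4 : Q.map (Int.castRingHom ℚ) = 0 := mul_self_eq_zero.1 h3
    refine hne ⟨hinj (by rw [h0, Polynomial.map_zero]), hinj (by rw [h4, Polynomial.map_zero])⟩
  have hQ0 : Q.map (Int.castRingHom ℚ) ≠ 0 := by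
    intro h0
    rw [h0, zero_mul, zero_mul] at h1
    exact hP0 (mul_self_eq_zero.1 h1)
  have hmA : rootMultiplicity r (1 + C (4 * (n : ℚ)) * X) = 1 := by
    rw [hA, rootMultiplicity_mul (by rw [← hA]; exact hA0), rootMultiplicity_C,
      rootMultiplicity_X_sub_C_self]
  have hmB : rootMultiplicity r (∏ k ∈ T.erase n, (1 + C (4 * (k : ℚ)) * X)) = 0 :=
    rootMultiplicity_eq_zero hB
  have h5 := congrArg (rootMultiplicity r) h1
  rw [rootMultiplicity_mul (mul_ne_zero hP0 hP0),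
    rootMultiplicity_mul (mul_ne_zero (mul_ne_zero hQ0 hQ0) hR0),
    rootMultiplicity_mul (mul_ne_zero hQ0 hQ0), rootMultiplicity_mul hR0, hmA, hmB] at h5
  omega

end Pool.Agent.Helper83.RU.RNONZ
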