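import Pool.Agent.Helper83.RU.Stm

/-! Row PAD (MP_b7477f_nt, squares in arithmetic progressions): divisibility by prime powers. -/

namespace Pool.Agent.Helper83.RU.RPAD

open Finset Polynomial

theorem hom_cast (F : ℤ[X]) (D : ℕ) (b q : ℤ) (hb : b ≠ 0) (hF : F.natDegree ≤ D) :
    ((hom F D b q : ℤ) : ℚ) = (b : ℚ) ^ D * (F.map (Int.castRingHom ℚ)).eval ((q : ℚ) / b) := by
  have hb' : (b : ℚ) ≠ 0 := by exact_mod_cast hb
  have hd : (F.map (Int.castRingHom ℚ)).natDegree < D + 1 :=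
    lt_of_le_of_lt (natDegree_map_le) (Nat.lt_succ_of_le hF)
  rw [eval_eq_sum_range' hd, mul_sum, hom]
  push_cast
  refine sum_congr rfl fun l hl => ?_
  have hl' : l ≤ D := Nat.lt_succ_iff.1 (mem_range.1 hl)
  rw [coeff_map, div_pow]
  have h1 : (b : ℚ) ^ D = (b : ℚ) ^ (D - l) * (b : ℚ) ^ l := by
    rw [← pow_add, Nat.sub_add_cancel hl']
  rw [h1]
  have h2 : (b : ℚ) ^ l ≠ 0 := pow_ne_zero _ hb'
  simp only [eq_intCast]
  field_simp

theorem hom_dvd {F : ℤ[X]} {D J : ℕ} {b q c : ℤ} (h0 : ∀ l, l < J → F.coeff l = 0)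
    (hc : ∀ l, c ∣ F.coeff l) : c * q ^ J ∣ hom F D b q := by
  refine dvd_sum fun l _ => ?_
  rcases lt_or_ge l J with hl | hl
  · rw [h0 l hl, zero_mul, zero_mul]
    exact dvd_zero _
  · exact Dvd.dvd.mul_right (mul_dvd_mul (hc l) (pow_dvd_pow q hl)) _

/-- the truncated series -/
noncomputable def A (J : ℕ) (S : PowerSeries ℤ) : ℤ[X] := PowerSeries.trunc J S

theorem A_coeff (J : ℕ) (S : PowerSeries ℤ) (l : ℕ) :
    (A J S).coeff l = if l < J then PowerSeries.coeff l S else 0 :=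
  PowerSeries.coeff_trunc _ _ _

theorem A_deg (J : ℕ) (S : PowerSeries ℤ) : (A J S).natDegree ≤ J := by
  refine natDegree_le_iff_coeff_eq_zero.2 fun l hl => ?_
  rw [A_coeff, if_neg (not_lt.2 hl.le)]

/-- products with the truncated series -/
theorem mul_A (J : ℕ) (S U : PowerSeries ℤ) (l : ℕ) (hl : l < J) :
    PowerSeries.coeff l (U * (A J S : PowerSeries ℤ)) = PowerSeries.coeff l (U * S) := by
  rw [PowerSeries.coeff_mul, PowerSeries.coeff_mul]
  refine sum_congr rfl fun x hx => ?_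
  have h1 := mem_antidiagonal.1 hx
  rw [Polynomial.coeff_coe, A_coeff, if_pos (by omega)]

theorem A_sq_low {N j J : ℕ} {T : Finset ℕ} {S : PowerSeries ℤ} (hS : IsRoot N j T S) (l : ℕ)
    (hl : l < J) : ((A J S) ^ 2 - rad T).coeff l = 0 := by
  have h1 : ((A J S) ^ 2).coeff l = (rad T).coeff l := by
    rw [← Polynomial.coeff_coe, ← Polynomial.coeff_coe (φ := rad T), Polynomial.coe_pow, sq,
      mul_A J S _ l hl, mul_comm, mul_A J S _ l hl, ← sq, hS.2.2.2]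
  rw [coeff_sub, h1, sub_self]

theorem rad_mod (T : Finset ℕ) : (4 : ℤ[X]) ∣ rad T - 1 := by
  classical
  unfold rad
  induction T using Finset.induction_on with
  | empty => simp
  | insert n T hn ih =>
    rw [prod_insert hn]
    obtain ⟨G, hG⟩ := ih
    refine ⟨G + C (n : ℤ) * X * (1 + 4 * G), ?_⟩
    have h1 : (∏ n ∈ T, (1 + C (4 * (n : ℤ)) * X)) = 1 + 4 * G := by
      linear_combination hG
    rw [h1, C_mul, show (C (4 : ℤ) : ℤ[X]) = 4 from rfl]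
    ring

theorem A_mod {N j J : ℕ} {T : Finset ℕ} {S : PowerSeries ℤ} (hS : IsRoot N j T S) (hJ : 0 < J) :
    (2 : ℤ[X]) ∣ A J S - 1 := by
  have h1 : (C (2 : ℤ) : ℤ[X]) ∣ A J S - 1 := by
    rw [C_dvd_iff_dvd_coeff]
    intro l
    rw [coeff_sub, A_coeff]
    rcases Nat.eq_zero_or_pos l with rfl | hl
    · rw [if_pos hJ, hS.1, coeff_one_zero, sub_self]
      exact dvd_zero _
    · rw [coeff_one, if_neg hl.ne', sub_zero]
      split_ifs
      · exact (hS.2.1 l hl).two_dvd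
      · exact dvd_zero _
  exact h1

theorem A_sq_four {N j J : ℕ} {T : Finset ℕ} {S : PowerSeries ℤ} (hS : IsRoot N j T S)
    (hJ : 0 < J) (l : ℕ) : (4 : ℤ) ∣ ((A J S) ^ 2 - rad T).coeff l := by
  obtain ⟨G, hG⟩ := A_mod hS hJ
  obtain ⟨G', hG'⟩ := rad_mod T
  have h1 : (A J S) ^ 2 - rad T = C (4 : ℤ) * (G + G ^ 2 - G') := by
    rw [show (C (4 : ℤ) : ℤ[X]) = 4 from rfl]
    have h2 : A J S = 1 + 2 * G := by linear_combination hG
    have h3 : rad T = 1 + 4 * G' := by linear_combination hG'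
    rw [h2, h3]
    ring
  rw [h1, coeff_C_mul]
  exact dvd_mul_right _ _

theorem rad_deg (T : Finset ℕ) : (rad T).natDegree ≤ T.card := by
  unfold rad
  refine (natDegree_prod_le _ _).trans ?_
  rw [card_eq_sum_ones]
  refine sum_le_sum fun n _ => ?_
  rw [add_comm, ← C_1]
  exact natDegree_linear_le

theorem row : PadStmt := by
  intro N j m b q Y p e ε T S P Q hN hj hjm hT hS hA hb hbq hp he hpq hε hY hYε
  obtain ⟨_, hP1, hQ1, _, _, hPQ⟩ := hA
  set J : ℕ := 2 * m - j + 1 with hJ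
  have hJ0 : 0 < J := Nat.succ_pos _
  have hb0 : (b : ℤ) ≠ 0 := by exact_mod_cast hb.ne'
  have hbQ : ((b : ℤ) : ℚ) ≠ 0 := by exact_mod_cast hb0
  set α : ℤ := hom (A J S) J b q with hα
  have hαQ : (α : ℚ) = ((b : ℤ) : ℚ) ^ J *
      ((A J S).map (Int.castRingHom ℚ)).eval (((q : ℤ) : ℚ) / ((b : ℤ) : ℚ)) :=
    hom_cast _ _ _ _ hb0 (A_deg J S)
  -- the square of `Y`
  have hYQ : ((Y : ℤ) : ℚ) ^ 2 = ((b : ℤ) : ℚ) ^ (2 * j) *
      ((rad T).map (Int.castRingHom ℚ)).eval (((q : ℤ) : ℚ) / ((b : ℤ) : ℚ)) := by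
    have h1 : ((Y : ℤ) : ℚ) ^ 2 = ∏ n ∈ T, (((b : ℤ) : ℚ) + 4 * n * ((q : ℤ) : ℚ)) := by
      have h2 : (((Y ^ 2 : ℕ) : ℤ) : ℚ) = (((∏ n ∈ T, (b + 4 * n * q) : ℕ) : ℤ) : ℚ) := by rw [hY]
      push_cast at h2 ⊢
      exact h2
    rw [h1, ← hT, ← prod_const, rad, Polynomial.map_prod, eval_prod, ← prod_mul_distrib]
    refine prod_congr rfl fun n _ => ?_
    simp only [Polynomial.map_add, Polynomial.map_one, Polynomial.map_mul, map_C, map_X, eval_add,
      eval_one, eval_mul, eval_C, eval_X, Int.coe_castRingHom]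
    push_cast
    field_simp
  -- the congruence for the squares
  have hsq : (4 : ℤ) * (q : ℤ) ^ J ∣ ((b : ℤ) ^ j * α) ^ 2 - ((b : ℤ) ^ J * Y) ^ 2 := by
    have h1 : ((b : ℤ) ^ j * α) ^ 2 - ((b : ℤ) ^ J * Y) ^ 2 =
        hom ((A J S) ^ 2 - rad T) (2 * J + 2 * j) b q := by
      have hdeg : ((A J S) ^ 2 - rad T).natDegree ≤ 2 * J + 2 * j := by
        refine (natDegree_sub_le _ _).trans (max_le ?_ ?_)
        · refine natDegree_pow_le.trans ?_
          have := A_deg J S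
          omega
        · have := rad_deg T
          omega
      have h2 := hom_cast ((A J S) ^ 2 - rad T) (2 * J + 2 * j) b q hb0 hdeg
      have h3 : ((((b : ℤ) ^ j * α) ^ 2 - ((b : ℤ) ^ J * Y) ^ 2 : ℤ) : ℚ) =
          ((hom ((A J S) ^ 2 - rad T) (2 * J + 2 * j) b q : ℤ) : ℚ) := by
        rw [h2, Polynomial.map_sub, eval_sub, Polynomial.map_pow, eval_pow]
        rw [Int.cast_sub, Int.cast_pow, Int.cast_mul, Int.cast_pow, Int.cast_pow, Int.cast_mul,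
          Int.cast_pow, hαQ, mul_pow (((b : ℤ) : ℚ) ^ J) ((Y : ℤ) : ℚ), hYQ]
        ring
      exact_mod_cast h3
    rw [h1]
    exact hom_dvd (fun l hl => A_sq_low hS l hl) (fun l => A_sq_four hS hJ0 l)
  -- `α` modulo `2 q`
  have hα2 : (2 : ℤ) * q ∣ α - (b : ℤ) ^ J := by
    have h1 : α - (b : ℤ) ^ J = ∑ l ∈ range J, (A J S).coeff (l + 1) * (q : ℤ) ^ (l + 1) *
        (b : ℤ) ^ (J - (l + 1)) := by
      rw [hα, hom, sum_range_succ', A_coeff, if_pos hJ0, hS.1]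
      simp
    rw [h1]
    refine dvd_sum fun l _ => Dvd.dvd.mul_right (mul_dvd_mul ?_ ?_) _
    · rw [A_coeff]
      split_ifs
      · exact (hS.2.1 (l + 1) (Nat.succ_pos l)).two_dvd
      · exact dvd_zero _
    · exact dvd_pow_self _ (Nat.succ_ne_zero l)
  have hε2 : ε * ε = 1 := by
    rcases hε with rfl | rfl <;> norm_num
  have hpqZ : ((p ^ e : ℕ) : ℤ) ∣ (q : ℤ) := by exact_mod_cast hpq
  set u : ℤ := (b : ℤ) ^ J * Y + ε * ((b : ℤ) ^ j * α) with hu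
  set w : ℤ := (b : ℤ) ^ J * Y - ε * ((b : ℤ) ^ j * α) with hw
  have huw : u * w = ((b : ℤ) ^ J * Y) ^ 2 - ((b : ℤ) ^ j * α) ^ 2 := by
    rw [hu, hw]
    linear_combination (-((b : ℤ) ^ j * α) ^ 2) * hε2
  have hu2 : (2 : ℤ) * ((p ^ e : ℕ) : ℤ) ∣ u - 2 * (ε * (b : ℤ) ^ (J + j)) := by
    have h1 : (2 : ℤ) * ((p ^ e : ℕ) : ℤ) ∣ α - (b : ℤ) ^ J :=
      (mul_dvd_mul_left 2 hpqZ).trans hα2
    have h2 : (2 : ℤ) * ((p ^ e : ℕ) : ℤ) ∣ (Y : ℤ) - ε * (b : ℤ) ^ j := by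
      have := hYε
      push_cast at this ⊢
      exact this
    have h3 : u - 2 * (ε * (b : ℤ) ^ (J + j)) = (b : ℤ) ^ J * ((Y : ℤ) - ε * (b : ℤ) ^ j) +
        (ε * (b : ℤ) ^ j) * (α - (b : ℤ) ^ J) := by
      rw [hu, pow_add]
      ring
    rw [h3]
    exact dvd_add (Dvd.dvd.mul_left h2 _) (Dvd.dvd.mul_left h1 _)
  have hpZ : Prime (p : ℤ) := Nat.prime_iff_prime_int.1 hp
  have hpb : ¬ (p : ℤ) ∣ (b : ℤ) := by
    intro h
    have h1 : p ∣ b := by exact_mod_cast h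
    have h2 : p ∣ q := (dvd_pow_self p (by omega)).trans hpq
    have h3 : p ∣ 1 := by
      rw [← hbq]
      exact Nat.dvd_gcd h1 h2
    exact hp.one_lt.ne' (Nat.dvd_one.1 h3)
  obtain ⟨k, hk⟩ := hu2
  have hu' : u = 2 * (ε * (b : ℤ) ^ (J + j) + ((p ^ e : ℕ) : ℤ) * k) := by
    linear_combination hk
  set u' : ℤ := ε * (b : ℤ) ^ (J + j) + ((p ^ e : ℕ) : ℤ) * k with hu'd
  have hpu : ¬ (p : ℤ) ∣ u' := by
    intro h
    have h1 : (p : ℤ) ∣ ((p ^ e : ℕ) : ℤ) * k := by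
      refine Dvd.dvd.mul_right ?_ _
      push_cast
      exact dvd_pow_self _ (by omega)
    have h2 : (p : ℤ) ∣ ε * (b : ℤ) ^ (J + j) := by
      have h3 := dvd_sub h h1
      rwa [hu'd, add_sub_cancel_right] at h3
    have h3 : (p : ℤ) ∣ (b : ℤ) ^ (J + j) := by
      have h4 : (b : ℤ) ^ (J + j) = ε * (ε * (b : ℤ) ^ (J + j)) := by
        rw [← mul_assoc, hε2, one_mul]
      rw [h4]
      exact Dvd.dvd.mul_left h2 _
    exact hpb (hpZ.dvd_of_dvd_pow h3)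
  have hcop : ∀ {x : ℤ}, ¬ (p : ℤ) ∣ x → IsCoprime (((p ^ e : ℕ) : ℤ) ^ J) x := by
    intro x hx
    refine IsCoprime.pow_left ?_
    push_cast
    exact IsCoprime.pow_left ((Prime.coprime_iff_not_dvd hpZ).2 hx)
  have hpJ : ((p ^ e : ℕ) : ℤ) ^ J ∣ (q : ℤ) ^ J := pow_dvd_pow_of_dvd hpqZ J
  have hwd : ((p ^ e : ℕ) : ℤ) ^ J ∣ w := by
    have h1 : (4 : ℤ) * ((p ^ e : ℕ) : ℤ) ^ J ∣ u * w := by
      refine (mul_dvd_mul_left 4 hpJ).trans ?_
      rw [huw]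
      have := dvd_neg.2 hsq
      rwa [neg_sub] at this
    rw [hu', mul_assoc, show (4 : ℤ) = 2 * 2 by norm_num, mul_assoc] at h1
    have h2 : (2 : ℤ) * ((p ^ e : ℕ) : ℤ) ^ J ∣ u' * w :=
      (mul_dvd_mul_iff_left (by norm_num : (2 : ℤ) ≠ 0)).1 h1
    exact (hcop hpu).dvd_of_dvd_mul_left ((dvd_mul_left _ _).trans h2)
  -- the conclusion
  have hPA : (q : ℤ) ^ J ∣ (b : ℤ) ^ J * hom P m b q - (b : ℤ) ^ j * α * hom Q (m - j) b q := by
    have hdeg : (P - Q * A J S).natDegree ≤ m + J := by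
      refine (natDegree_sub_le _ _).trans (max_le (hP1.trans (Nat.le_add_right _ _)) ?_)
      refine natDegree_mul_le.trans ?_
      have := A_deg J S
      omega
    have h1 : (b : ℤ) ^ J * hom P m b q - (b : ℤ) ^ j * α * hom Q (m - j) b q =
        hom (P - Q * A J S) (m + J) b q := by
      have h2 := hom_cast (P - Q * A J S) (m + J) b q hb0 hdeg
      have h4 := hom_cast P m b q hb0 hP1
      have h5 := hom_cast Q (m - j) b q hb0 hQ1
      have h3 : (((b : ℤ) ^ J * hom P m b q - (b : ℤ) ^ j * α * hom Q (m - j) b q : ℤ) : ℚ) =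
          ((hom (P - Q * A J S) (m + J) b q : ℤ) : ℚ) := by
        rw [h2, Polynomial.map_sub, eval_sub, Polynomial.map_mul, eval_mul]
        rw [Int.cast_sub, Int.cast_mul, Int.cast_pow, Int.cast_mul, Int.cast_mul, Int.cast_pow,
          hαQ, h4, h5]
        have h6 : ((b : ℤ) : ℚ) ^ m = ((b : ℤ) : ℚ) ^ (m - j) * ((b : ℤ) : ℚ) ^ j := by
          rw [← pow_add, Nat.sub_add_cancel hjm]
        rw [pow_add _ m J, h6]
        ring
      exact_mod_cast h3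
    rw [h1]
    have h7 := hom_dvd (F := P - Q * A J S) (D := m + J) (J := J) (b := (b : ℤ)) (q := (q : ℤ))
      (c := 1) (fun l hl => ?_) (fun l => one_dvd _)
    · rwa [one_mul] at h7
    · have h8 := hPQ l (by omega)
      rw [map_sub] at h8
      rw [coeff_sub, ← Polynomial.coeff_coe, ← Polynomial.coeff_coe, Polynomial.coe_mul,
        mul_A J S _ l hl]
      exact h8
  have hfin : ((p ^ e : ℕ) : ℤ) ^ J ∣ (b : ℤ) ^ J *
      (hom P m b q - ε * Y * hom Q (m - j) b q) := by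
    have h1 : (b : ℤ) ^ J * (hom P m b q - ε * Y * hom Q (m - j) b q) =
        ((b : ℤ) ^ J * hom P m b q - (b : ℤ) ^ j * α * hom Q (m - j) b q) -
          (ε * hom Q (m - j) b q) * w := by
      rw [hw]
      linear_combination (-((b : ℤ) ^ j * α * hom Q (m - j) b q)) * hε2
    rw [h1]
    exact dvd_sub (hpJ.trans hPA) (Dvd.dvd.mul_left hwd _)
  have hpbJ : ¬ (p : ℤ) ∣ (b : ℤ) ^ J := fun h => hpb (hpZ.dvd_of_dvd_pow h)
  exact (hcop hpbJ).dvd_of_dvd_mul_left hfin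

end Pool.Agent.Helper83.RU.RPAD
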