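import Mathlib

/-!
# Squares in arithmetic progressions: higher correlations of the square roots (statements)
-/

namespace Pool.Agent.Helper83.RU

open Finset

/-- homogenized value `b ^ m * F (q / b)` of a polynomial of degree at most `m` -/
def hom (F : Polynomial ℤ) (m : ℕ) (b q : ℤ) : ℤ :=
  ∑ l ∈ range (m + 1), F.coeff l * q ^ l * b ^ (m - l)

/-- the polynomial `∏ (1 + 4 n X)`, `n ∈ T` -/
noncomputable def rad (T : Finset ℕ) : Polynomial ℤ :=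
  ∏ n ∈ T, (1 + Polynomial.C (4 * (n : ℤ)) * Polynomial.X)

/-- properties of the integral power series `S` with `S ^ 2 = rad T`, `T` of size `2 j` -/
def IsRoot (N j : ℕ) (T : Finset ℕ) (S : PowerSeries ℤ) : Prop :=
  PowerSeries.coeff 0 S = 1 ∧ (∀ l, 1 ≤ l → Even (PowerSeries.coeff l S)) ∧
    (∀ l, |PowerSeries.coeff l S| ≤ 4 ^ j * (8 * (N : ℤ)) ^ l) ∧
    S ^ 2 = (rad T : PowerSeries ℤ)

/-- properties of the auxiliary polynomials `P`, `Q` -/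
def IsAux (N j m : ℕ) (S : PowerSeries ℤ) (P Q : Polynomial ℤ) : Prop :=
  ¬ (P = 0 ∧ Q = 0) ∧ P.natDegree ≤ m ∧ Q.natDegree ≤ m - j ∧
    (∀ l, |P.coeff l| ≤ (64 * (N : ℤ)) ^ (3 * m ^ 2)) ∧
    (∀ l, |Q.coeff l| ≤ (64 * (N : ℤ)) ^ (3 * m ^ 2)) ∧
    ∀ l, l ≤ 2 * m - j → PowerSeries.coeff l ((P : PowerSeries ℤ) - (Q : PowerSeries ℤ) * S) = 0

/-- Row BETA: the integral square root of `1 + 4 X`. -/
def BetaStmt : Prop :=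
  ∃ β : ℕ → ℤ, β 0 = 1 ∧ (∀ l, 1 ≤ l → Even (β l)) ∧ (∀ l, |β l| ≤ 4 ^ l) ∧
    (PowerSeries.mk β) ^ 2 = 1 + PowerSeries.C (4 : ℤ) * PowerSeries.X

/-- Row SROOT (from BETA). -/
def SrootStmt : Prop :=
  ∀ (N j : ℕ) (T : Finset ℕ), 1 ≤ N → T.card = 2 * j → (∀ n ∈ T, n < N) →
    ∃ S : PowerSeries ℤ, IsRoot N j T S

/-- Row AUX (Siegel's lemma). -/
def AuxStmt : Prop :=
  ∀ (N j m : ℕ) (S : PowerSeries ℤ), 1 ≤ N → 1 ≤ j → j ≤ m →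
    (∀ l, |PowerSeries.coeff l S| ≤ 4 ^ j * (8 * (N : ℤ)) ^ l) →
    ∃ P Q : Polynomial ℤ, IsAux N j m S P Q

/-- Row NONZ. -/
def NonzStmt : Prop :=
  ∀ (T : Finset ℕ) (P Q : Polynomial ℤ), 2 ≤ T.card → ¬ (P = 0 ∧ Q = 0) →
    P ^ 2 ≠ Q ^ 2 * rad T

/-- Row WNZ (from NONZ): the two values are not zero. -/
def WnzStmt : Prop :=
  ∀ (N j m b q Y : ℕ) (T : Finset ℕ) (S : PowerSeries ℤ) (P Q : Polynomial ℤ),
    1 ≤ N → 1 ≤ j → j ≤ m → T.card = 2 * j → (∀ n ∈ T, n < N) → IsRoot N j T S →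
    IsAux N j m S P Q → 0 < b → Nat.Coprime b q → (64 * N) ^ (9 * m ^ 2) < q →
    Y ^ 2 = ∏ n ∈ T, (b + 4 * n * q) →
    hom P m b q - Y * hom Q (m - j) b q ≠ 0 ∧ hom P m b q + Y * hom Q (m - j) b q ≠ 0

/-- Row PAD: divisibility by prime powers. -/
def PadStmt : Prop :=
  ∀ (N j m b q Y p e : ℕ) (ε : ℤ) (T : Finset ℕ) (S : PowerSeries ℤ) (P Q : Polynomial ℤ),
    1 ≤ N → 1 ≤ j → j ≤ m → T.card = 2 * j → IsRoot N j T S → IsAux N j m S P Q →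
    0 < b → Nat.Coprime b q → p.Prime → 1 ≤ e → p ^ e ∣ q → (ε = 1 ∨ ε = -1) →
    Y ^ 2 = ∏ n ∈ T, (b + 4 * n * q) → ((2 * p ^ e : ℕ) : ℤ) ∣ (Y : ℤ) - ε * (b : ℤ) ^ j →
    ((p ^ e : ℕ) : ℤ) ^ (2 * m - j + 1) ∣ hom P m b q - ε * Y * hom Q (m - j) b q

/-- Row SIZE: upper bounds for the two values. -/
def SizeStmt : Prop :=
  ∀ (N j m b q Y : ℕ) (T : Finset ℕ) (S : PowerSeries ℤ) (P Q : Polynomial ℤ),
    1 ≤ N → 1 ≤ j → j ≤ m → T.card = 2 * j → (∀ n ∈ T, n < N) → IsRoot N j T S →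
    IsAux N j m S P Q → 0 < b → 0 < q → Y ^ 2 = ∏ n ∈ T, (b + 4 * n * q) →
    |hom P m b q - Y * hom Q (m - j) b q| * (max b q : ℕ) ^ (m - j + 1) ≤
        (64 * (N : ℤ)) ^ (9 * m ^ 2) * (q : ℤ) ^ (2 * m - j + 1) ∧
      |hom P m b q + Y * hom Q (m - j) b q| ≤
        (64 * (N : ℤ)) ^ (9 * m ^ 2) * (max b q : ℕ) ^ m

/-- Row CORR (from SROOT, AUX, WNZ, PAD, SIZE). -/
def CorrStmt : Prop :=
  ∀ (N j m b q Y : ℕ) (T : Finset ℕ) (ε : ℕ → ℤ), 1 ≤ N → 1 ≤ j → j ≤ m → T.card = 2 * j →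
    (∀ n ∈ T, n < N) → 0 < b → Nat.Coprime b q → (64 * N) ^ (9 * m ^ 2) < q →
    Y ^ 2 = ∏ n ∈ T, (b + 4 * n * q) → (∀ p, ε p = 1 ∨ ε p = -1) →
    (∀ p ∈ q.primeFactors,
      ((2 * p ^ q.factorization p : ℕ) : ℤ) ∣ (Y : ℤ) - ε p * (b : ℤ) ^ j) →
    (∏ p ∈ q.primeFactors.filter (fun p => ε p = 1), p ^ q.factorization p) ^ (2 * m - j + 1) *
        (max b q) ^ (m - j + 1) ≤ (64 * N) ^ (9 * m ^ 2) * q ^ (2 * m - j + 1) ∧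
      (∏ p ∈ q.primeFactors.filter (fun p => ε p = -1), p ^ q.factorization p) ^
        (2 * m - j + 1) ≤ (64 * N) ^ (9 * m ^ 2) * (max b q) ^ m

/-- Row LOG (from CORR): the signs at the primes dividing `q` are almost uncorrelated. -/
def LogStmt : Prop :=
  ∀ k : ℕ, ∃ C : ℝ, 1 ≤ C ∧ ∀ (N j b q Y : ℕ) (T : Finset ℕ) (ε : ℕ → ℤ), 2 ≤ N → 1 ≤ j →
    j ≤ k → T.card = 2 * j → (∀ n ∈ T, n < N) → 0 < b → Nat.Coprime b q →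
    C * Real.log N ≤ Real.log q → b ≤ 4 * N ^ 2 * q ^ 2 →
    Y ^ 2 = ∏ n ∈ T, (b + 4 * n * q) → (∀ p, ε p = 1 ∨ ε p = -1) →
    (∀ p ∈ q.primeFactors,
      ((2 * p ^ q.factorization p : ℕ) : ℤ) ∣ (Y : ℤ) - ε p * (b : ℤ) ^ j) →
    |∑ p ∈ q.primeFactors, (q.factorization p * Real.log p) * (ε p : ℝ) +
        (Real.log (max b q : ℕ) - Real.log q)| ≤ C * √(Real.log q * Real.log N)

/-- Row SGN: the sign vectors. -/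
def SgnStmt : Prop :=
  ∀ (b q : ℕ) (S : Finset ℕ) (y : ℕ → ℕ), 0 < q → Nat.Coprime b q →
    (∀ n ∈ S, y n ^ 2 = b + 4 * n * q) →
    ∃ v : ℕ → ℕ → ℤ, (∀ n p, v n p = 1 ∨ v n p = -1) ∧
      ∀ T, T ⊆ S → ∀ j, T.card = 2 * j → ∀ p ∈ q.primeFactors,
        ((2 * p ^ q.factorization p : ℕ) : ℤ) ∣
          (∏ n ∈ T, (y n : ℤ)) - (∏ n ∈ T, v n p) * (b : ℤ) ^ j

/-- Row MOM: the second moment. -/
def MomStmt : Prop :=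
  ∀ (S P : Finset ℕ) (k : ℕ) (w : ℕ → ℝ) (v : ℕ → ℕ → ℝ) (lam E : ℝ),
    (∀ p ∈ P, 0 ≤ w p) → 0 ≤ lam → 0 ≤ E → (∀ n p, v n p = 1 ∨ v n p = -1) →
    (∀ T, T ⊆ S → T.Nonempty → Even T.card → T.card ≤ 2 * k →
      |∑ p ∈ P, w p * ∏ n ∈ T, v n p + lam| ≤ E) →
    (S.card.choose k : ℝ) * ∑ p ∈ P, w p ^ 2 ≤
      (∑ p ∈ P, w p + lam) ^ 2 + (S.card.choose k : ℝ) * E ^ 2

/-- Row CORE (from LOG, SGN, MOM). -/
def CoreStmt : Prop :=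
  ∀ k : ℕ, ∃ C : ℝ, 0 ≤ C ∧ ∀ (N b q : ℕ) (S : Finset ℕ) (y : ℕ → ℕ), 2 ≤ N → 0 < b → 0 < q →
    Nat.Coprime b q → (∀ n ∈ S, n < N) → (∀ n ∈ S, y n ^ 2 = b + 4 * n * q) →
    (S.card : ℝ) ^ k * ∑ p ∈ q.primeFactors, (q.factorization p * Real.log p) ^ 2 ≤
      C * (Real.log q ^ 2 + (S.card : ℝ) ^ k * Real.log q * Real.log N)

/-- Row FINAL (from CORE). -/
def FinalStmt : Prop :=
  ∀ k : ℕ, ∃ C : ℝ, ∀ N q a : ℕ, 2 ≤ N → 1 ≤ q → Nat.Coprime q a →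
    (((range N).filter (fun n => IsSquare (q * n + a))).card : ℝ) ^ k *
        ∑ p ∈ q.primeFactors, (q.factorization p * Real.log p) ^ 2 ≤
      C * (Real.log q ^ 2 +
        (((range N).filter (fun n => IsSquare (q * n + a))).card : ℝ) ^ k *
          Real.log q * Real.log N)

end Pool.Agent.Helper83.RU
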