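import Mathlib
import Pool.Agent.Helper83.RU.Stm

/-! # Row SIZE of the project RU (MP_b7477f_nt) -/

set_option autoImplicit false

namespace Pool.Agent.Helper83.RU.RSIZE

open Finset Pool.Agent.Helper83.RU

theorem abs_hom (F : Polynomial ℤ) (n : ℕ) (b q M H : ℤ) (hb : 0 ≤ b) (hq : 0 ≤ q) (hbM : b ≤ M)
    (hqM : q ≤ M) (hF : ∀ l, |F.coeff l| ≤ H) :
    |hom F n b q| ≤ ((n : ℤ) + 1) * H * M ^ n := by
  have hH : 0 ≤ H := (abs_nonneg _).trans (hF 0)
  have hM : 0 ≤ M := hb.trans hbM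
  unfold hom
  refine (Finset.abs_sum_le_sum_abs _ _).trans ?_
  have h1 : ∀ l ∈ range (n + 1), |F.coeff l * q ^ l * b ^ (n - l)| ≤ H * M ^ n := by
    intro l hl
    rw [mem_range] at hl
    rw [abs_mul, abs_mul, abs_of_nonneg (pow_nonneg hq l), abs_of_nonneg (pow_nonneg hb _)]
    have e : M ^ n = M ^ l * M ^ (n - l) := by rw [← pow_add]; congr 1; omega
    rw [e, mul_assoc]
    exact mul_le_mul (hF l) (mul_le_mul (pow_le_pow_left₀ hq hqM l) (pow_le_pow_left₀ hb hbM _)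
      (pow_nonneg hb _) (pow_nonneg hM _)) (mul_nonneg (pow_nonneg hq _) (pow_nonneg hb _)) hH
  refine (Finset.sum_le_sum h1).trans ?_
  rw [Finset.sum_const, card_range, nsmul_eq_mul]
  push_cast
  exact le_of_eq (by ring)

theorem two_mul_le (m : ℕ) (hm : 1 ≤ m) : 2 * (m + 1) ≤ 4 ^ m := by
  induction m, hm using Nat.le_induction with
  | base => norm_num
  | succ n hn ih => rw [pow_succ]; omega

theorem Ybound (N j b q Y M : ℕ) (T : Finset ℕ) (hN : 1 ≤ N) (hT : T.card = 2 * j)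
    (hn : ∀ n ∈ T, n < N) (hbM : b ≤ M) (hqM : q ≤ M) (hY : Y ^ 2 = ∏ n ∈ T, (b + 4 * n * q)) :
    Y ≤ (5 * N * M) ^ j := by
  have h1 : ∏ n ∈ T, (b + 4 * n * q) ≤ (5 * N * M) ^ (2 * j) := by
    rw [← hT]
    refine Finset.prod_le_pow_card _ _ _ fun n hnT => ?_
    have h2 := hn n hnT
    have h3 : 4 * n * q ≤ 4 * N * M := Nat.mul_le_mul (by omega) hqM
    have h4 : M ≤ N * M := Nat.le_mul_of_pos_left M hN
    calc b + 4 * n * q ≤ N * M + 4 * N * M := by omega
      _ = 5 * N * M := by ring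
  rw [← hY, mul_comm 2 j, pow_mul] at h1
  exact (Nat.pow_le_pow_iff_left (two_ne_zero)).1 h1

/-- the trivial bound -/
theorem triv (N j m b q Y : ℕ) (T : Finset ℕ) (P Q : Polynomial ℤ) (ε : ℤ) (hε : |ε| = 1)
    (hN : 1 ≤ N) (hj : 1 ≤ j) (hjm : j ≤ m) (hT : T.card = 2 * j) (hn : ∀ n ∈ T, n < N)
    (hP : ∀ l, |P.coeff l| ≤ (64 * (N : ℤ)) ^ (3 * m ^ 2))
    (hQ : ∀ l, |Q.coeff l| ≤ (64 * (N : ℤ)) ^ (3 * m ^ 2))
    (hY : Y ^ 2 = ∏ n ∈ T, (b + 4 * n * q)) :
    |hom P m b q + ε * (Y * hom Q (m - j) b q)| ≤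
      (64 * (N : ℤ)) ^ (3 * m ^ 2 + m) * ((max b q : ℕ) : ℤ) ^ m := by
  set M : ℕ := max b q with hM
  have hbM : b ≤ M := le_max_left _ _
  have hqM : q ≤ M := le_max_right _ _
  set H : ℤ := (64 * (N : ℤ)) ^ (3 * m ^ 2) with hH
  have hH0 : 0 ≤ H := by positivity
  have h1 := abs_hom P m b q M H (by positivity) (by positivity) (by exact_mod_cast hbM)
    (by exact_mod_cast hqM) hP
  have h2 := abs_hom Q (m - j) b q M H (by positivity) (by positivity) (by exact_mod_cast hbM)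
    (by exact_mod_cast hqM) hQ
  have h3 : (Y : ℤ) ≤ (5 * N * M) ^ j := by exact_mod_cast Ybound N j b q Y M T hN hT hn hbM hqM hY
  have hN' : (1 : ℤ) ≤ N := by exact_mod_cast hN
  have hM0 : (0 : ℤ) ≤ M := by positivity
  have h4 : |ε * (Y * hom Q (m - j) b q)| ≤ (5 * N * M) ^ j * (((m : ℤ) + 1) * H * M ^ (m - j)) := by
    rw [abs_mul, hε, one_mul, abs_mul, abs_of_nonneg (by positivity : (0 : ℤ) ≤ Y)]
    refine mul_le_mul h3 (h2.trans ?_) (abs_nonneg _) (by positivity)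
    refine mul_le_mul_of_nonneg_right (mul_le_mul_of_nonneg_right ?_ hH0) (by positivity)
    have : ((m - j : ℕ) : ℤ) ≤ m := by exact_mod_cast Nat.sub_le m j
    linarith
  have h5 : (5 * (N : ℤ) * M) ^ j * (((m : ℤ) + 1) * H * M ^ (m - j)) =
      (5 * (N : ℤ)) ^ j * (((m : ℤ) + 1) * H * M ^ m) := by
    have e : (M : ℤ) ^ m = M ^ j * M ^ (m - j) := by rw [← pow_add]; congr 1; omega
    rw [e, mul_pow]; ring
  rw [h5] at h4
  have h6 : (5 * (N : ℤ)) ^ j ≤ (5 * (N : ℤ)) ^ m := pow_le_pow_right₀ (by linarith) hjm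
  have h7 : (1 : ℤ) ≤ (5 * (N : ℤ)) ^ m := one_le_pow₀ (by linarith)
  have hX : 0 ≤ ((m : ℤ) + 1) * H * M ^ m := by positivity
  calc |hom P m b q + ε * (Y * hom Q (m - j) b q)|
      ≤ |hom P m b q| + |ε * (Y * hom Q (m - j) b q)| := abs_add_le _ _
    _ ≤ ((m : ℤ) + 1) * H * M ^ m + (5 * (N : ℤ)) ^ j * (((m : ℤ) + 1) * H * M ^ m) :=
        add_le_add h1 h4
    _ ≤ (5 * (N : ℤ)) ^ m * (((m : ℤ) + 1) * H * M ^ m) +
        (5 * (N : ℤ)) ^ m * (((m : ℤ) + 1) * H * M ^ m) :=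
        add_le_add (le_mul_of_one_le_left hX h7) (mul_le_mul_of_nonneg_right h6 hX)
    _ = ((2 * (m + 1) : ℕ) : ℤ) * (5 * (N : ℤ)) ^ m * H * M ^ m := by push_cast; ring
    _ ≤ ((4 ^ m : ℕ) : ℤ) * (5 * (N : ℤ)) ^ m * H * M ^ m := by
        have : ((2 * (m + 1) : ℕ) : ℤ) ≤ ((4 ^ m : ℕ) : ℤ) := by
          exact_mod_cast two_mul_le m (hj.trans hjm)
        gcongr
    _ = (20 * (N : ℤ)) ^ m * H * M ^ m := by
        push_cast
        rw [← mul_pow]; ring_nf
    _ ≤ (64 * (N : ℤ)) ^ m * H * M ^ m := by gcongr; norm_num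
    _ = (64 * (N : ℤ)) ^ (3 * m ^ 2 + m) * (M : ℤ) ^ m := by
        rw [hH, pow_add]; ring

/-! ### large `b` -/

/-- a polynomial divisible by `X ^ J`, of degree less than `2 J`, at a small point -/
theorem small_eval (F : Polynomial ℤ) (J : ℕ) (z c B : ℝ) (hz : 0 ≤ z) (hc : 0 ≤ c) (hcz : c * z ≤ 1)
    (hB : 0 ≤ B) (hd : F.natDegree < 2 * J) (h0 : ∀ l, l < J → F.coeff l = 0)
    (hF : ∀ l, J ≤ l → l < 2 * J → |(F.coeff l : ℝ)| ≤ B * c ^ l) :
    |Polynomial.aeval z F| ≤ J * B * (c * z) ^ J := by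
  rw [Polynomial.aeval_eq_sum_range' hd]
  have e1 : ∑ i ∈ range (2 * J), F.coeff i • z ^ i = ∑ i ∈ Ico J (2 * J), F.coeff i • z ^ i := by
    rw [range_eq_Ico, ← Finset.sum_Ico_consecutive _ (Nat.zero_le J) (by omega : J ≤ 2 * J)]
    rw [Finset.sum_eq_zero (s := Ico 0 J), zero_add]
    intro i hi
    rw [mem_Ico] at hi
    rw [h0 i hi.2, zero_smul]
  rw [e1]
  refine (Finset.abs_sum_le_sum_abs _ _).trans ?_
  have h1 : ∀ i ∈ Ico J (2 * J), |F.coeff i • z ^ i| ≤ B * (c * z) ^ J := by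
    intro i hi
    rw [mem_Ico] at hi
    rw [zsmul_eq_mul, abs_mul, abs_of_nonneg (pow_nonneg hz i)]
    have h2 := mul_le_mul_of_nonneg_right (hF i hi.1 hi.2) (pow_nonneg hz i)
    refine h2.trans ?_
    rw [mul_assoc, ← mul_pow]
    exact mul_le_mul_of_nonneg_left (pow_le_pow_of_le_one (mul_nonneg hc hz) hcz hi.1) hB
  refine (Finset.sum_le_sum h1).trans ?_
  rw [Finset.sum_const, Nat.card_Ico, nsmul_eq_mul]
  have : ((2 * J - J : ℕ) : ℝ) = J := by
    congr 1; omega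
  rw [this, mul_assoc]

theorem geo (u : ℝ) (h0 : 0 ≤ u) (h1 : u ≤ 1 / 2) (n : ℕ) :
    ∑ l ∈ range n, u ^ (l + 1) ≤ 2 * u := by
  have h : ∑ l ∈ range n, u ^ (l + 1) ≤ 2 * u - 2 * u ^ (n + 1) := by
    induction n with
    | zero => simp
    | succ n ih =>
      rw [sum_range_succ]
      have h2 : u ^ (n + 1 + 1) ≤ 1 / 2 * u ^ (n + 1) := by
        rw [pow_succ u (n + 1)]
        have := pow_nonneg h0 (n + 1)
        nlinarith
      linarith
  have := pow_nonneg h0 (n + 1)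
  linarith

theorem large (N j m b q Y : ℕ) (T : Finset ℕ) (S : PowerSeries ℤ) (P Q : Polynomial ℤ)
    (hN : 1 ≤ N) (hj : 1 ≤ j) (hjm : j ≤ m) (hT : T.card = 2 * j)
    (hS : IsRoot N j T S) (hA : IsAux N j m S P Q) (hb : 0 < b) (hq : 0 < q)
    (hY : Y ^ 2 = ∏ n ∈ T, (b + 4 * n * q)) (hbig : 64 * 4 ^ j * N * q < b) :
    |hom P m b q - Y * hom Q (m - j) b q| * (b : ℤ) ^ (m - j + 1) ≤
        (64 * (N : ℤ)) ^ (9 * m ^ 2) * (q : ℤ) ^ (2 * m - j + 1) := by
  obtain ⟨hS0, _, hSb, hSR⟩ := hS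
  obtain ⟨_, hPd, hQd, hPb, hQb, hPQ⟩ := hA
  set J : ℕ := 2 * m - j + 1 with hJ
  have hJm : m < J := by omega
  have hJ2 : J ≤ 2 * m := by omega
  have hJj : j < J := by omega
  set A : Polynomial ℤ := PowerSeries.trunc J S with hAdef
  have hAc : ∀ l, A.coeff l = if l < J then PowerSeries.coeff l S else 0 := fun l => by
    rw [hAdef, PowerSeries.coeff_trunc]
  have hAl : ∀ l, l < J → A.coeff l = PowerSeries.coeff l S := fun l hl => by
    rw [hAc, if_pos hl]
  have hAb : ∀ l, |A.coeff l| ≤ 4 ^ j * (8 * (N : ℤ)) ^ l := by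
    intro l
    rw [hAc]
    split_ifs
    · exact hSb l
    · rw [abs_zero]; positivity
  have hAd : A.natDegree ≤ J - 1 := by
    rw [Polynomial.natDegree_le_iff_coeff_eq_zero]
    intro l hl
    rw [hAc, if_neg (by omega)]
  set H : ℤ := (64 * (N : ℤ)) ^ (3 * m ^ 2) with hH
  have hH0 : 0 ≤ H := by positivity
  have hN' : (1 : ℤ) ≤ N := by exact_mod_cast hN
  -- products
  have c1 : ∀ l, l < J → (Q * A).coeff l = PowerSeries.coeff l ((Q : PowerSeries ℤ) * S) := by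
    intro l hl
    rw [Polynomial.coeff_mul, PowerSeries.coeff_mul]
    refine Finset.sum_congr rfl fun x hx => ?_
    rw [HasAntidiagonal.mem_antidiagonal] at hx
    rw [Polynomial.coeff_coe, hAl x.2 (by omega)]
  have c2 : ∀ l, l < J → (A * A).coeff l = PowerSeries.coeff l (S ^ 2) := by
    intro l hl
    rw [Polynomial.coeff_mul, sq, PowerSeries.coeff_mul]
    refine Finset.sum_congr rfl fun x hx => ?_
    rw [HasAntidiagonal.mem_antidiagonal] at hx
    rw [hAl x.1 (by omega), hAl x.2 (by omega)]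
  have c3 : ∀ l, (rad T).coeff l = PowerSeries.coeff l (S ^ 2) := by
    intro l
    rw [hSR, Polynomial.coeff_coe]
  -- bounds
  have pw : ∀ i i' l : ℕ, i + i' = l → (8 * (N : ℤ)) ^ i' ≤ (8 * (N : ℤ)) ^ l := by
    intro i i' l h
    exact pow_le_pow_right₀ (by linarith) (by omega)
  have b1 : ∀ l, |(Q * A).coeff l| ≤ ((l : ℤ) + 1) * (H * 4 ^ j * (8 * (N : ℤ)) ^ l) := by
    intro l
    rw [Polynomial.coeff_mul]
    refine (Finset.abs_sum_le_sum_abs _ _).trans ?_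
    have h1 : ∀ x ∈ antidiagonal l, |Q.coeff x.1 * A.coeff x.2| ≤ H * 4 ^ j * (8 * (N : ℤ)) ^ l := by
      intro x hx
      rw [HasAntidiagonal.mem_antidiagonal] at hx
      rw [abs_mul, mul_assoc]
      refine mul_le_mul (hQb x.1) ((hAb x.2).trans ?_) (abs_nonneg _) hH0
      exact mul_le_mul_of_nonneg_left (pw _ _ _ hx) (by positivity)
    refine (Finset.sum_le_sum h1).trans ?_
    rw [Finset.sum_const, Finset.Nat.card_antidiagonal, nsmul_eq_mul]
    push_cast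
    exact le_rfl
  have sqb : ∀ (f : ℕ → ℤ), (∀ l, |f l| ≤ 4 ^ j * (8 * (N : ℤ)) ^ l) → ∀ l,
      |∑ x ∈ antidiagonal l, f x.1 * f x.2| ≤ ((l : ℤ) + 1) * (16 ^ j * (8 * (N : ℤ)) ^ l) := by
    intro f hf l
    refine (Finset.abs_sum_le_sum_abs _ _).trans ?_
    have h1 : ∀ x ∈ antidiagonal l, |f x.1 * f x.2| ≤ 16 ^ j * (8 * (N : ℤ)) ^ l := by
      intro x hx
      rw [HasAntidiagonal.mem_antidiagonal] at hx
      rw [abs_mul]
      refine (mul_le_mul (hf x.1) (hf x.2) (abs_nonneg _) (by positivity)).trans (le_of_eq ?_)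
      have e16 : (16 : ℤ) ^ j = 4 ^ j * 4 ^ j := by rw [← mul_pow]; norm_num
      rw [← hx, pow_add, e16]
      ring
    refine (Finset.sum_le_sum h1).trans ?_
    rw [Finset.sum_const, Finset.Nat.card_antidiagonal, nsmul_eq_mul]
    push_cast
    exact le_rfl
  have b2 : ∀ l, |(A * A).coeff l| ≤ ((l : ℤ) + 1) * (16 ^ j * (8 * (N : ℤ)) ^ l) := by
    intro l
    rw [Polynomial.coeff_mul]
    exact sqb (fun i => A.coeff i) hAb l
  have b3 : ∀ l, |(rad T).coeff l| ≤ ((l : ℤ) + 1) * (16 ^ j * (8 * (N : ℤ)) ^ l) := by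
    intro l
    rw [c3, sq, PowerSeries.coeff_mul]
    exact sqb (fun i => PowerSeries.coeff i S) hSb l
  have hRd : (rad T).natDegree ≤ 2 * j := by
    unfold rad
    refine (Polynomial.natDegree_prod_le _ _).trans ?_
    rw [← hT, Finset.card_eq_sum_ones]
    refine Finset.sum_le_sum fun n _ => ?_
    compute_degree
  -- the point
  have hbR : (0 : ℝ) < b := by exact_mod_cast hb
  have hqR : (0 : ℝ) < q := by exact_mod_cast hq
  set z : ℝ := (q : ℝ) / b with hz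
  have hz0 : 0 < z := div_pos hqR hbR
  have hNR : (1 : ℝ) ≤ N := by exact_mod_cast hN
  set u : ℝ := 8 * N * z with hu
  have hu0 : 0 < u := by positivity
  have h4j : (1 : ℝ) ≤ 4 ^ j := one_le_pow₀ (by norm_num)
  have hu1 : 4 ^ j * u ≤ 1 / 8 := by
    have h1 : (64 * 4 ^ j * N * q : ℝ) < b := by exact_mod_cast hbig
    rw [hu, hz]
    rw [show (4 : ℝ) ^ j * (8 * N * (q / b)) = (64 * 4 ^ j * N * q) / b * (1 / 8) by ring]
    have : (64 * 4 ^ j * N * q : ℝ) / b ≤ 1 := (div_le_one hbR).2 h1.le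
    linarith
  have hu2 : u ≤ 1 / 8 := by nlinarith
  have hz1 : z ≤ 1 := by
    have : z ≤ u := by rw [hu]; nlinarith
    linarith
  -- first polynomial
  have F1 : |Polynomial.aeval z (P - Q * A)| ≤ J * (2 * J * (H * 4 ^ j) : ℝ) * u ^ J := by
    have := small_eval (P - Q * A) J z (8 * N) (2 * J * ((H : ℤ) * 4 ^ j)) hz0.le (by positivity)
      (by rw [← hu]; linarith) (by positivity) ?_ ?_ ?_
    · exact this
    · refine lt_of_le_of_lt (Polynomial.natDegree_sub_le _ _) (max_lt (by omega) ?_)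
      refine lt_of_le_of_lt Polynomial.natDegree_mul_le ?_
      omega
    · intro l hl
      have h1 := hPQ l (by omega)
      rw [map_sub, Polynomial.coeff_coe] at h1
      rw [Polynomial.coeff_sub, c1 l hl]
      exact h1
    · intro l hl hl2
      have h1 : P.coeff l = 0 := Polynomial.coeff_eq_zero_of_natDegree_lt (by omega)
      rw [Polynomial.coeff_sub, h1, zero_sub]
      have h2 : |((-(Q * A).coeff l : ℤ) : ℝ)| = ((|(Q * A).coeff l| : ℤ) : ℝ) := by
        rw [Int.cast_abs, Int.cast_neg, abs_neg]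
      rw [h2]
      have h3 : ((|(Q * A).coeff l| : ℤ) : ℝ) ≤
          (((((l : ℤ) + 1) * (H * 4 ^ j * (8 * (N : ℤ)) ^ l) : ℤ)) : ℝ) := by
        exact_mod_cast b1 l
      refine h3.trans ?_
      push_cast
      have h4 : (l : ℝ) + 1 ≤ 2 * J := by exact_mod_cast hl2
      have h5 : (0 : ℝ) ≤ (H : ℝ) * 4 ^ j * (8 * N) ^ l := by
        have : (0 : ℝ) ≤ H := by exact_mod_cast hH0
        positivity
      nlinarith [mul_le_mul_of_nonneg_right h4 h5]
  have F2 : |Polynomial.aeval z (A * A - rad T)| ≤ J * (4 * J * 16 ^ j : ℝ) * u ^ J := by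
    have := small_eval (A * A - rad T) J z (8 * N) (4 * J * 16 ^ j) hz0.le (by positivity)
      (by rw [← hu]; linarith) (by positivity) ?_ ?_ ?_
    · exact this
    · refine lt_of_le_of_lt (Polynomial.natDegree_sub_le _ _) (max_lt ?_ (by omega))
      refine lt_of_le_of_lt Polynomial.natDegree_mul_le ?_
      omega
    · intro l hl
      rw [Polynomial.coeff_sub, c2 l hl, c3, sub_self]
    · intro l hl hl2
      have h3 : |(((A * A - rad T).coeff l : ℤ) : ℝ)| ≤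
          (((((l : ℤ) + 1) * (16 ^ j * (8 * (N : ℤ)) ^ l) +
            ((l : ℤ) + 1) * (16 ^ j * (8 * (N : ℤ)) ^ l) : ℤ)) : ℝ) := by
        rw [← Int.cast_abs, Polynomial.coeff_sub]
        exact_mod_cast (abs_sub _ _).trans (add_le_add (b2 l) (b3 l))
      refine h3.trans ?_
      push_cast
      have h4 : (l : ℝ) + 1 ≤ 2 * J := by exact_mod_cast hl2
      have h5 : (0 : ℝ) ≤ 16 ^ j * (8 * (N : ℝ)) ^ l := by positivity
      nlinarith [mul_le_mul_of_nonneg_right h4 h5]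
  -- the value of `A`
  have hA1 : 0 ≤ Polynomial.aeval z A := by
    have hd : A.natDegree < (J - 1) + 1 := by omega
    rw [Polynomial.aeval_eq_sum_range' hd, Finset.sum_range_succ']
    have h0 : A.coeff 0 = 1 := by rw [hAl 0 (by omega)]; exact hS0
    rw [h0]
    simp only [pow_zero, one_smul]
    have h1 : |∑ l ∈ range (J - 1), A.coeff (l + 1) • z ^ (l + 1)| ≤
        ∑ l ∈ range (J - 1), 4 ^ j * u ^ (l + 1) := by
      refine (Finset.abs_sum_le_sum_abs _ _).trans (Finset.sum_le_sum fun l _ => ?_)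
      rw [zsmul_eq_mul, abs_mul, abs_of_nonneg (pow_nonneg hz0.le _)]
      have h2 : |((A.coeff (l + 1) : ℤ) : ℝ)| ≤ 4 ^ j * (8 * (N : ℝ)) ^ (l + 1) := by
        rw [← Int.cast_abs]
        exact_mod_cast hAb (l + 1)
      refine (mul_le_mul_of_nonneg_right h2 (pow_nonneg hz0.le _)).trans (le_of_eq ?_)
      rw [hu, mul_pow (8 * (N : ℝ)) z]; ring
    rw [← Finset.mul_sum] at h1
    have h2 := mul_le_mul_of_nonneg_left (geo u hu0.le (by linarith) (J - 1))
      (by positivity : (0 : ℝ) ≤ 4 ^ j)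
    have h3 := neg_le_of_abs_le h1
    nlinarith
  -- the root
  set ρ : ℝ := (Y : ℝ) / b ^ j with hρ
  have hR : Polynomial.aeval z (rad T) = ∏ n ∈ T, (1 + 4 * (n : ℝ) * z) := by
    unfold rad
    rw [map_prod]
    refine Finset.prod_congr rfl fun n _ => ?_
    rw [map_add, map_one, map_mul, Polynomial.aeval_C, Polynomial.aeval_X]
    simp only [algebraMap_int_eq, eq_intCast]
    push_cast
    ring
  have hρ2 : ρ ^ 2 = Polynomial.aeval z (rad T) := by
    rw [hR, hρ, div_pow, ← pow_mul, mul_comm j 2, ← hT]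
    have h1 : (Y : ℝ) ^ 2 = ∏ n ∈ T, ((b : ℝ) + 4 * n * q) := by exact_mod_cast hY
    rw [h1, ← Finset.prod_const, ← Finset.prod_div_distrib]
    refine Finset.prod_congr rfl fun n _ => ?_
    rw [hz]
    field_simp
  have hρ0 : 0 ≤ ρ := by positivity
  have hρ1 : 1 ≤ ρ := by
    have h1 : 1 ≤ ρ ^ 2 := by
      rw [hρ2, hR]
      calc (1 : ℝ) = ∏ n ∈ T, (1 : ℝ) := by simp
        _ ≤ ∏ n ∈ T, (1 + 4 * (n : ℝ) * z) := by
          refine Finset.prod_le_prod (fun _ _ => zero_le_one) fun n _ => ?_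
          have : 0 ≤ 4 * (n : ℝ) * z := by positivity
          linarith
    nlinarith
  have hAρ : |Polynomial.aeval z A - ρ| ≤ J * (4 * J * 16 ^ j : ℝ) * u ^ J := by
    refine le_trans ?_ F2
    have e : Polynomial.aeval z (A * A - rad T) =
        (Polynomial.aeval z A - ρ) * (Polynomial.aeval z A + ρ) := by
      rw [map_sub, map_mul, ← hρ2]; ring
    rw [e, abs_mul]
    refine le_mul_of_one_le_right (abs_nonneg _) ?_
    rw [abs_of_nonneg (by linarith)]
    linarith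
  -- the value of `Q`
  have hQv : |Polynomial.aeval z Q| ≤ m * (H : ℝ) := by
    have hd : Q.natDegree < m - j + 1 := by omega
    rw [Polynomial.aeval_eq_sum_range' hd]
    refine (Finset.abs_sum_le_sum_abs _ _).trans ?_
    have h1 : ∀ i ∈ range (m - j + 1), |Q.coeff i • z ^ i| ≤ (H : ℝ) := by
      intro i _
      rw [zsmul_eq_mul, abs_mul, abs_of_nonneg (pow_nonneg hz0.le i)]
      have h2 : |((Q.coeff i : ℤ) : ℝ)| ≤ (H : ℝ) := by
        rw [← Int.cast_abs]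
        exact_mod_cast hQb i
      have h3 : z ^ i ≤ 1 := pow_le_one₀ hz0.le hz1
      calc |((Q.coeff i : ℤ) : ℝ)| * z ^ i ≤ H * 1 :=
            mul_le_mul h2 h3 (pow_nonneg hz0.le i) (by exact_mod_cast hH0)
        _ = H := mul_one _
    refine (Finset.sum_le_sum h1).trans ?_
    rw [Finset.sum_const, card_range, nsmul_eq_mul]
    refine mul_le_mul_of_nonneg_right ?_ (by exact_mod_cast hH0)
    have : m - j + 1 ≤ m := by omega
    exact_mod_cast this
  -- the homogenized values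
  have hhom : ∀ (F : Polynomial ℤ) (n : ℕ), F.natDegree ≤ n →
      ((hom F n b q : ℤ) : ℝ) = (b : ℝ) ^ n * Polynomial.aeval z F := by
    intro F n hn
    rw [Polynomial.aeval_eq_sum_range' (Nat.lt_succ_of_le hn)]
    unfold hom
    push_cast
    rw [Finset.mul_sum]
    refine Finset.sum_congr rfl fun l hl => ?_
    have hl' : l ≤ n := Nat.lt_succ_iff.1 (mem_range.1 hl)
    have e : (b : ℝ) ^ n = b ^ l * b ^ (n - l) := by rw [← pow_add]; congr 1; omega
    rw [zsmul_eq_mul, hz, div_pow, e]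
    field_simp
  have hHR : (0 : ℝ) ≤ H := by exact_mod_cast hH0
  have hW : (((hom P m b q - Y * hom Q (m - j) b q : ℤ)) : ℝ) =
      (b : ℝ) ^ m * (Polynomial.aeval z (P - Q * A) +
        Polynomial.aeval z Q * (Polynomial.aeval z A - ρ)) := by
    push_cast
    rw [hhom P m hPd, hhom Q (m - j) hQd, map_sub, map_mul]
    have e : (b : ℝ) ^ m = b ^ (m - j) * b ^ j := by rw [← pow_add]; congr 1; omega
    have e2 : (Y : ℝ) = b ^ j * ρ := by rw [hρ]; field_simp
    rw [e2, e]; ring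
  have hJR : (J : ℝ) ≤ 2 * m := by exact_mod_cast hJ2
  have hmR : (1 : ℝ) ≤ m := by exact_mod_cast hj.trans hjm
  have hin : |Polynomial.aeval z (P - Q * A) + Polynomial.aeval z Q * (Polynomial.aeval z A - ρ)| ≤
      24 * m ^ 3 * 16 ^ m * H * u ^ J := by
    have hup : 0 ≤ u ^ J := pow_nonneg hu0.le J
    have t1 : |Polynomial.aeval z Q * (Polynomial.aeval z A - ρ)| ≤
        m * H * (J * (4 * J * 16 ^ j) * u ^ J) := by
      rw [abs_mul]
      exact mul_le_mul hQv hAρ (abs_nonneg _) (by positivity)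
    have t2 : (4 : ℝ) ^ j ≤ 16 ^ m := by
      calc (4 : ℝ) ^ j ≤ 4 ^ m := pow_le_pow_right₀ (by norm_num) hjm
        _ ≤ 16 ^ m := pow_le_pow_left₀ (by norm_num) (by norm_num) m
    have t3 : (16 : ℝ) ^ j ≤ 16 ^ m := pow_le_pow_right₀ (by norm_num) hjm
    have t4 : (J : ℝ) ^ 2 ≤ 4 * m ^ 2 := by nlinarith [Nat.cast_nonneg (α := ℝ) J]
    have t5 : (0 : ℝ) ≤ 16 ^ m * H * u ^ J := by positivity
    calc |Polynomial.aeval z (P - Q * A) + Polynomial.aeval z Q * (Polynomial.aeval z A - ρ)|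
        ≤ J * (2 * J * (H * 4 ^ j) : ℝ) * u ^ J + m * H * (J * (4 * J * 16 ^ j) * u ^ J) :=
          (abs_add_le _ _).trans (add_le_add F1 t1)
      _ = (J : ℝ) ^ 2 * (2 * (4 ^ j * (H * u ^ J)) + 4 * m * (16 ^ j * (H * u ^ J))) := by ring
      _ ≤ (J : ℝ) ^ 2 * (2 * (16 ^ m * (H * u ^ J)) + 4 * m * (16 ^ m * (H * u ^ J))) := by
          have hHu : 0 ≤ (H : ℝ) * u ^ J := by positivity
          gcongr
      _ = (J : ℝ) ^ 2 * ((2 + 4 * m) * (16 ^ m * H * u ^ J)) := by ring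
      _ ≤ (4 * (m : ℝ) ^ 2) * ((6 * m) * (16 ^ m * H * u ^ J)) := by
          refine mul_le_mul t4 (mul_le_mul_of_nonneg_right (by linarith) t5) (by positivity)
            (by positivity)
      _ = 24 * m ^ 3 * 16 ^ m * H * u ^ J := by ring
  -- conclusion in the reals
  have hfin : (|((hom P m b q - Y * hom Q (m - j) b q : ℤ) : ℝ)|) * (b : ℝ) ^ (m - j + 1) ≤
      (64 * (N : ℝ)) ^ (9 * m ^ 2) * (q : ℝ) ^ J := by
    rw [hW, abs_mul, abs_of_nonneg (by positivity : (0 : ℝ) ≤ (b : ℝ) ^ m)]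
    have eJ : (b : ℝ) ^ J = b ^ m * b ^ (m - j + 1) := by rw [← pow_add]; congr 1; omega
    have hz' : u ^ J * (b : ℝ) ^ J = (8 * N) ^ J * q ^ J := by
      rw [← mul_pow, ← mul_pow, hu, hz]; congr 1; field_simp
    have hm3 : (m : ℝ) ^ 3 ≤ 8 ^ m := by
      have h1 : (m : ℝ) ≤ 2 ^ m := by exact_mod_cast Nat.lt_two_pow_self.le
      calc (m : ℝ) ^ 3 ≤ (2 ^ m) ^ 3 := pow_le_pow_left₀ (by positivity) h1 3
        _ = 8 ^ m := by rw [← pow_mul, mul_comm m 3, pow_mul]; norm_num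
    have h8 : (8 * (N : ℝ)) ^ J ≤ (8 * (N : ℝ)) ^ (2 * m) := pow_le_pow_right₀ (by linarith) hJ2
    have hK : (1 : ℝ) ≤ 64 * N := by linarith
    have hexp : (64 * (N : ℝ)) ^ (3 * m) * (64 * (N : ℝ)) ^ (3 * m ^ 2) ≤
        (64 * (N : ℝ)) ^ (9 * m ^ 2) := by
      rw [← pow_add]
      refine pow_le_pow_right₀ hK ?_
      have : m ≤ m ^ 2 := Nat.le_self_pow (by norm_num) m
      omega
    have hnum : 24 * 8 ^ m * 16 ^ m * (8 * (N : ℝ)) ^ (2 * m) ≤ (64 * (N : ℝ)) ^ (3 * m) := by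
      have h1 : (24 : ℝ) ≤ 24 ^ m := le_self_pow₀ (by norm_num) (by omega)
      have e1 : (24 : ℝ) ^ m * 8 ^ m * 16 ^ m * (8 * (N : ℝ)) ^ (2 * m) = (196608 * N ^ 2) ^ m := by
        rw [pow_mul, ← mul_pow, ← mul_pow, ← mul_pow]; congr 1; ring
      calc 24 * 8 ^ m * 16 ^ m * (8 * (N : ℝ)) ^ (2 * m)
          ≤ 24 ^ m * 8 ^ m * 16 ^ m * (8 * (N : ℝ)) ^ (2 * m) := by gcongr
        _ = (196608 * (N : ℝ) ^ 2) ^ m := e1
        _ ≤ ((64 * (N : ℝ)) ^ 3) ^ m := by
            refine pow_le_pow_left₀ (by positivity) ?_ m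
            have : (N : ℝ) ^ 2 ≤ N ^ 3 := pow_le_pow_right₀ hNR (by norm_num)
            nlinarith [pow_nonneg (by linarith : (0:ℝ) ≤ N) 3]
        _ = (64 * (N : ℝ)) ^ (3 * m) := by rw [← pow_mul]
    have hHc : (H : ℝ) = (64 * (N : ℝ)) ^ (3 * m ^ 2) := by rw [hH]; push_cast; rfl
    have hqJ : (0 : ℝ) ≤ (q : ℝ) ^ J := by positivity
    set E : ℝ := |Polynomial.aeval z (P - Q * A) + Polynomial.aeval z Q * (Polynomial.aeval z A - ρ)| with hE
    calc (b : ℝ) ^ m * E * b ^ (m - j + 1) = b ^ J * E := by rw [eJ]; ring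
      _ ≤ b ^ J * (24 * m ^ 3 * 16 ^ m * H * u ^ J) :=
          mul_le_mul_of_nonneg_left hin (by positivity)
      _ = (24 * m ^ 3 * 16 ^ m * H) * (u ^ J * b ^ J) := by ring
      _ = (24 * m ^ 3 * 16 ^ m * H) * ((8 * N) ^ J * q ^ J) := by rw [hz']
      _ ≤ (24 * 8 ^ m * 16 ^ m * H) * ((8 * N) ^ (2 * m) * q ^ J) := by
          gcongr
      _ = (24 * 8 ^ m * 16 ^ m * (8 * (N : ℝ)) ^ (2 * m)) * H * q ^ J := by ring
      _ ≤ (64 * (N : ℝ)) ^ (3 * m) * H * q ^ J := by gcongr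
      _ ≤ (64 * (N : ℝ)) ^ (9 * m ^ 2) * q ^ J := by
          rw [hHc]
          exact mul_le_mul_of_nonneg_right hexp hqJ
  exact_mod_cast hfin

theorem row : SizeStmt := by
  intro N j m b q Y T S P Q hN hj hjm hT hn hS hA hb hq hY
  have hA' := hA
  obtain ⟨_, _, _, hPb, hQb, _⟩ := hA'
  have hN' : (1 : ℤ) ≤ N := by exact_mod_cast hN
  have hK : (1 : ℤ) ≤ 64 * N := by linarith
  have hmm : m ≤ m ^ 2 := Nat.le_self_pow (by norm_num) m
  constructor
  · by_cases hbig : 64 * 4 ^ j * N * q < b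
    · have hbq : max b q = b := by
        refine max_eq_left ?_
        have : q ≤ 64 * 4 ^ j * N * q := Nat.le_mul_of_pos_left q (by positivity)
        omega
      rw [hbq]
      exact large N j m b q Y T S P Q hN hj hjm hT hS hA hb hq hY hbig
    · have h1 := triv N j m b q Y T P Q (-1) (by norm_num) hN hj hjm hT hn hPb hQb hY
      rw [show hom P m b q + (-1) * (Y * hom Q (m - j) b q) =
        hom P m b q - Y * hom Q (m - j) b q by ring] at h1
      set M : ℕ := max b q with hM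
      have hMle : M ≤ 4 ^ j * (64 * N) * q := by
        refine max_le (by nlinarith [not_lt.1 hbig]) ?_
        exact Nat.le_mul_of_pos_left q (by positivity)
      have hMz : (M : ℤ) ≤ 4 ^ j * (64 * N) * q := by exact_mod_cast hMle
      have hM0 : (0 : ℤ) ≤ M := by positivity
      have h2 : (M : ℤ) ^ (2 * m - j + 1) ≤ (64 * (N : ℤ)) ^ (m ^ 2 + 2 * m) * q ^ (2 * m - j + 1) := by
        have h3 := pow_le_pow_left₀ hM0 hMz (2 * m - j + 1)
        refine h3.trans ?_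
        rw [mul_pow, mul_pow]
        refine mul_le_mul_of_nonneg_right ?_ (by positivity)
        have h4 : ((4 : ℤ) ^ j) ^ (2 * m - j + 1) ≤ (64 * (N : ℤ)) ^ (m ^ 2) := by
          calc ((4 : ℤ) ^ j) ^ (2 * m - j + 1) = 4 ^ (j * (2 * m - j + 1)) := by rw [pow_mul]
            _ ≤ 4 ^ (m * (2 * m)) := pow_le_pow_right₀ (by norm_num)
                (Nat.mul_le_mul hjm (by omega))
            _ = 16 ^ (m ^ 2) := by
                rw [show m * (2 * m) = 2 * m ^ 2 by ring, pow_mul]; norm_num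
            _ ≤ (64 * (N : ℤ)) ^ (m ^ 2) := pow_le_pow_left₀ (by norm_num) (by linarith) _
        have h5 : (64 * (N : ℤ)) ^ (2 * m - j + 1) ≤ (64 * (N : ℤ)) ^ (2 * m) :=
          pow_le_pow_right₀ hK (by omega)
        rw [pow_add (64 * (N : ℤ)) (m ^ 2) (2 * m)]
        exact mul_le_mul h4 h5 (by positivity) (by positivity)
      have h6 : |hom P m b q - Y * hom Q (m - j) b q| * (M : ℤ) ^ (m - j + 1) ≤
          (64 * (N : ℤ)) ^ (3 * m ^ 2 + m) * (M : ℤ) ^ (2 * m - j + 1) := by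
        have e : (M : ℤ) ^ (2 * m - j + 1) = M ^ m * M ^ (m - j + 1) := by
          rw [← pow_add]; congr 1; omega
        rw [e, ← mul_assoc]
        exact mul_le_mul_of_nonneg_right h1 (by positivity)
      refine h6.trans ((mul_le_mul_of_nonneg_left h2 (by positivity)).trans ?_)
      rw [← mul_assoc, ← pow_add]
      refine mul_le_mul_of_nonneg_right (pow_le_pow_right₀ hK ?_) (by positivity)
      omega
  · have h1 := triv N j m b q Y T P Q 1 (by norm_num) hN hj hjm hT hn hPb hQb hY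
    rw [one_mul] at h1
    refine h1.trans (mul_le_mul_of_nonneg_right (pow_le_pow_right₀ hK ?_) (by positivity))
    omega

end Pool.Agent.Helper83.RU.RSIZE
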