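import Pool.Agent.Helper83.RU.Stm

/-! Row SROOT (helper46). -/

set_option autoImplicit false

namespace Pool.Agent.Helper83.RU.RSROOT

open Finset

theorem geo (l : ℕ) : ∑ i ∈ range (l + 1), (2 : ℤ) ^ i ≤ 2 ^ (l + 1) := by
  have h : ∀ l : ℕ, ∑ i ∈ range (l + 1), (2 : ℤ) ^ i = 2 ^ (l + 1) - 1 := by
    intro l
    induction l with
    | zero => simp
    | succ l ih =>
      rw [Finset.sum_range_succ, ih]
      ring
  rw [h l]
  linarith

theorem mul_even (f g : PowerSeries ℤ) (hf : ∀ l, 1 ≤ l → Even (PowerSeries.coeff l f))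
    (hg : ∀ l, 1 ≤ l → Even (PowerSeries.coeff l g)) (l : ℕ) (hl : 1 ≤ l) :
    Even (PowerSeries.coeff l (f * g)) := by
  rw [PowerSeries.coeff_mul, even_iff_two_dvd]
  refine Finset.dvd_sum ?_
  intro p hp
  have hp' : p.1 + p.2 = l := by simpa using hp
  rw [← even_iff_two_dvd]
  by_cases h : 1 ≤ p.1
  · exact (hf _ h).mul_right _
  · exact (hg _ (by omega)).mul_left _

theorem mul_bd (N t : ℕ) (f g : PowerSeries ℤ)
    (hf : ∀ l, |PowerSeries.coeff l f| ≤ 2 ^ t * (8 * (N : ℤ)) ^ l)
    (hg : ∀ l, |PowerSeries.coeff l g| ≤ (4 * (N : ℤ)) ^ l) (l : ℕ) :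
    |PowerSeries.coeff l (f * g)| ≤ 2 ^ (t + 1) * (8 * (N : ℤ)) ^ l := by
  have hN : (0 : ℤ) ≤ N := by positivity
  rw [PowerSeries.coeff_mul,
    Finset.Nat.sum_antidiagonal_eq_sum_range_succ
      (fun i j => PowerSeries.coeff i f * PowerSeries.coeff j g) l]
  refine (Finset.abs_sum_le_sum_abs _ _).trans ?_
  have h1 : ∑ i ∈ range (l + 1), |PowerSeries.coeff i f * PowerSeries.coeff (l - i) g| ≤
      ∑ i ∈ range (l + 1), 2 ^ t * (4 * (N : ℤ)) ^ l * 2 ^ i := by
    refine Finset.sum_le_sum ?_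
    intro i hi
    have hi' : i ≤ l := by
      have := Finset.mem_range.1 hi
      omega
    rw [abs_mul]
    have h2 := mul_le_mul (hf i) (hg (l - i)) (abs_nonneg _) (by positivity)
    refine h2.trans (le_of_eq ?_)
    have e : (4 * (N : ℤ)) ^ l = (4 * (N : ℤ)) ^ i * (4 * (N : ℤ)) ^ (l - i) := by
      rw [← pow_add]
      congr 1
      omega
    rw [e]
    have e2 : (8 * (N : ℤ)) ^ i = (4 * (N : ℤ)) ^ i * 2 ^ i := by
      rw [← mul_pow]
      congr 1
      ring
    rw [e2]
    ring
  refine h1.trans ?_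
  rw [← Finset.mul_sum]
  have h3 : 2 ^ t * (4 * (N : ℤ)) ^ l * ∑ i ∈ range (l + 1), (2 : ℤ) ^ i ≤
      2 ^ t * (4 * (N : ℤ)) ^ l * 2 ^ (l + 1) :=
    mul_le_mul_of_nonneg_left (geo l) (by positivity)
  refine h3.trans (le_of_eq ?_)
  have e2 : (8 * (N : ℤ)) ^ l = (4 * (N : ℤ)) ^ l * 2 ^ l := by
    rw [← mul_pow]
    congr 1
    ring
  rw [e2]
  ring

/-- Row SROOT -/
theorem row (hB : BetaStmt) : SrootStmt := by
  obtain ⟨β, h0, hev, hbd, hsq⟩ := hB
  intro N j T hN hT hlt
  have key : ∀ T : Finset ℕ, (∀ n ∈ T, n < N) →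
      PowerSeries.coeff 0 (∏ n ∈ T, PowerSeries.rescale (n : ℤ) (PowerSeries.mk β)) = 1 ∧
      (∀ l, 1 ≤ l → Even (PowerSeries.coeff l
        (∏ n ∈ T, PowerSeries.rescale (n : ℤ) (PowerSeries.mk β)))) ∧
      (∀ l, |PowerSeries.coeff l (∏ n ∈ T, PowerSeries.rescale (n : ℤ) (PowerSeries.mk β))| ≤
        2 ^ T.card * (8 * (N : ℤ)) ^ l) ∧
      (∏ n ∈ T, PowerSeries.rescale (n : ℤ) (PowerSeries.mk β)) ^ 2 =
        (rad T : PowerSeries ℤ) := by
    intro T
    induction T using Finset.induction_on with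
    | empty =>
      intro _
      refine ⟨by simp, ?_, ?_, by simp [rad]⟩
      · intro l hl
        have hl' : l ≠ 0 := by omega
        simp [PowerSeries.coeff_one, hl']
      · intro l
        by_cases hl : l = 0
        · subst hl
          simp
        · simp only [Finset.prod_empty, PowerSeries.coeff_one, hl, if_false, abs_zero]
          positivity
    | insert a T ha ih =>
      intro hlt
      obtain ⟨i0, i1, i2, i3⟩ := ih (fun n hn => hlt n (Finset.mem_insert_of_mem hn))
      have haN : a < N := hlt a (Finset.mem_insert_self _ _)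
      have f0 : PowerSeries.coeff 0 (PowerSeries.rescale (a : ℤ) (PowerSeries.mk β)) = 1 := by
        rw [PowerSeries.coeff_rescale, PowerSeries.coeff_mk, h0]
        norm_num
      have f1 : ∀ l, 1 ≤ l →
          Even (PowerSeries.coeff l (PowerSeries.rescale (a : ℤ) (PowerSeries.mk β))) := by
        intro l hl
        rw [PowerSeries.coeff_rescale, PowerSeries.coeff_mk]
        exact (hev l hl).mul_left _
      have f2 : ∀ l, |PowerSeries.coeff l (PowerSeries.rescale (a : ℤ) (PowerSeries.mk β))| ≤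
          (4 * (N : ℤ)) ^ l := by
        intro l
        rw [PowerSeries.coeff_rescale, PowerSeries.coeff_mk, abs_mul, mul_pow, mul_comm]
        have ha' : |((a : ℤ)) ^ l| ≤ (N : ℤ) ^ l := by
          rw [abs_of_nonneg (by positivity)]
          exact pow_le_pow_left₀ (by positivity) (by exact_mod_cast haN.le) l
        exact mul_le_mul (hbd l) ha' (abs_nonneg _) (by positivity)
      rw [Finset.prod_insert ha, mul_comm (PowerSeries.rescale (a : ℤ) (PowerSeries.mk β))]
      refine ⟨?_, mul_even _ _ i1 f1, ?_, ?_⟩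
      · rw [PowerSeries.coeff_mul]
        simp [i0, h0]
      · intro l
        rw [Finset.card_insert_of_notMem ha]
        exact mul_bd N T.card _ _ i2 f2 l
      · rw [mul_pow, i3, ← map_pow, hsq]
        unfold rad
        rw [Finset.prod_insert ha, mul_comm, Polynomial.coe_mul]
        congr 1
        rw [map_add, map_one, map_mul, PowerSeries.rescale_X]
        rw [Polynomial.coe_add, Polynomial.coe_mul, Polynomial.coe_C, Polynomial.coe_X,
          Polynomial.coe_one]
        have e : PowerSeries.rescale (a : ℤ) (PowerSeries.C (4 : ℤ)) =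
            PowerSeries.C (4 : ℤ) := by
          ext l
          rw [PowerSeries.coeff_rescale, PowerSeries.coeff_C]
          by_cases hl : l = 0
          · subst hl
            simp
          · simp [hl]
        rw [e, map_mul]
        ring
  obtain ⟨k0, k1, k2, k3⟩ := key T hlt
  refine ⟨_, k0, k1, ?_, k3⟩
  intro l
  have h := k2 l
  rw [hT, pow_mul] at h
  exact h

end Pool.Agent.Helper83.RU.RSROOT
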