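import Pool.Agent.Helper83.RU.Stm

/-!
# Squares in arithmetic progressions: the values are not zero (row WNZ)
-/

namespace Pool.Agent.Helper83.RU.RWNZ

open Finset Polynomial

theorem dom_mul {F F' G G' : ℤ[X]} (hF : ∀ l, |F.coeff l| ≤ F'.coeff l)
    (hG : ∀ l, |G.coeff l| ≤ G'.coeff l) : ∀ l, |(F * G).coeff l| ≤ (F' * G').coeff l := by
  intro l
  rw [coeff_mul, coeff_mul]
  refine (Finset.abs_sum_le_sum_abs _ _).trans (Finset.sum_le_sum fun x _ => ?_)
  rw [abs_mul]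
  exact mul_le_mul (hF _) (hG _) (abs_nonneg _) ((abs_nonneg _).trans (hF _))

theorem coeff_le_eval {F : ℤ[X]} (h : ∀ l, 0 ≤ F.coeff l) (l : ℕ) : F.coeff l ≤ F.eval 1 := by
  rw [eval_eq_sum_range]
  simp only [one_pow, mul_one]
  by_cases hl : l ∈ range (F.natDegree + 1)
  · exact Finset.single_le_sum (f := fun i => F.coeff i) (fun i _ => h i) hl
  · rw [coeff_eq_zero_of_natDegree_lt (by simpa using hl)]
    exact Finset.sum_nonneg fun i _ => h i

theorem dom_geom {F : ℤ[X]} {m : ℕ} {H : ℤ} (hd : F.natDegree ≤ m) (hH : 0 ≤ H)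
    (hF : ∀ l, |F.coeff l| ≤ H) :
    ∀ l, |F.coeff l| ≤ (C H * ∑ i ∈ range (m + 1), (X : ℤ[X]) ^ i).coeff l := by
  intro l
  rw [coeff_C_mul, finsetSum_coeff]
  by_cases hl : l ∈ range (m + 1)
  · have h1 : ∑ i ∈ range (m + 1), ((X : ℤ[X]) ^ i).coeff l = 1 := by
      simp only [coeff_X_pow]
      rw [Finset.sum_ite_eq (range (m + 1)) l (fun _ => (1 : ℤ)), if_pos hl]
    rw [h1, mul_one]
    exact hF l
  · rw [coeff_eq_zero_of_natDegree_lt (by simp at hl; omega), abs_zero]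
    refine mul_nonneg hH (Finset.sum_nonneg fun i _ => ?_)
    rw [coeff_X_pow]
    split_ifs <;> norm_num

theorem rad_nonneg (T : Finset ℕ) : ∀ l, 0 ≤ (rad T).coeff l := by
  classical
  unfold rad
  induction T using Finset.induction_on with
  | empty =>
    intro l
    rw [Finset.prod_empty, coeff_one]
    split_ifs <;> norm_num
  | insert a s ha ih =>
    intro l
    rw [Finset.prod_insert ha, coeff_mul]
    refine Finset.sum_nonneg fun x _ => mul_nonneg ?_ (ih _)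
    rw [coeff_add, coeff_one, coeff_C_mul, coeff_X]
    have h4 : (0 : ℤ) ≤ 4 * (a : ℤ) := by positivity
    split_ifs <;> linarith

theorem rad_eval (T : Finset ℕ) (N : ℕ) (hN : 1 ≤ N) (hT : ∀ n ∈ T, n < N) :
    (rad T).eval 1 ≤ (5 * (N : ℤ)) ^ T.card := by
  unfold rad
  rw [eval_prod]
  have h : ∀ n ∈ T, eval 1 (1 + C (4 * (n : ℤ)) * X : ℤ[X]) = 1 + 4 * (n : ℤ) := fun n _ => by
    simp
  rw [Finset.prod_congr rfl h, ← Finset.prod_const]
  refine Finset.prod_le_prod (fun n _ => by positivity) fun n hn => ?_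
  have := hT n hn
  omega

theorem hom_eq (F : ℤ[X]) (m : ℕ) (b q : ℤ) (hb : b ≠ 0) (hF : F.natDegree ≤ m) :
    (hom F m b q : ℚ) = (b : ℚ) ^ m * (F.map (Int.castRingHom ℚ)).eval ((q : ℚ) / b) := by
  have hb' : (b : ℚ) ≠ 0 := by exact_mod_cast hb
  rw [eval_map, eval₂_eq_sum_range' _ (show F.natDegree < m + 1 by omega), Finset.mul_sum]
  unfold hom
  push_cast
  refine Finset.sum_congr rfl fun l hl => ?_
  have hl' : l ≤ m := by simp at hl; omega
  have e : (b : ℚ) ^ m = (b : ℚ) ^ (m - l) * (b : ℚ) ^ l := by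
    rw [← pow_add]; congr 1; omega
  rw [e, div_pow]
  simp only [eq_intCast]
  field_simp

theorem dvd_low (G : ℤ[X]) (M : ℕ) (b q : ℕ) (hq : 0 < q) (hc : Nat.Coprime b q)
    (hG : G ≠ 0) (hd : G.natDegree ≤ M) (h0 : hom G M b q = 0) :
    ∃ i, G.coeff i ≠ 0 ∧ (q : ℤ) ∣ G.coeff i := by
  classical
  have hex : ∃ i, G.coeff i ≠ 0 := by
    by_contra hcon
    push Not at hcon
    exact hG (Polynomial.ext fun i => by rw [hcon i, coeff_zero])
  let i := Nat.find hex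
  have hi : G.coeff i ≠ 0 := Nat.find_spec hex
  have hmin : ∀ l, l < i → G.coeff l = 0 := fun l hl => by
    have := Nat.find_min hex hl
    push Not at this
    exact this
  have hiM : i ≤ M := (le_natDegree_of_ne_zero hi).trans hd
  refine ⟨i, hi, ?_⟩
  have hsplit : hom G M b q = G.coeff i * (q : ℤ) ^ i * (b : ℤ) ^ (M - i) +
      ∑ l ∈ (range (M + 1)).erase i, G.coeff l * (q : ℤ) ^ l * (b : ℤ) ^ (M - l) := by
    unfold hom
    rw [← Finset.add_sum_erase (range (M + 1)) _ (Finset.mem_range.2 (Nat.lt_succ_of_le hiM))]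
  have hdvd : (q : ℤ) ^ (i + 1) ∣
      ∑ l ∈ (range (M + 1)).erase i, G.coeff l * (q : ℤ) ^ l * (b : ℤ) ^ (M - l) := by
    refine Finset.dvd_sum fun l hl => ?_
    rcases lt_trichotomy l i with h | h | h
    · rw [hmin l h]; simp
    · exact absurd h (Finset.ne_of_mem_erase hl)
    · exact ((pow_dvd_pow _ h).mul_left _).mul_right _
  have h1 : (q : ℤ) ^ (i + 1) ∣ G.coeff i * (q : ℤ) ^ i * (b : ℤ) ^ (M - i) := by
    have h2 : (q : ℤ) ^ (i + 1) ∣ G.coeff i * (q : ℤ) ^ i * (b : ℤ) ^ (M - i) +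
      ∑ l ∈ (range (M + 1)).erase i, G.coeff l * (q : ℤ) ^ l * (b : ℤ) ^ (M - l) := by
      rw [← hsplit, h0]; exact dvd_zero _
    exact (dvd_add_left hdvd).1 h2
  have hq0 : (q : ℤ) ≠ 0 := by exact_mod_cast hq.ne'
  have h3 : (q : ℤ) ^ i * (q : ℤ) ∣ (q : ℤ) ^ i * (G.coeff i * (b : ℤ) ^ (M - i)) := by
    rw [← pow_succ]
    refine h1.trans (dvd_of_eq (by ring))
  have h4 : (q : ℤ) ∣ G.coeff i * (b : ℤ) ^ (M - i) :=
    (mul_dvd_mul_iff_left (pow_ne_zero i hq0)).1 h3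
  have hcop : IsCoprime (q : ℤ) ((b : ℤ) ^ (M - i)) := by
    refine IsCoprime.pow_right ?_
    exact Nat.isCoprime_iff_coprime.2 hc.symm
  exact hcop.dvd_of_dvd_mul_right h4

/-- Row WNZ. -/
theorem row (hNZ : NonzStmt) : WnzStmt := by
  intro N j m b q Y T S P Q hN hj hjm hT hTN _ hA hb hc hq hY
  obtain ⟨hPQ, hPd, hQd, hPc, hQc, _⟩ := hA
  set H : ℤ := (64 * (N : ℤ)) ^ (3 * m ^ 2) with hH
  have hH1 : 1 ≤ H := one_le_pow₀ (by omega)
  set G : ℤ[X] := P ^ 2 - Q ^ 2 * rad T with hGdef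
  have hG0 : G ≠ 0 := fun h => hNZ T P Q (by omega) hPQ (sub_eq_zero.1 h)
  have hradd : (rad T).natDegree ≤ 2 * j := by
    unfold rad
    refine (natDegree_prod_le _ _).trans ?_
    calc ∑ n ∈ T, (1 + C (4 * (n : ℤ)) * X : ℤ[X]).natDegree ≤ ∑ n ∈ T, 1 := by
          refine Finset.sum_le_sum fun n _ => ?_
          refine (natDegree_add_le _ _).trans (max_le (by simp) ?_)
          exact (natDegree_C_mul_le _ _).trans natDegree_X_le
      _ = 2 * j := by rw [Finset.sum_const, smul_eq_mul, mul_one, hT]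
  have hGd : G.natDegree ≤ 2 * m := by
    refine (natDegree_sub_le _ _).trans (max_le ?_ ?_)
    · exact natDegree_pow_le_of_le 2 hPd
    · refine natDegree_mul_le.trans ?_
      have h1 : (Q ^ 2).natDegree ≤ 2 * (m - j) := natDegree_pow_le_of_le 2 hQd
      omega
  have hbZ : (b : ℤ) ≠ 0 := by exact_mod_cast hb.ne'
  have hbQ : (b : ℚ) ≠ 0 := by exact_mod_cast hb.ne'
  have hYQ : (Y : ℚ) ^ 2 = (b : ℚ) ^ (2 * j) *
      ((rad T).map (Int.castRingHom ℚ)).eval ((q : ℚ) / b) := by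
    have h1 : ((Y ^ 2 : ℕ) : ℚ) = ((∏ n ∈ T, (b + 4 * n * q) : ℕ) : ℚ) := by rw [hY]
    push_cast at h1
    rw [h1]
    unfold rad
    rw [Polynomial.map_prod, eval_prod, ← hT, ← Finset.prod_const, ← Finset.prod_mul_distrib]
    refine Finset.prod_congr rfl fun n _ => ?_
    simp
    field_simp
  have hprod : (hom P m b q - Y * hom Q (m - j) b q) * (hom P m b q + Y * hom Q (m - j) b q) =
      hom G (2 * m) b q := by
    have h1 := hom_eq P m b q hbZ hPd
    have h2 := hom_eq Q (m - j) b q hbZ hQd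
    have h3 := hom_eq G (2 * m) b q hbZ hGd
    have h4 : (((hom P m b q - Y * hom Q (m - j) b q) * (hom P m b q + Y * hom Q (m - j) b q) :
        ℤ) : ℚ) = ((hom G (2 * m) b q : ℤ) : ℚ) := by
      rw [h3]
      push_cast
      rw [h1, h2, hGdef]
      push_cast
      rw [Polynomial.map_sub, Polynomial.map_mul, Polynomial.map_pow, Polynomial.map_pow,
        eval_sub, eval_mul, eval_pow, eval_pow]
      have e1 : (b : ℚ) ^ (2 * m) = ((b : ℚ) ^ (m - j)) ^ 2 * (b : ℚ) ^ (2 * j) := by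
        rw [← pow_mul, ← pow_add]; congr 1; omega
      have e2 : (b : ℚ) ^ (2 * m) = ((b : ℚ) ^ m) ^ 2 := by rw [← pow_mul]; congr 1; omega
      rw [mul_sub]
      nth_rewrite 1 [e2]
      rw [e1]
      linear_combination (-((b : ℚ) ^ (m - j)) ^ 2 *
        (eval ((q : ℚ) / b) (Polynomial.map (Int.castRingHom ℚ) Q)) ^ 2) * hYQ
    exact_mod_cast h4
  have hqpos : 0 < q := lt_of_le_of_lt (Nat.zero_le _) hq
  -- coefficients of `G`
  have hbound : ∀ l, |G.coeff l| ≤ (64 * (N : ℤ)) ^ (9 * m ^ 2) := by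
    intro l
    have hdP := dom_geom hPd (by omega : (0 : ℤ) ≤ H) hPc
    have hdQ := dom_geom (hQd.trans (Nat.sub_le m j)) (by omega : (0 : ℤ) ≤ H) hQc
    set E : ℤ[X] := C H * ∑ i ∈ range (m + 1), (X : ℤ[X]) ^ i with hE
    clear_value E
    have hR : ∀ l, |(rad T).coeff l| ≤ (rad T).coeff l := fun l => by
      rw [abs_of_nonneg (rad_nonneg T l)]
    have h1 : |(P ^ 2).coeff l| ≤ (E * E).coeff l := by rw [pow_two]; exact dom_mul hdP hdP l
    have h2 : |(Q ^ 2 * rad T).coeff l| ≤ (E * E * rad T).coeff l := by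
      rw [pow_two]; exact dom_mul (dom_mul hdQ hdQ) hR l
    have hE0 : ∀ l, 0 ≤ E.coeff l := fun l => (abs_nonneg _).trans (hdP l)
    have hEE0 : ∀ l, 0 ≤ (E * E).coeff l := fun l => (abs_nonneg _).trans (dom_mul hdP hdP l)
    have hEER0 : ∀ l, 0 ≤ (E * E * rad T).coeff l := fun l =>
      (abs_nonneg _).trans (dom_mul (dom_mul hdQ hdQ) hR l)
    have h3 : (E * E).coeff l ≤ (E * E).eval 1 := coeff_le_eval hEE0 l
    have h4 : (E * E * rad T).coeff l ≤ (E * E * rad T).eval 1 := coeff_le_eval hEER0 l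
    have hEv : E.eval 1 = H * (m + 1) := by
      rw [hE, eval_mul, eval_C, eval_finsetSum]
      simp
    have hrv := rad_eval T N hN hTN
    rw [hT] at hrv
    have hN1 : (1 : ℤ) ≤ N := by exact_mod_cast hN
    have h5 : (5 * (N : ℤ)) ^ (2 * j) ≤ (5 * (N : ℤ)) ^ (2 * m) :=
      pow_le_pow_right₀ (by linarith) (by omega)
    have h6 : (1 : ℤ) ≤ (5 * (N : ℤ)) ^ (2 * m) := one_le_pow₀ (by linarith)
    have h7 : |G.coeff l| ≤ (E * E).eval 1 + (E * E * rad T).eval 1 := by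
      rw [hGdef, coeff_sub]
      have := abs_sub (a := (P ^ 2).coeff l) (b := (Q ^ 2 * rad T).coeff l)
      linarith
    rw [eval_mul, eval_mul, eval_mul, hEv] at h7
    have h8 : (0 : ℤ) ≤ (H * (m + 1)) * (H * (m + 1)) := mul_self_nonneg _
    have h9 : |G.coeff l| ≤ (H * (m + 1)) * (H * (m + 1)) * (2 * (5 * (N : ℤ)) ^ (2 * m)) := by
      have := mul_le_mul_of_nonneg_left (hrv.trans h5) h8
      nlinarith
    have h10 : ((m : ℤ) + 1) ^ 2 * 2 ≤ 8 ^ m := by
      have hm1 : 1 ≤ m := hj.trans hjm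
      clear * - hm1
      induction m, hm1 using Nat.le_induction with
      | base => norm_num
      | succ k hk ih =>
        have hk' : (1 : ℤ) ≤ k := by exact_mod_cast hk
        have e8 : (8 : ℤ) ^ (k + 1) = 8 ^ k * 8 := pow_succ _ _
        rw [e8]
        push_cast
        nlinarith
    have h11 : (8 : ℤ) ^ m * (5 * (N : ℤ)) ^ (2 * m) ≤ (64 * (N : ℤ)) ^ (2 * m) := by
      rw [pow_mul, pow_mul, ← mul_pow]
      refine pow_le_pow_left₀ (by positivity) ?_ m
      nlinarith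
    have h12 : (64 * (N : ℤ)) ^ (2 * m) ≤ (64 * (N : ℤ)) ^ (3 * m ^ 2) :=
      pow_le_pow_right₀ (by linarith) (by
        have hm1 : 1 ≤ m := hj.trans hjm
        nlinarith)
    calc |G.coeff l| ≤ (H * (m + 1)) * (H * (m + 1)) * (2 * (5 * (N : ℤ)) ^ (2 * m)) := h9
      _ = H * H * ((((m : ℤ) + 1) ^ 2 * 2) * (5 * (N : ℤ)) ^ (2 * m)) := by ring
      _ ≤ H * H * ((8 : ℤ) ^ m * (5 * (N : ℤ)) ^ (2 * m)) := by
          refine mul_le_mul_of_nonneg_left ?_ (mul_self_nonneg _)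
          exact mul_le_mul_of_nonneg_right h10 (by positivity)
      _ ≤ H * H * (64 * (N : ℤ)) ^ (3 * m ^ 2) :=
          mul_le_mul_of_nonneg_left (h11.trans h12) (mul_self_nonneg _)
      _ = (64 * (N : ℤ)) ^ (9 * m ^ 2) := by
          rw [hH, ← pow_add, ← pow_add]; congr 1; ring
  have key : hom G (2 * m) b q ≠ 0 := by
    intro h0
    obtain ⟨i, hi, hdv⟩ := dvd_low G (2 * m) b q hqpos hc hG0 hGd h0
    have h1 : (q : ℤ) ≤ |G.coeff i| := by
      have := Int.le_of_dvd (abs_pos.2 hi) ((dvd_abs _ _).2 hdv)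
      exact this
    have h2 : (q : ℤ) ≤ (64 * (N : ℤ)) ^ (9 * m ^ 2) := h1.trans (hbound i)
    have h3 : q ≤ (64 * N) ^ (9 * m ^ 2) := by exact_mod_cast h2
    omega
  rw [← hprod] at key
  exact ⟨left_ne_zero_of_mul key, right_ne_zero_of_mul key⟩

end Pool.Agent.Helper83.RU.RWNZ
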