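import Mathlib
import Pool.Agent.Helper83.RU.Stm
import Pool.Agent.Helper83.RU.RBETA
import Pool.Agent.Helper83.RU.RSROOT
import Pool.Agent.Helper83.RU.RAux
import Pool.Agent.Helper83.RU.RNONZ
import Pool.Agent.Helper83.RU.RWNZ
import Pool.Agent.Helper83.RU.RPAD
import Pool.Agent.Helper83.RU.RSIZE
import Pool.Agent.Helper83.RU.RCORR
import Pool.Agent.Helper83.RU.RLOG
import Pool.Agent.Helper83.RU.RSGN
import Pool.Agent.Helper83.RU.RMOM
import Pool.Agent.Helper83.RU.RCORE
import Pool.Agent.Helper83.RU.RFINAL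

namespace Pool.Agent.Helper83.RU.Main

theorem corr : CorrStmt :=
  RCORR.row (RSROOT.row RBETA.row) RAux.row (RWNZ.row RNONZ.row) RPAD.row RSIZE.row

theorem core : CoreStmt := RCORE.row (RLOG.row corr) RSGN.row RMOM.row

theorem final : FinalStmt := RFINAL.row core

end Pool.Agent.Helper83.RU.Main
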