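import Mathlib
import Pool.Agent.Helper83.RU.Stm

namespace Pool.Agent.Helper83.RU.RFINAL

open Finset

/-- the sum of the squares of the weights -/
noncomputable def sg (q : ℕ) : ℝ := ∑ p ∈ q.primeFactors, (q.factorization p * Real.log p) ^ 2

theorem sg_sub {q : ℕ} {P : Finset ℕ} (h : q.primeFactors ⊆ P) :
    sg q = ∑ p ∈ P, (q.factorization p * Real.log p) ^ 2 := by
  unfold sg
  refine Finset.sum_subset h ?_
  intro p _ hp
  have : q.factorization p = 0 := by
    rw [← Finsupp.notMem_support_iff, Nat.support_factorization]; exact hp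
  rw [this]; simp

theorem sg_nonneg (q : ℕ) : 0 ≤ sg q := Finset.sum_nonneg (fun _ _ => sq_nonneg _)

theorem sg_le (d : ℕ) : sg d ≤ Real.log d ^ 2 := by
  have h1 : Real.log d = ∑ p ∈ d.primeFactors, (d.factorization p * Real.log p) := by
    rw [Real.log_nat_eq_sum_factorization, Finsupp.sum, Nat.support_factorization]
  rw [h1, sg]
  exact Finset.sum_sq_le_sq_sum_of_nonneg (fun p hp => mul_nonneg (Nat.cast_nonneg _)
    (Real.log_natCast_nonneg _))

theorem sg_mul {d Q : ℕ} (hd : d ≠ 0) (hQ : Q ≠ 0) : sg (d * Q) ≤ 2 * sg d + 2 * sg Q := by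
  have hs : (d * Q).primeFactors = d.primeFactors ∪ Q.primeFactors := Nat.primeFactors_mul hd hQ
  rw [sg_sub (q := d) (P := (d * Q).primeFactors) (by rw [hs]; exact Finset.subset_union_left),
    sg_sub (q := Q) (P := (d * Q).primeFactors) (by rw [hs]; exact Finset.subset_union_right),
    sg, Finset.mul_sum, Finset.mul_sum, ← Finset.sum_add_distrib]
  refine Finset.sum_le_sum ?_
  intro p _
  rw [Nat.factorization_mul hd hQ]
  have : (((d.factorization + Q.factorization) p : ℕ) : ℝ) =
      d.factorization p + Q.factorization p := by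
    rw [Finsupp.add_apply]; push_cast; ring
  rw [this]
  nlinarith [sq_nonneg ((d.factorization p : ℝ) * Real.log p - Q.factorization p * Real.log p)]

theorem row (h : CoreStmt) : FinalStmt := by
  classical
  intro k
  obtain ⟨C, hC0, hC⟩ := h k
  refine ⟨4 * C + 4, ?_⟩
  intro N q a hN hq hco
  set S := (range N).filter (fun n => IsSquare (q * n + a)) with hS
  have hSN : ∀ n ∈ S, n < N := fun n hn => Finset.mem_range.mp (Finset.mem_filter.mp hn).1
  have hSq : ∀ n ∈ S, Nat.sqrt (q * n + a) ^ 2 = q * n + a := by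
    intro n hn
    obtain ⟨r, hr⟩ := (Finset.mem_filter.mp hn).2
    rw [hr, Nat.sqrt_eq, sq]
  have hs0 : 0 ≤ (S.card : ℝ) ^ k := by positivity
  have hl2 : 0 < Real.log 2 := Real.log_pos (by norm_num)
  have hN' : (2 : ℝ) ≤ N := by exact_mod_cast hN
  have hlN : Real.log 2 ≤ Real.log N := Real.log_le_log (by norm_num) hN'
  have hlN0 : 0 ≤ Real.log N := hl2.le.trans hlN
  have hlq0 : 0 ≤ Real.log q := Real.log_natCast_nonneg _
  change (S.card : ℝ) ^ k * sg q ≤ _
  by_cases hq1 : q = 1
  · subst hq1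
    have : sg 1 = 0 := by simp [sg]
    rw [this]; simp
  have ha : 0 < a := by
    rcases Nat.eq_zero_or_pos a with h0 | h0
    · subst h0; exact absurd ((Nat.coprime_zero_right q).mp hco) hq1
    · exact h0
  have hRHS : 0 ≤ Real.log q ^ 2 + (S.card : ℝ) ^ k * Real.log q * Real.log N := by positivity
  by_cases hodd : q % 2 = 1
  · -- odd
    have hcop : Nat.Coprime (4 * a) q := by
      refine Nat.Coprime.mul_left ?_ hco.symm
      have : Nat.Coprime 2 q := by
        rw [Nat.coprime_two_left, Nat.odd_iff]; exact hodd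
      exact Nat.Coprime.pow_left 2 this
    have h1 := hC N (4 * a) q S (fun n => 2 * Nat.sqrt (q * n + a)) hN (by omega) (by omega) hcop
      hSN (by intro n hn; have := hSq n hn; rw [mul_pow, this]; ring)
    calc (S.card : ℝ) ^ k * sg q ≤ C * (Real.log q ^ 2 +
          (S.card : ℝ) ^ k * Real.log q * Real.log N) := h1
      _ ≤ _ := mul_le_mul_of_nonneg_right (by linarith) hRHS
  · by_cases h4 : q % 4 = 0
    · obtain ⟨Q, rfl⟩ : 4 ∣ q := Nat.dvd_of_mod_eq_zero h4
      have hQ : 0 < Q := by omega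
      have hcop : Nat.Coprime a Q := (Nat.Coprime.coprime_dvd_left (Dvd.intro_left 4 rfl) hco).symm
      have h1 := hC N a Q S (fun n => Nat.sqrt (4 * Q * n + a)) hN ha hQ hcop hSN
        (by intro n hn; have := hSq n hn; rw [this]; ring)
      change (S.card : ℝ) ^ k * sg Q ≤ _ at h1
      have h2 := sg_mul (d := 4) (Q := Q) (by norm_num) (by omega)
      have h3 := sg_le 4
      have hQR : (1 : ℝ) ≤ Q := by exact_mod_cast hQ
      have hlQ : Real.log Q ≤ Real.log ((4 * Q : ℕ) : ℝ) :=
        Real.log_le_log (by linarith) (by push_cast; linarith)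
      have hlQ0 : 0 ≤ Real.log Q := Real.log_nonneg hQR
      have hl4 : Real.log ((4 : ℕ) : ℝ) = 2 * Real.log 2 := by
        rw [show ((4 : ℕ) : ℝ) = 2 ^ 2 by norm_num, Real.log_pow]; push_cast; ring
      have hlq2 : 2 * Real.log 2 ≤ Real.log ((4 * Q : ℕ) : ℝ) := by
        rw [← hl4]
        exact Real.log_le_log (by norm_num) (by push_cast; linarith)
      rw [hl4] at h3
      set A := (S.card : ℝ) ^ k
      set L := Real.log ((4 * Q : ℕ) : ℝ)
      set L1 := Real.log (Q : ℝ)
      set l := Real.log (N : ℝ)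
      have e1 : L1 ^ 2 ≤ L ^ 2 := pow_le_pow_left₀ hlQ0 hlQ 2
      have e2 : A * L1 * l ≤ A * L * l :=
        mul_le_mul_of_nonneg_right (mul_le_mul_of_nonneg_left hlQ hs0) hlN0
      have e3 : (2 * Real.log 2) * Real.log 2 ≤ L * l := mul_le_mul hlq2 hlN hl2.le hlq0
      calc A * sg (4 * Q) ≤ A * (2 * sg 4 + 2 * sg Q) := mul_le_mul_of_nonneg_left h2 hs0
        _ = 2 * (A * sg Q) + A * (2 * sg 4) := by ring
        _ ≤ 2 * (C * (L1 ^ 2 + A * L1 * l)) + A * (4 * (L * l)) := by
            refine add_le_add (by linarith) (mul_le_mul_of_nonneg_left ?_ hs0)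
            nlinarith
        _ ≤ 2 * (C * (L ^ 2 + A * L * l)) + A * (4 * (L * l)) := by
            have := mul_le_mul_of_nonneg_left (add_le_add e1 e2) hC0
            linarith
        _ ≤ (4 * C + 4) * (L ^ 2 + A * L * l) := by
            have e4 : 0 ≤ C * (L ^ 2 + A * L * l) := mul_nonneg hC0 hRHS
            nlinarith [sq_nonneg L]
    · obtain ⟨Q, rfl⟩ : 2 ∣ q := Nat.dvd_of_mod_eq_zero (by omega)
      have hQ : 0 < Q := by omega
      have hQodd : Q % 2 = 1 := by omega
      have hcop : Nat.Coprime (4 * a) Q := by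
        refine Nat.Coprime.mul_left ?_
          (Nat.Coprime.coprime_dvd_left (Dvd.intro_left 2 rfl) hco).symm
        have : Nat.Coprime 2 Q := by
          rw [Nat.coprime_two_left, Nat.odd_iff]; exact hQodd
        exact Nat.Coprime.pow_left 2 this
      have hinj : Function.Injective (fun n : ℕ => 2 * n) := fun x y h => by
        simpa using h
      have h1 := hC (2 * N) (4 * a) Q (S.image (fun n => 2 * n))
        (fun m => 2 * Nat.sqrt (Q * m + a)) (by omega) (by omega) hQ hcop
        (by intro m hm; obtain ⟨n, hn, rfl⟩ := Finset.mem_image.mp hm; have := hSN n hn; omega)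
        (by
          intro m hm; obtain ⟨n, hn, rfl⟩ := Finset.mem_image.mp hm
          have := hSq n hn
          rw [show Q * (2 * n) + a = 2 * Q * n + a by ring, mul_pow, this]; ring)
      rw [Finset.card_image_of_injective _ hinj] at h1
      change (S.card : ℝ) ^ k * sg Q ≤ _ at h1
      have h2 := sg_mul (d := 2) (Q := Q) (by norm_num) (by omega)
      have h3 := sg_le 2
      have hQR : (1 : ℝ) ≤ Q := by exact_mod_cast hQ
      have hlQ : Real.log Q ≤ Real.log ((2 * Q : ℕ) : ℝ) :=
        Real.log_le_log (by linarith) (by push_cast; linarith)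
      have hlQ0 : 0 ≤ Real.log Q := Real.log_nonneg hQR
      have hlq2 : Real.log 2 ≤ Real.log ((2 * Q : ℕ) : ℝ) :=
        Real.log_le_log (by norm_num) (by push_cast; linarith)
      have hl2N : Real.log ((2 * N : ℕ) : ℝ) ≤ 2 * Real.log N := by
        push_cast
        rw [Real.log_mul (by norm_num) (by linarith)]
        linarith
      have hcast : Real.log ((2 : ℕ) : ℝ) = Real.log 2 := by norm_num
      rw [hcast] at h3
      set A := (S.card : ℝ) ^ k
      set L := Real.log ((2 * Q : ℕ) : ℝ)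
      set L1 := Real.log (Q : ℝ)
      set l := Real.log (N : ℝ)
      set l2 := Real.log ((2 * N : ℕ) : ℝ)
      have e1 : L1 ^ 2 ≤ L ^ 2 := pow_le_pow_left₀ hlQ0 hlQ 2
      have hl20 : 0 ≤ l2 := Real.log_natCast_nonneg _
      have e2 : A * L1 * l2 ≤ A * L * (2 * l) :=
        mul_le_mul (mul_le_mul_of_nonneg_left hlQ hs0) hl2N hl20 (mul_nonneg hs0 hlq0)
      have e3 : Real.log 2 * Real.log 2 ≤ L * l := mul_le_mul hlq2 hlN hl2.le hlq0
      calc A * sg (2 * Q) ≤ A * (2 * sg 2 + 2 * sg Q) := mul_le_mul_of_nonneg_left h2 hs0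
        _ = 2 * (A * sg Q) + A * (2 * sg 2) := by ring
        _ ≤ 2 * (C * (L1 ^ 2 + A * L1 * l2)) + A * (4 * (L * l)) := by
            refine add_le_add (by linarith) (mul_le_mul_of_nonneg_left ?_ hs0)
            nlinarith
        _ ≤ 2 * (C * (L ^ 2 + A * L * (2 * l))) + A * (4 * (L * l)) := by
            have := mul_le_mul_of_nonneg_left (add_le_add e1 e2) hC0
            linarith
        _ ≤ (4 * C + 4) * (L ^ 2 + A * L * l) := by
            have e4 : 0 ≤ C * L ^ 2 := mul_nonneg hC0 (sq_nonneg L)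
            nlinarith [sq_nonneg L]

end Pool.Agent.Helper83.RU.RFINAL
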