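import Pool.Agent.Helper83.RU.Main

/-!
# Squares in arithmetic progressions: higher correlations of the square roots, explicit form
-/

namespace Pool.Agent.Helper83.RU.Unif

open Finset

/-- Row LOG with explicit constants. -/
def LogStmtU : Prop :=
  ∀ (k N j b q Y : ℕ) (T : Finset ℕ) (ε : ℕ → ℤ), 2 ≤ N → 1 ≤ j →
    j ≤ k → T.card = 2 * j → (∀ n ∈ T, n < N) → 0 < b → Nat.Coprime b q →
    64 * ((k : ℝ) + 1) ^ 2 * Real.log N ≤ Real.log q → b ≤ 4 * N ^ 2 * q ^ 2 →
    Y ^ 2 = ∏ n ∈ T, (b + 4 * n * q) → (∀ p, ε p = 1 ∨ ε p = -1) →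
    (∀ p ∈ q.primeFactors,
      ((2 * p ^ q.factorization p : ℕ) : ℤ) ∣ (Y : ℤ) - ε p * (b : ℤ) ^ j) →
    |∑ p ∈ q.primeFactors, (q.factorization p * Real.log p) * (ε p : ℝ) +
        (Real.log (max b q : ℕ) - Real.log q)| ≤
      64 * ((k : ℝ) + 1) * √(Real.log q * Real.log N)

/-- Row CORE with two constants. -/
def CoreStmtU (k : ℕ) (D E : ℝ) : Prop :=
  ∀ (N b q : ℕ) (S : Finset ℕ) (y : ℕ → ℕ), 2 ≤ N → 0 < b → 0 < q →
    Nat.Coprime b q → (∀ n ∈ S, n < N) → (∀ n ∈ S, y n ^ 2 = b + 4 * n * q) →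
    (S.card : ℝ) ^ k * ∑ p ∈ q.primeFactors, (q.factorization p * Real.log p) ^ 2 ≤
      D * Real.log q ^ 2 + E * ((S.card : ℝ) ^ k * Real.log q * Real.log N)

section log

open RLOG (log_prod' prod_pos')

lemma arith (k l r m j Lam X : ℝ) (hl : 0 < l) (hk : 1 ≤ k) (hjk : j ≤ k)
    (hm1 : 1 ≤ m) (hmr : m ≤ r) (hrm : r < m + 1) (hjm : j ≤ m) (hLam0 : 0 ≤ Lam)
    (hLam : Lam ≤ 192 * l * r ^ 2)
    (hX : (2 * m - j + 1) * X ≤ 126 * m ^ 2 * l + (j - 1) * Lam) :
    X ≤ 64 * (k + 1) * (8 * l * r) := by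
  have hr : 1 ≤ r := hm1.trans hmr
  by_cases h0 : X ≤ 0
  · exact h0.trans (by positivity)
  push Not at h0
  have h1 : m * X ≤ (2 * m - j + 1) * X := by nlinarith
  have h2 : (j - 1) * Lam ≤ k * (192 * l * r ^ 2) :=
    mul_le_mul (by linarith) hLam hLam0 (by linarith)
  have h3 : r ≤ 2 * m := by linarith
  have hlr : 0 ≤ l * r := by positivity
  have h4 : k * (192 * l * r ^ 2) ≤ m * (384 * k * (l * r)) := by
    have : 0 ≤ k * (l * r) := by positivity
    nlinarith [mul_le_mul_of_nonneg_left h3 this]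
  have h5 : 126 * m ^ 2 * l ≤ m * (126 * (l * r)) := by
    have : 0 ≤ m * l := by positivity
    nlinarith [mul_le_mul_of_nonneg_left hmr this]
  have h6 : m * X ≤ m * ((126 + 384 * k) * (l * r)) := by nlinarith
  have h7 : X ≤ (126 + 384 * k) * (l * r) := le_of_mul_le_mul_left h6 (by linarith)
  have h8 : (126 + 384 * k) ≤ 512 * (k + 1) := by nlinarith
  nlinarith [mul_le_mul_of_nonneg_right h8 hlr]


/-- Row LOG. -/
theorem log_row (hCorr : CorrStmt) : LogStmtU := by
  intro k N j b q Y T ε hN hj hjk hT hTN hb hbq hC hb2 hY hε hcong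
  have hN0 : (2 : ℝ) ≤ N := by exact_mod_cast hN
  have hlog2 : Real.log 2 ≤ Real.log N := Real.log_le_log (by norm_num) hN0
  have hlog20 : 0 < Real.log 2 := Real.log_pos (by norm_num)
  have hl0 : 0 < Real.log N := by linarith
  have hk1 : (1 : ℝ) ≤ k := by exact_mod_cast hj.trans hjk
  have hj1 : (1 : ℝ) ≤ j := by exact_mod_cast hj
  have hjk' : (j : ℝ) ≤ k := by exact_mod_cast hjk
  have hCl : 256 * Real.log N ≤ Real.log q := by
    refine le_trans (mul_le_mul_of_nonneg_right ?_ hl0.le) hC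
    nlinarith
  have hL0 : 0 < Real.log q := by nlinarith
  have hq1 : (1 : ℝ) < q := by
    by_contra h
    push Not at h
    have := Real.log_nonpos (Nat.cast_nonneg q) h
    linarith
  have hq0 : 0 < q := by
    have : (0 : ℝ) < q := by linarith
    exact_mod_cast this
  obtain ⟨r, hr⟩ : ∃ r : ℝ, r = √(Real.log q / (64 * Real.log N)) := ⟨_, rfl⟩
  have hr0 : 0 ≤ r := hr ▸ Real.sqrt_nonneg _
  have hr2 : Real.log q = 64 * Real.log N * r ^ 2 := by
    rw [hr, Real.sq_sqrt (by positivity)]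
    field_simp
  have hrk : (k : ℝ) + 1 ≤ r := by
    rw [hr]
    apply Real.le_sqrt_of_sq_le
    rw [le_div_iff₀ (by positivity)]
    linarith
  obtain ⟨m, hm⟩ : ∃ m : ℕ, m = ⌊r⌋₊ := ⟨_, rfl⟩
  have hmr : (m : ℝ) ≤ r := hm ▸ Nat.floor_le hr0
  have hrm : r < m + 1 := hm ▸ Nat.lt_floor_add_one r
  have hkm : k + 1 ≤ m := by
    rw [hm]
    exact Nat.le_floor (by push_cast; exact hrk)
  have hjm : j ≤ m := by omega
  have hjm' : (j : ℝ) ≤ m := by exact_mod_cast hjm
  have hm1 : (1 : ℝ) ≤ m := by exact_mod_cast (by omega : 1 ≤ m)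
  have hlog64 : Real.log (64 * N) ≤ 7 * Real.log N := by
    rw [Real.log_mul (by norm_num) (by positivity)]
    have : Real.log 64 = 6 * Real.log 2 := by
      rw [show (64 : ℝ) = 2 ^ 6 by norm_num, Real.log_pow]
      norm_num
    linarith
  have hbig' : ((9 * m ^ 2 : ℕ) : ℝ) * Real.log (64 * N) ≤ 63 * (m : ℝ) ^ 2 * Real.log N := by
    push_cast
    nlinarith [mul_le_mul_of_nonneg_left hlog64 (by positivity : (0 : ℝ) ≤ 9 * (m : ℝ) ^ 2)]
  have hbig : (64 * N) ^ (9 * m ^ 2) < q := by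
    have h : Real.log ((64 * N : ℝ) ^ (9 * m ^ 2)) < Real.log q := by
      rw [Real.log_pow]
      refine lt_of_le_of_lt hbig' ?_
      rw [hr2]
      have h1 : (m : ℝ) ^ 2 ≤ r ^ 2 := by nlinarith
      have h2 : 0 < r ^ 2 := by nlinarith
      nlinarith [mul_le_mul_of_nonneg_left h1 hl0.le, mul_pos hl0 h2]
    have h' := (Real.log_lt_log_iff (by positivity) (by linarith)).1 h
    exact_mod_cast h'
  obtain ⟨h1, h2⟩ := hCorr N j m b q Y T ε (by omega) hj hjm hT hTN hb hbq hbig hY hε hcong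
  obtain ⟨A, hA⟩ : ∃ A, A = q.primeFactors.filter (fun p => ε p = 1) := ⟨_, rfl⟩
  obtain ⟨B, hB⟩ : ∃ B, B = q.primeFactors.filter (fun p => ε p = -1) := ⟨_, rfl⟩
  rw [← hA] at h1
  rw [← hB] at h2
  have hAs : A ⊆ q.primeFactors := hA ▸ filter_subset _ _
  have hBs : B ⊆ q.primeFactors := hB ▸ filter_subset _ _
  have hM0 : 0 < max b q := lt_of_lt_of_le hb (le_max_left _ _)
  have hMR : (0 : ℝ) < ((max b q : ℕ) : ℝ) := by exact_mod_cast hM0
  have hPA : (0 : ℝ) < ((∏ p ∈ A, p ^ q.factorization p : ℕ) : ℝ) := by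
    exact_mod_cast prod_pos' q A hAs
  have hPB : (0 : ℝ) < ((∏ p ∈ B, p ^ q.factorization p : ℕ) : ℝ) := by
    exact_mod_cast prod_pos' q B hBs
  have hqR : (0 : ℝ) < q := by linarith
  have hNR : (0 : ℝ) < 64 * (N : ℝ) := by linarith
  -- logarithms of the two inequalities
  have h1R : ((∏ p ∈ A, p ^ q.factorization p : ℕ) : ℝ) ^ (2 * m - j + 1) *
      ((max b q : ℕ) : ℝ) ^ (m - j + 1) ≤ (64 * (N : ℝ)) ^ (9 * m ^ 2) *
        (q : ℝ) ^ (2 * m - j + 1) := by exact_mod_cast h1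
  have h2R : ((∏ p ∈ B, p ^ q.factorization p : ℕ) : ℝ) ^ (2 * m - j + 1) ≤
      (64 * (N : ℝ)) ^ (9 * m ^ 2) * ((max b q : ℕ) : ℝ) ^ m := by exact_mod_cast h2
  have h1L := Real.log_le_log (by positivity) h1R
  have h2L := Real.log_le_log (by positivity) h2R
  rw [Real.log_mul (by positivity) (by positivity), Real.log_mul (by positivity) (by positivity),
    Real.log_pow, Real.log_pow, Real.log_pow, Real.log_pow, log_prod' q A hAs] at h1L
  rw [Real.log_mul (by positivity) (by positivity),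
    Real.log_pow, Real.log_pow, Real.log_pow, log_prod' q B hBs] at h2L
  have hJ : ((2 * m - j + 1 : ℕ) : ℝ) = 2 * (m : ℝ) - j + 1 := by
    have : j ≤ 2 * m := by omega
    push_cast [Nat.cast_sub this]
    ring
  have hJ' : ((m - j + 1 : ℕ) : ℝ) = (m : ℝ) - j + 1 := by
    push_cast [Nat.cast_sub hjm]
    ring
  rw [hJ, hJ'] at h1L
  rw [hJ] at h2L
  -- the sums
  obtain ⟨a, ha⟩ : ∃ a : ℝ, a = ∑ p ∈ A, q.factorization p * Real.log p := ⟨_, rfl⟩
  obtain ⟨c, hc⟩ : ∃ c : ℝ, c = ∑ p ∈ B, q.factorization p * Real.log p := ⟨_, rfl⟩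
  obtain ⟨Lam, hLam⟩ : ∃ x : ℝ, x = Real.log ((max b q : ℕ) : ℝ) := ⟨_, rfl⟩
  have hdec : q.primeFactors.filter (fun p => ¬ ε p = 1) = B := by
    rw [hB]
    refine filter_congr fun p _ => ?_
    rcases hε p with h | h <;> simp [h]
  have hsum : a + c = Real.log q := by
    have h := log_prod' q q.primeFactors (Subset.refl _)
    have hq' : (∏ p ∈ q.primeFactors, p ^ q.factorization p : ℕ) = q :=
      Nat.prod_factorization_pow_eq_self hq0.ne'
    rw [hq'] at h
    rw [h, ha, hc, hA, ← hdec]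
    exact sum_filter_add_sum_filter_not _ _ _
  have hdiff : ∑ p ∈ q.primeFactors, (q.factorization p * Real.log p) * (ε p : ℝ) = a - c := by
    rw [← sum_filter_add_sum_filter_not q.primeFactors (fun p => ε p = 1), hdec, ← hA, ha, hc,
      sub_eq_add_neg, ← sum_neg_distrib]
    congr 1
    · refine sum_congr rfl fun p hp => ?_
      rw [hA, mem_filter] at hp
      rw [hp.2]
      simp
    · refine sum_congr rfl fun p hp => ?_
      rw [hB, mem_filter] at hp
      rw [hp.2]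
      simp
  have hLam0 : 0 ≤ Lam := hLam ▸ Real.log_natCast_nonneg _
  have hLam3 : Lam ≤ 192 * Real.log N * r ^ 2 := by
    have h3 : Lam ≤ 3 * Real.log q := by
      rw [hLam]
      rcases le_total b q with h | h
      · rw [max_eq_right h]
        linarith
      · rw [max_eq_left h]
        have hb' : (b : ℝ) ≤ 4 * (N : ℝ) ^ 2 * (q : ℝ) ^ 2 := by exact_mod_cast hb2
        have hbR : (0 : ℝ) < b := by exact_mod_cast hb
        have h4 := Real.log_le_log hbR hb'
        rw [Real.log_mul (by positivity) (by positivity),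
          Real.log_mul (by positivity) (by positivity), Real.log_pow, Real.log_pow] at h4
        have h5 : Real.log 4 = 2 * Real.log 2 := by
          rw [show (4 : ℝ) = 2 ^ 2 by norm_num, Real.log_pow]
          norm_num
        push_cast at h4
        linarith
    rw [hr2] at h3
    linarith
  have hsq : √(Real.log q * Real.log N) = 8 * Real.log N * r := by
    rw [hr2, show 64 * Real.log N * r ^ 2 * Real.log N = (8 * Real.log N * r) ^ 2 by ring]
    exact Real.sqrt_sq (by positivity)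
  rw [hdiff, ← hLam, hsq, abs_le]
  rw [← ha, ← hLam] at h1L
  rw [← hc, ← hLam] at h2L
  constructor
  · have hX := arith k (Real.log N) r m j Lam (2 * c - Lam) hl0 hk1 hjk' hm1 hmr hrm hjm'
      hLam0 hLam3 (by linarith)
    linarith
  · have hX := arith k (Real.log N) r m j Lam (2 * a + Lam - 2 * Real.log q) hl0 hk1 hjk' hm1
      hmr hrm hjm' hLam0 hLam3 (by linarith)
    linarith

end log

section core

open RCORE

theorem core_row (hLOG : LogStmtU) (hSGN : SgnStmt) (hMOM : MomStmt) (k : ℕ) :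
    CoreStmtU k (36 * (2 * (k : ℝ)) ^ k) (4096 * ((k : ℝ) + 1) ^ 2) := by
  have hlog := hLOG k
  obtain ⟨C₁, hC₁⟩ : ∃ C₁ : ℝ, C₁ = 64 * ((k : ℝ) + 1) := ⟨_, rfl⟩
  obtain ⟨C₂, hC₂⟩ : ∃ C₂ : ℝ, C₂ = 64 * ((k : ℝ) + 1) ^ 2 := ⟨_, rfl⟩
  have hk00 : (0 : ℝ) ≤ k := Nat.cast_nonneg k
  have hC1 : 1 ≤ C₁ := by rw [hC₁]; linarith
  have hC21 : 1 ≤ C₂ := by rw [hC₂]; nlinarith
  have hE1 : C₁ ^ 2 = 4096 * ((k : ℝ) + 1) ^ 2 := by rw [hC₁]; ring
  have hE2 : C₂ ≤ C₁ ^ 2 := by rw [hE1, hC₂]; nlinarith [sq_nonneg ((k : ℝ) + 1)]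
  rw [← hC₁, ← hC₂] at hlog
  rw [← hE1]
  intro N b q S y hN hb hq hbq hSN hy
  set L := Real.log q with hL
  set l := Real.log N with hl
  set W := ∑ p ∈ q.primeFactors, ((q.factorization p : ℝ) * Real.log p) ^ 2 with hW
  have hWL : W ≤ L ^ 2 := sum_sq_le q
  have hW0 : 0 ≤ W := sum_nonneg fun p _ => sq_nonneg _
  have hL0 : 0 ≤ L := Real.log_natCast_nonneg _
  have hl2 : Real.log 2 ≤ l := by
    apply Real.log_le_log (by norm_num)
    exact_mod_cast hN
  have hlpos : 0 < l := lt_of_lt_of_le (Real.log_pos (by norm_num)) hl2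
  have hs0 : (0 : ℝ) ≤ (S.card : ℝ) ^ k := by positivity
  have hk0 : (0 : ℝ) ≤ (2 * (k : ℝ)) ^ k := by positivity
  have hX : 0 ≤ (S.card : ℝ) ^ k * L * l := by positivity
  have hL2 : 0 ≤ L ^ 2 := sq_nonneg _
  -- case `k = 0`
  rcases Nat.eq_zero_or_pos k with hk | hk
  · subst hk
    have h1 : (S.card : ℝ) ^ 0 * W ≤ 36 * (2 * ((0 : ℕ) : ℝ)) ^ 0 * L ^ 2 := by
      rw [pow_zero, pow_zero]
      linarith
    have h2 : 0 ≤ C₁ ^ 2 * ((S.card : ℝ) ^ 0 * L * l) := mul_nonneg (sq_nonneg _) hX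
    linarith
  -- case `q` small
  rcases le_or_gt L (C₂ * l) with hcase | hcase
  · calc (S.card : ℝ) ^ k * W ≤ (S.card : ℝ) ^ k * L ^ 2 := by gcongr
      _ = (S.card : ℝ) ^ k * L * L := by ring
      _ ≤ (S.card : ℝ) ^ k * L * (C₂ * l) := by gcongr
      _ = C₂ * ((S.card : ℝ) ^ k * L * l) := by ring
      _ ≤ C₁ ^ 2 * ((S.card : ℝ) ^ k * L * l) := mul_le_mul_of_nonneg_right hE2 hX
      _ ≤ 36 * (2 * (k : ℝ)) ^ k * L ^ 2 + C₁ ^ 2 * ((S.card : ℝ) ^ k * L * l) := by
          have : 0 ≤ 36 * (2 * (k : ℝ)) ^ k * L ^ 2 := by positivity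
          linarith
  -- case `S` small
  rcases lt_or_ge S.card (2 * k) with hs | hs
  · have h1 : (S.card : ℝ) ^ k ≤ (2 * (k : ℝ)) ^ k := by
      have : (S.card : ℝ) ≤ 2 * (k : ℝ) := by exact_mod_cast hs.le
      gcongr
    calc (S.card : ℝ) ^ k * W ≤ (2 * (k : ℝ)) ^ k * L ^ 2 := by gcongr
      _ ≤ 36 * (2 * (k : ℝ)) ^ k * L ^ 2 := by nlinarith [mul_nonneg hk0 hL2]
      _ ≤ 36 * (2 * (k : ℝ)) ^ k * L ^ 2 + C₁ ^ 2 * ((S.card : ℝ) ^ k * L * l) := by
          have : 0 ≤ C₁ ^ 2 * ((S.card : ℝ) ^ k * L * l) := mul_nonneg (sq_nonneg _) hX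
          linarith
  -- main case
  have hbN : b ≤ 4 * N ^ 2 * q ^ 2 := by
    obtain ⟨n, hn, m, hm, hnm⟩ := one_lt_card.1 (by omega : 1 < S.card)
    rcases lt_or_gt_of_ne hnm with h | h
    · exact b_le (hy m hm) (hy n hn) h (hSN m hm) hq
    · exact b_le (hy n hn) (hy m hm) h (hSN n hn) hq
  obtain ⟨v, hv1, hv⟩ := hSGN b q S y hq hbq hy
  have hmaxpos : (0 : ℝ) < ((max b q : ℕ) : ℝ) := by
    have : 0 < max b q := lt_of_lt_of_le hq (le_max_right _ _)
    exact_mod_cast this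
  have hqpos : (0 : ℝ) < (q : ℝ) := by exact_mod_cast hq
  have hNpos : (0 : ℝ) < (N : ℝ) := by
    have : 0 < N := by omega
    exact_mod_cast this
  have hlam : 0 ≤ Real.log (max b q : ℕ) - L := by
    have : L ≤ Real.log (max b q : ℕ) := by
      apply Real.log_le_log hqpos
      exact_mod_cast le_max_right b q
    linarith
  have hmax : Real.log (max b q : ℕ) ≤ 6 * L := by
    have h1 : ((max b q : ℕ) : ℝ) ≤ 4 * (N : ℝ) ^ 2 * (q : ℝ) ^ 2 := by
      have h2 : max b q ≤ 4 * N ^ 2 * q ^ 2 := by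
        refine max_le hbN ?_
        have : 1 ≤ 4 * N ^ 2 * q := by
          have : 0 < 4 * N ^ 2 * q := by positivity
          omega
        calc q = 1 * q := (one_mul q).symm
          _ ≤ (4 * N ^ 2 * q) * q := Nat.mul_le_mul_right _ this
          _ = 4 * N ^ 2 * q ^ 2 := by ring
      exact_mod_cast h2
    have h3 : Real.log (4 * (N : ℝ) ^ 2 * (q : ℝ) ^ 2) = 2 * Real.log 2 + 2 * l + 2 * L := by
      rw [Real.log_mul (by positivity) (by positivity), Real.log_mul (by norm_num) (by positivity),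
        Real.log_pow, Real.log_pow, show (4 : ℝ) = 2 ^ 2 by norm_num, Real.log_pow]
      push_cast
      ring
    have h4 := Real.log_le_log hmaxpos h1
    rw [h3] at h4
    have h5 : l ≤ L := by
      have : 1 * l ≤ C₂ * l := mul_le_mul_of_nonneg_right hC21 hlpos.le
      linarith
    linarith
  have hE : ∀ T, T ⊆ S → T.Nonempty → Even T.card → T.card ≤ 2 * k →
      |∑ p ∈ q.primeFactors, ((q.factorization p : ℝ) * Real.log p) *
        ∏ n ∈ T, ((fun n p => (v n p : ℝ)) n p) + (Real.log (max b q : ℕ) - L)| ≤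
        C₁ * √(L * l) := by
    intro T hT hne hev hcard
    obtain ⟨j, hj⟩ := hev
    have hj2 : T.card = 2 * j := by omega
    have hj1 : 1 ≤ j := by
      have := hne.card_pos
      omega
    have h1 := hlog N j b q (∏ n ∈ T, y n) T (fun p => ∏ n ∈ T, v n p) hN hj1 (by omega) hj2
      (fun n hn => hSN n (hT hn)) hb hbq hcase.le hbN (by
        rw [← prod_pow]
        exact prod_congr rfl fun n hn => hy n (hT hn)) (fun p => prod_sign T _ fun n => hv1 n p) (fun p hp => by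
        have := hv T hT j hj2 p hp
        push_cast
        push_cast at this
        exact this)
    have h2 : ∑ p ∈ q.primeFactors, ((q.factorization p : ℝ) * Real.log p) *
        ∏ n ∈ T, ((fun n p => (v n p : ℝ)) n p) = ∑ p ∈ q.primeFactors,
        ((q.factorization p : ℝ) * Real.log p) * (((∏ n ∈ T, v n p : ℤ)) : ℝ) := by
      refine sum_congr rfl fun p _ => ?_
      push_cast
      rfl
    rw [h2]
    exact h1
  have hM := hMOM S q.primeFactors k (fun p => (q.factorization p : ℝ) * Real.log p)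
    (fun n p => (v n p : ℝ)) (Real.log (max b q : ℕ) - L) (C₁ * √(L * l))
    (fun p _ => w_nonneg q p) hlam (by positivity) (fun n p => by
      rcases hv1 n p with h | h
      · exact Or.inl (by rw [h]; norm_num)
      · exact Or.inr (by rw [h]; norm_num)) hE
  have hsum : ∑ p ∈ q.primeFactors, (fun p => (q.factorization p : ℝ) * Real.log p) p = L :=
    sum_log q
  rw [hsum] at hM
  have hEsq : (C₁ * √(L * l)) ^ 2 = C₁ ^ 2 * (L * l) := by
    rw [mul_pow, Real.sq_sqrt (by positivity)]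
  rw [hEsq] at hM
  have hch := pow_le_choose hs
  have hMpos : (0 : ℝ) < (S.card.choose k : ℝ) := by
    have : 0 < S.card.choose k := Nat.choose_pos (by omega)
    exact_mod_cast this
  have hM2 : (S.card.choose k : ℝ) * W ≤ 36 * L ^ 2 + (S.card.choose k : ℝ) * (C₁ ^ 2 * (L * l)) := by
    have h1 : (L + (Real.log (max b q : ℕ) - L)) ^ 2 ≤ (6 * L) ^ 2 := by
      apply pow_le_pow_left₀ (by linarith)
      linarith
    calc (S.card.choose k : ℝ) * W ≤ _ := hM
      _ ≤ (6 * L) ^ 2 + (S.card.choose k : ℝ) * (C₁ ^ 2 * (L * l)) := by gcongr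
      _ = _ := by ring
  have hM3 : W - C₁ ^ 2 * (L * l) ≤ 36 * L ^ 2 / (S.card.choose k : ℝ) := by
    rw [le_div_iff₀ hMpos]
    linarith
  have hM4 : (S.card : ℝ) ^ k * (36 * L ^ 2 / (S.card.choose k : ℝ)) ≤
      36 * (2 * (k : ℝ)) ^ k * L ^ 2 := by
    rw [← mul_div_assoc, div_le_iff₀ hMpos]
    calc (S.card : ℝ) ^ k * (36 * L ^ 2) ≤
        ((2 * (k : ℝ)) ^ k * (S.card.choose k : ℝ)) * (36 * L ^ 2) := by gcongr
      _ = _ := by ring
  have hM5 : (S.card : ℝ) ^ k * (W - C₁ ^ 2 * (L * l)) ≤ 36 * (2 * (k : ℝ)) ^ k * L ^ 2 :=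
    (mul_le_mul_of_nonneg_left hM3 hs0).trans hM4
  have hM6 : (S.card : ℝ) ^ k * W ≤ 36 * (2 * (k : ℝ)) ^ k * L ^ 2 +
      C₁ ^ 2 * ((S.card : ℝ) ^ k * L * l) := by
    have : (S.card : ℝ) ^ k * (W - C₁ ^ 2 * (L * l)) =
      (S.card : ℝ) ^ k * W - C₁ ^ 2 * ((S.card : ℝ) ^ k * L * l) := by ring
    linarith
  exact hM6

end core


section fin

open RFINAL

theorem final_row (k : ℕ) (D E : ℝ) (hD : 0 ≤ D) (hE : 0 ≤ E) (hC : CoreStmtU k D E)
    (N q a : ℕ) (hN : 2 ≤ N) (hq : 1 ≤ q) (hco : Nat.Coprime q a) :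
    (((range N).filter (fun n => IsSquare (q * n + a))).card : ℝ) ^ k *
        ∑ p ∈ q.primeFactors, (q.factorization p * Real.log p) ^ 2 ≤
      4 * D * Real.log q ^ 2 + (4 * E + 4) *
        ((((range N).filter (fun n => IsSquare (q * n + a))).card : ℝ) ^ k *
          Real.log q * Real.log N) := by
  classical
  set S := (range N).filter (fun n => IsSquare (q * n + a)) with hS
  have hSN : ∀ n ∈ S, n < N := fun n hn => Finset.mem_range.mp (Finset.mem_filter.mp hn).1
  have hSq : ∀ n ∈ S, Nat.sqrt (q * n + a) ^ 2 = q * n + a := by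
    intro n hn
    obtain ⟨r, hr⟩ := (Finset.mem_filter.mp hn).2
    rw [hr, Nat.sqrt_eq, sq]
  have hs0 : 0 ≤ (S.card : ℝ) ^ k := by positivity
  have hl2 : 0 < Real.log 2 := Real.log_pos (by norm_num)
  have hN' : (2 : ℝ) ≤ N := by exact_mod_cast hN
  have hlN : Real.log 2 ≤ Real.log N := Real.log_le_log (by norm_num) hN'
  have hlN0 : 0 ≤ Real.log N := hl2.le.trans hlN
  have hlq0 : 0 ≤ Real.log q := Real.log_natCast_nonneg _
  change (S.card : ℝ) ^ k * sg q ≤ _
  by_cases hq1 : q = 1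
  · subst hq1
    have : sg 1 = 0 := by simp [sg]
    rw [this]; simp
  have ha : 0 < a := by
    rcases Nat.eq_zero_or_pos a with h0 | h0
    · subst h0; exact absurd ((Nat.coprime_zero_right q).mp hco) hq1
    · exact h0
  have hX0 : 0 ≤ (S.card : ℝ) ^ k * Real.log q * Real.log N := by positivity
  have hDL : 0 ≤ D * Real.log q ^ 2 := by positivity
  have hEX : 0 ≤ E * ((S.card : ℝ) ^ k * Real.log q * Real.log N) := mul_nonneg hE hX0
  by_cases hodd : q % 2 = 1
  · -- odd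
    have hcop : Nat.Coprime (4 * a) q := by
      refine Nat.Coprime.mul_left ?_ hco.symm
      have : Nat.Coprime 2 q := by
        rw [Nat.coprime_two_left, Nat.odd_iff]; exact hodd
      exact Nat.Coprime.pow_left 2 this
    have h1 := hC N (4 * a) q S (fun n => 2 * Nat.sqrt (q * n + a)) hN (by omega) (by omega) hcop
      hSN (by intro n hn; have := hSq n hn; rw [mul_pow, this]; ring)
    change (S.card : ℝ) ^ k * sg q ≤ _ at h1
    linarith
  · by_cases h4 : q % 4 = 0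
    · obtain ⟨Q, rfl⟩ : 4 ∣ q := Nat.dvd_of_mod_eq_zero h4
      have hQ : 0 < Q := by omega
      have hcop : Nat.Coprime a Q := (Nat.Coprime.coprime_dvd_left (Dvd.intro_left 4 rfl) hco).symm
      have h1 := hC N a Q S (fun n => Nat.sqrt (4 * Q * n + a)) hN ha hQ hcop hSN
        (by intro n hn; have := hSq n hn; rw [this]; ring)
      change (S.card : ℝ) ^ k * sg Q ≤ _ at h1
      have h2 := sg_mul (d := 4) (Q := Q) (by norm_num) (by omega)
      have h3 := sg_le 4
      have hQR : (1 : ℝ) ≤ Q := by exact_mod_cast hQ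
      have hlQ : Real.log Q ≤ Real.log ((4 * Q : ℕ) : ℝ) :=
        Real.log_le_log (by linarith) (by push_cast; linarith)
      have hlQ0 : 0 ≤ Real.log Q := Real.log_nonneg hQR
      have hl4 : Real.log ((4 : ℕ) : ℝ) = 2 * Real.log 2 := by
        rw [show ((4 : ℕ) : ℝ) = 2 ^ 2 by norm_num, Real.log_pow]; push_cast; ring
      have hlq2 : 2 * Real.log 2 ≤ Real.log ((4 * Q : ℕ) : ℝ) := by
        rw [← hl4]
        exact Real.log_le_log (by norm_num) (by push_cast; linarith)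
      rw [hl4] at h3
      set A := (S.card : ℝ) ^ k
      set L := Real.log ((4 * Q : ℕ) : ℝ)
      set L1 := Real.log (Q : ℝ)
      set l := Real.log (N : ℝ)
      have e1 : L1 ^ 2 ≤ L ^ 2 := pow_le_pow_left₀ hlQ0 hlQ 2
      have e2 : A * L1 * l ≤ A * L * l :=
        mul_le_mul_of_nonneg_right (mul_le_mul_of_nonneg_left hlQ hs0) hlN0
      have e3 : (2 * Real.log 2) * Real.log 2 ≤ L * l := mul_le_mul hlq2 hlN hl2.le hlq0
      have f1 : D * L1 ^ 2 ≤ D * L ^ 2 := mul_le_mul_of_nonneg_left e1 hD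
      have f2 : E * (A * L1 * l) ≤ E * (A * L * l) := mul_le_mul_of_nonneg_left e2 hE
      have f3 : 2 * sg 4 ≤ 4 * (L * l) := by nlinarith
      have f4 : A * (2 * sg 4) ≤ A * (4 * (L * l)) := mul_le_mul_of_nonneg_left f3 hs0
      calc A * sg (4 * Q) ≤ A * (2 * sg 4 + 2 * sg Q) := mul_le_mul_of_nonneg_left h2 hs0
        _ = 2 * (A * sg Q) + A * (2 * sg 4) := by ring
        _ ≤ 2 * (D * L ^ 2 + E * (A * L * l)) + A * (4 * (L * l)) := by linarith
        _ ≤ 4 * D * L ^ 2 + (4 * E + 4) * (A * L * l) := by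
            have : A * (4 * (L * l)) = 4 * (A * L * l) := by ring
            nlinarith
    · obtain ⟨Q, rfl⟩ : 2 ∣ q := Nat.dvd_of_mod_eq_zero (by omega)
      have hQ : 0 < Q := by omega
      have hQodd : Q % 2 = 1 := by omega
      have hcop : Nat.Coprime (4 * a) Q := by
        refine Nat.Coprime.mul_left ?_
          (Nat.Coprime.coprime_dvd_left (Dvd.intro_left 2 rfl) hco).symm
        have : Nat.Coprime 2 Q := by
          rw [Nat.coprime_two_left, Nat.odd_iff]; exact hQodd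
        exact Nat.Coprime.pow_left 2 this
      have hinj : Function.Injective (fun n : ℕ => 2 * n) := fun x y h => by
        simpa using h
      have h1 := hC (2 * N) (4 * a) Q (S.image (fun n => 2 * n))
        (fun m => 2 * Nat.sqrt (Q * m + a)) (by omega) (by omega) hQ hcop
        (by intro m hm; obtain ⟨n, hn, rfl⟩ := Finset.mem_image.mp hm; have := hSN n hn; omega)
        (by
          intro m hm; obtain ⟨n, hn, rfl⟩ := Finset.mem_image.mp hm
          have := hSq n hn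
          rw [show Q * (2 * n) + a = 2 * Q * n + a by ring, mul_pow, this]; ring)
      rw [Finset.card_image_of_injective _ hinj] at h1
      change (S.card : ℝ) ^ k * sg Q ≤ _ at h1
      have h2 := sg_mul (d := 2) (Q := Q) (by norm_num) (by omega)
      have h3 := sg_le 2
      have hQR : (1 : ℝ) ≤ Q := by exact_mod_cast hQ
      have hlQ : Real.log Q ≤ Real.log ((2 * Q : ℕ) : ℝ) :=
        Real.log_le_log (by linarith) (by push_cast; linarith)
      have hlQ0 : 0 ≤ Real.log Q := Real.log_nonneg hQR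
      have hlq2 : Real.log 2 ≤ Real.log ((2 * Q : ℕ) : ℝ) :=
        Real.log_le_log (by norm_num) (by push_cast; linarith)
      have hl2N : Real.log ((2 * N : ℕ) : ℝ) ≤ 2 * Real.log N := by
        push_cast
        rw [Real.log_mul (by norm_num) (by linarith)]
        linarith
      have hcast : Real.log ((2 : ℕ) : ℝ) = Real.log 2 := by norm_num
      rw [hcast] at h3
      set A := (S.card : ℝ) ^ k
      set L := Real.log ((2 * Q : ℕ) : ℝ)
      set L1 := Real.log (Q : ℝ)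
      set l := Real.log (N : ℝ)
      set l2 := Real.log ((2 * N : ℕ) : ℝ)
      have e1 : L1 ^ 2 ≤ L ^ 2 := pow_le_pow_left₀ hlQ0 hlQ 2
      have hl20 : 0 ≤ l2 := Real.log_natCast_nonneg _
      have e2 : A * L1 * l2 ≤ A * L * (2 * l) :=
        mul_le_mul (mul_le_mul_of_nonneg_left hlQ hs0) hl2N hl20 (mul_nonneg hs0 hlq0)
      have e3 : Real.log 2 * Real.log 2 ≤ L * l := mul_le_mul hlq2 hlN hl2.le hlq0
      have f1 : D * L1 ^ 2 ≤ D * L ^ 2 := mul_le_mul_of_nonneg_left e1 hD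
      have f2 : E * (A * L1 * l2) ≤ E * (A * L * (2 * l)) := mul_le_mul_of_nonneg_left e2 hE
      have f3 : 2 * sg 2 ≤ 4 * (L * l) := by nlinarith
      have f4 : A * (2 * sg 2) ≤ A * (4 * (L * l)) := mul_le_mul_of_nonneg_left f3 hs0
      calc A * sg (2 * Q) ≤ A * (2 * sg 2 + 2 * sg Q) := mul_le_mul_of_nonneg_left h2 hs0
        _ = 2 * (A * sg Q) + A * (2 * sg 2) := by ring
        _ ≤ 2 * (D * L ^ 2 + E * (A * L * (2 * l))) + A * (4 * (L * l)) := by linarith
        _ = 2 * (D * L ^ 2) + 4 * (E * (A * L * l)) + 4 * (A * L * l) := by ring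
        _ ≤ 4 * D * L ^ 2 + (4 * E + 4) * (A * L * l) := by linarith

end fin

theorem final : ∀ k N q a : ℕ, 2 ≤ N → 1 ≤ q → Nat.Coprime q a →
    (((range N).filter (fun n => IsSquare (q * n + a))).card : ℝ) ^ k *
        ∑ p ∈ q.primeFactors, (q.factorization p * Real.log p) ^ 2 ≤
      144 * (2 * (k : ℝ)) ^ k * Real.log q ^ 2 + 16388 * ((k : ℝ) + 1) ^ 2 *
        ((((range N).filter (fun n => IsSquare (q * n + a))).card : ℝ) ^ k *
          Real.log q * Real.log N) := by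
  intro k N q a hN hq hco
  have hcore := core_row (log_row Main.corr) RSGN.row RMOM.row k
  have h := final_row k _ _ (by positivity) (by positivity) hcore N q a hN hq hco
  refine h.trans ?_
  have hX : 0 ≤ ((((range N).filter (fun n => IsSquare (q * n + a))).card : ℝ) ^ k *
      Real.log q * Real.log N) := by
    have := Real.log_natCast_nonneg q
    have := Real.log_natCast_nonneg N
    positivity
  have hk : (0 : ℝ) ≤ k := Nat.cast_nonneg k
  have h1 : 4 * (36 * (2 * (k : ℝ)) ^ k) * Real.log q ^ 2 =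
      144 * (2 * (k : ℝ)) ^ k * Real.log q ^ 2 := by ring
  have h2 : 4 * (4096 * ((k : ℝ) + 1) ^ 2) + 4 ≤ 16388 * ((k : ℝ) + 1) ^ 2 := by nlinarith
  rw [h1]
  have h3 := mul_le_mul_of_nonneg_right h2 hX
  linarith

end Pool.Agent.Helper83.RU.Unif
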