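import Mathlib

/-!
# Unsplit primes: the moment of order `2 k` of the sign sums (combinatorial part)
-/

namespace Pool.Agent.Helper83.RU.Uns

open Finset

/-- multiplicity of a value -/
def mu {m : ℕ} (x : Fin m → ℕ) (n : ℕ) : ℕ := ∑ i, if x i = n then 1 else 0

theorem mu_split {m : ℕ} (x : Fin (m + 2) → ℕ) (j : Fin (m + 1)) (n : ℕ) :
    mu x n = (if x 0 = n then 1 else 0) + ((if x j.succ = n then 1 else 0) +
      mu (fun t => x (j.succAbove t).succ) n) := by
  unfold mu
  rw [Fin.sum_univ_succ, Fin.sum_univ_succAbove _ j]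

/-- tuples in `S` with all multiplicities even -/
noncomputable def AA (m : ℕ) (S : Finset ℕ) : Finset (Fin m → ℕ) :=
  (Fintype.piFinset (fun _ : Fin m => S)).filter (fun x => ∀ n ∈ S, Even (mu x n))

theorem card_AA_succ (m : ℕ) (S : Finset ℕ) :
    (AA (m + 2) S).card ≤ (S.card * (m + 1)) * (AA m S).card := by
  classical
  have hsub : AA (m + 2) S ⊆ ((S ×ˢ (univ : Finset (Fin (m + 1)))) ×ˢ AA m S).image
      (fun t => (Fin.cons t.1.1 (Fin.insertNth t.1.2 t.1.1 t.2 : Fin (m + 1) → ℕ) :
        Fin (m + 2) → ℕ)) := by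
    intro x hx
    rw [AA, mem_filter, Fintype.mem_piFinset] at hx
    obtain ⟨hxS, hev⟩ := hx
    obtain ⟨j, hj⟩ : ∃ j : Fin (m + 1), x j.succ = x 0 := by
      by_contra hno
      push Not at hno
      have h1 : mu x (x 0) = 1 := by
        unfold mu
        rw [Fin.sum_univ_succ, if_pos rfl, sum_eq_zero (fun i _ => if_neg (hno i)), add_zero]
      have h2 := hev (x 0) (hxS 0)
      rw [h1] at h2
      exact absurd h2 (by decide)
    rw [mem_image]
    refine ⟨((x 0, j), fun t => x (j.succAbove t).succ), ?_, ?_⟩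
    · rw [mem_product, mem_product]
      refine ⟨⟨hxS 0, mem_univ _⟩, ?_⟩
      rw [AA, mem_filter, Fintype.mem_piFinset]
      refine ⟨fun t => hxS _, ?_⟩
      intro n hn
      have h1 := hev n hn
      rw [mu_split x j n, hj] at h1
      by_cases h : x 0 = n
      · rw [if_pos h] at h1
        have h2 : (1 : ℕ) + (1 + mu (fun t => x (j.succAbove t).succ) n) =
            2 + mu (fun t => x (j.succAbove t).succ) n := by ring
        rw [h2] at h1
        exact (Nat.even_add.1 h1).1 (by decide)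
      · rw [if_neg h, zero_add, zero_add] at h1
        exact h1
    · dsimp only
      funext i
      refine Fin.cases ?_ (fun i => ?_) i
      · rw [Fin.cons_zero]
      · rw [Fin.cons_succ]
        rcases eq_or_ne i j with rfl | hij
        · rw [Fin.insertNth_apply_same]
          exact hj.symm
        · obtain ⟨t, rfl⟩ := Fin.exists_succAbove_eq hij
          rw [Fin.insertNth_apply_succAbove]
  calc (AA (m + 2) S).card ≤ _ := card_le_card hsub
    _ ≤ _ := card_image_le
    _ = (S.card * (m + 1)) * (AA m S).card := by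
      rw [card_product, card_product, card_univ, Fintype.card_fin]

theorem card_AA (k : ℕ) (S : Finset ℕ) : ∀ i, i ≤ k →
    (AA (2 * i) S).card ≤ (2 * k) ^ i * S.card ^ i := by
  intro i
  induction i with
  | zero =>
    intro _
    rw [AA]
    refine (card_le_card (filter_subset _ _)).trans ?_
    rw [Fintype.card_piFinset]
    simp
  | succ i ih =>
    intro hi
    have h1 := card_AA_succ (2 * i) S
    have h2 := ih (by omega)
    have h3 : 2 * (i + 1) = 2 * i + 2 := by ring
    rw [h3]
    calc (AA (2 * i + 2) S).card ≤ (S.card * (2 * i + 1)) * (AA (2 * i) S).card := h1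
      _ ≤ (S.card * (2 * k)) * ((2 * k) ^ i * S.card ^ i) := by
        refine Nat.mul_le_mul (Nat.mul_le_mul_left _ (by omega)) h2
      _ = (2 * k) ^ (i + 1) * S.card ^ (i + 1) := by ring

/-- the product over a tuple is the product over the values of odd multiplicity -/
theorem prod_tuple {m : ℕ} (S : Finset ℕ) (x : Fin m → ℕ) (hx : ∀ i, x i ∈ S) (v : ℕ → ℝ)
    (hv : ∀ n, v n = 1 ∨ v n = -1) :
    ∏ i, v (x i) = ∏ n ∈ S.filter (fun n => ¬ Even (mu x n)), v n := by
  classical
  have h1 : ∏ i, v (x i) = ∏ n ∈ S, v n ^ mu x n := by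
    rw [← prod_fiberwise_of_maps_to (s := (univ : Finset (Fin m))) (t := S) (g := x)
      (fun i _ => hx i)]
    refine prod_congr rfl fun n _ => ?_
    have h2 : ∀ i ∈ (univ : Finset (Fin m)).filter (fun i => x i = n), v (x i) = v n := by
      intro i hi
      rw [(mem_filter.1 hi).2]
    rw [prod_congr rfl h2, prod_const]
    congr 1
    unfold mu
    rw [card_filter]
  rw [h1, ← prod_filter_mul_prod_filter_not S (fun n => ¬ Even (mu x n))]
  have h3 : ∏ n ∈ S.filter (fun n => ¬ ¬ Even (mu x n)), v n ^ mu x n = 1 := by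
    refine prod_eq_one fun n hn => ?_
    have h4 := (mem_filter.1 hn).2
    rw [not_not] at h4
    obtain ⟨r, hr⟩ := h4
    rw [hr]
    rcases hv n with h | h <;> rw [h] <;> simp [← two_mul, pow_mul]
  rw [h3, mul_one]
  refine prod_congr rfl fun n hn => ?_
  have h4 := (mem_filter.1 hn).2
  rw [Nat.not_even_iff_odd] at h4
  obtain ⟨r, hr⟩ := h4
  rw [hr]
  rcases hv n with h | h <;> rw [h] <;> simp [pow_add, pow_mul]

/-- number of values of odd multiplicity -/
theorem odd_card {m : ℕ} (S : Finset ℕ) (x : Fin m → ℕ) (hx : ∀ i, x i ∈ S) :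
    (S.filter (fun n => ¬ Even (mu x n))).card ≤ m ∧
      (Even m → Even (S.filter (fun n => ¬ Even (mu x n))).card) := by
  classical
  have hsum : ∑ n ∈ S, mu x n = m := by
    unfold mu
    rw [sum_comm]
    have : ∀ i : Fin m, ∑ n ∈ S, (if x i = n then 1 else 0) = 1 := by
      intro i
      rw [sum_ite_eq, if_pos (hx i)]
    rw [sum_congr rfl fun i _ => this i]
    simp
  constructor
  · calc (S.filter (fun n => ¬ Even (mu x n))).card
        = ∑ n ∈ S.filter (fun n => ¬ Even (mu x n)), 1 := by simp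
      _ ≤ ∑ n ∈ S.filter (fun n => ¬ Even (mu x n)), mu x n := by
          refine sum_le_sum fun n hn => ?_
          have h4 := (mem_filter.1 hn).2
          rcases Nat.eq_zero_or_pos (mu x n) with h | h
          · rw [h] at h4
            exact absurd (by decide) h4
          · exact h
      _ ≤ ∑ n ∈ S, mu x n := sum_le_sum_of_subset (filter_subset _ _)
      _ = m := hsum
  · intro hm
    rw [← hsum] at hm
    have h1 := Finset.even_sum_iff_even_card_odd (s := S) (fun n => mu x n)
    have h2 := h1.1 hm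
    have h3 : S.filter (fun n => ¬ Even (mu x n)) = S.filter (fun n => Odd (mu x n)) := by
      refine filter_congr fun n _ => ?_
      rw [Nat.not_even_iff_odd]
    rw [h3]
    exact h2

/-- the moment of order `2 k` -/
theorem moment (k : ℕ) (S P : Finset ℕ) (w : ℕ → ℝ) (v : ℕ → ℕ → ℝ) (lam E : ℝ)
    (hw : ∀ p ∈ P, 0 ≤ w p) (hlam : 0 ≤ lam) (hE : 0 ≤ E) (hv : ∀ n p, v n p = 1 ∨ v n p = -1)
    (hG : ∀ T, T ⊆ S → T.Nonempty → Even T.card → T.card ≤ 2 * k →
      ∑ p ∈ P, w p * ∏ n ∈ T, v n p + lam ≤ E) :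
    ∑ p ∈ P, w p * (∑ n ∈ S, v n p) ^ (2 * k) ≤
      (2 * (k : ℝ)) ^ k * (S.card : ℝ) ^ k * (∑ p ∈ P, w p + lam) +
        (S.card : ℝ) ^ (2 * k) * E := by
  classical
  set X := Fintype.piFinset (fun _ : Fin (2 * k) => S) with hX
  have hXcard : X.card = S.card ^ (2 * k) := by
    rw [hX, Fintype.card_piFinset]
    simp
  have hexp : ∀ p, (∑ n ∈ S, v n p) ^ (2 * k) = ∑ x ∈ X, ∏ i, v (x i) p := by
    intro p
    have h := Finset.prod_univ_sum (fun _ : Fin (2 * k) => S) (fun _ n => v n p)
    rw [prod_const, card_univ, Fintype.card_fin] at h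
    exact h
  have hW0 : 0 ≤ ∑ p ∈ P, w p + lam := add_nonneg (sum_nonneg hw) hlam
  have hlamX : 0 ≤ ∑ x ∈ X, lam := sum_nonneg fun _ _ => hlam
  have h1 : ∑ p ∈ P, w p * (∑ n ∈ S, v n p) ^ (2 * k) ≤
      ∑ x ∈ X, (∑ p ∈ P, w p * ∏ i, v (x i) p + lam) := by
    rw [sum_add_distrib, sum_comm]
    have : ∑ p ∈ P, w p * (∑ n ∈ S, v n p) ^ (2 * k) =
        ∑ p ∈ P, ∑ x ∈ X, w p * ∏ i, v (x i) p := by
      refine sum_congr rfl fun p _ => ?_
      rw [hexp p, mul_sum]
    rw [this]
    linarith
  have h2 : ∀ x ∈ X, (∑ p ∈ P, w p * ∏ i, v (x i) p + lam) ≤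
      (if x ∈ AA (2 * k) S then (∑ p ∈ P, w p + lam) else 0) + E := by
    intro x hx
    have hxS : ∀ i, x i ∈ S := Fintype.mem_piFinset.1 hx
    have hprod : ∀ p, ∏ i, v (x i) p = ∏ n ∈ S.filter (fun n => ¬ Even (mu x n)), v n p :=
      fun p => prod_tuple S x hxS (fun n => v n p) (fun n => hv n p)
    have h3 : ∑ p ∈ P, w p * ∏ i, v (x i) p = ∑ p ∈ P, w p *
        ∏ n ∈ S.filter (fun n => ¬ Even (mu x n)), v n p :=
      sum_congr rfl fun p _ => by rw [hprod p]
    rw [h3]
    by_cases hA : x ∈ AA (2 * k) S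
    · rw [if_pos hA]
      rw [AA, mem_filter] at hA
      have hT : S.filter (fun n => ¬ Even (mu x n)) = ∅ := by
        rw [filter_eq_empty_iff]
        intro n hn
        rw [not_not]
        exact hA.2 n hn
      rw [hT]
      simp only [prod_empty, mul_one]
      linarith
    · rw [if_neg hA, zero_add]
      have hT : (S.filter (fun n => ¬ Even (mu x n))).Nonempty := by
        rw [nonempty_iff_ne_empty]
        intro hemp
        apply hA
        rw [AA, mem_filter]
        refine ⟨hx, fun n hn => ?_⟩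
        by_contra hne
        have : n ∈ S.filter (fun n => ¬ Even (mu x n)) := mem_filter.2 ⟨hn, hne⟩
        rw [hemp] at this
        exact absurd this (notMem_empty n)
      obtain ⟨hc1, hc2⟩ := odd_card S x hxS
      exact hG _ (filter_subset _ _) hT (hc2 (even_two_mul k)) hc1
  have h4 : ∑ x ∈ X, ((if x ∈ AA (2 * k) S then (∑ p ∈ P, w p + lam) else 0) + E) =
      ((X.filter (fun x => x ∈ AA (2 * k) S)).card : ℝ) * (∑ p ∈ P, w p + lam) +
        (S.card : ℝ) ^ (2 * k) * E := by
    rw [sum_add_distrib, ← sum_filter, sum_const, sum_const, hXcard, nsmul_eq_mul, nsmul_eq_mul]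
    push_cast
    ring
  have h5 : ((X.filter (fun x => x ∈ AA (2 * k) S)).card : ℝ) ≤
      (2 * (k : ℝ)) ^ k * (S.card : ℝ) ^ k := by
    have h6 : (X.filter (fun x => x ∈ AA (2 * k) S)).card ≤ (AA (2 * k) S).card := by
      refine card_le_card fun x hx => (mem_filter.1 hx).2
    have h7 := h6.trans (card_AA k S k le_rfl)
    exact_mod_cast h7
  calc _ ≤ _ := h1
    _ ≤ _ := sum_le_sum h2
    _ = _ := h4
    _ ≤ _ := by
      have := mul_le_mul_of_nonneg_right h5 hW0
      linarith

end Pool.Agent.Helper83.RU.Uns
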