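import Pool.Agent.Helper83.RU.Unif
import Pool.Agent.Helper83.RU.Uns

/-!
# Unsplit primes: the moment of order `2 k` of the sign sums
-/

namespace Pool.Agent.Helper83.RU.UnsCore

open Finset

theorem core (k N b q : ℕ) (S : Finset ℕ) (y : ℕ → ℕ) (v : ℕ → ℕ → ℤ) (hk : 1 ≤ k) (hN : 2 ≤ N)
    (hb : 0 < b) (hq : 0 < q) (hbq : Nat.Coprime b q) (hSN : ∀ n ∈ S, n < N)
    (hy : ∀ n ∈ S, y n ^ 2 = b + 4 * n * q) (hv1 : ∀ n p, v n p = 1 ∨ v n p = -1)
    (hv : ∀ T, T ⊆ S → ∀ j, T.card = 2 * j → ∀ p ∈ q.primeFactors,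
      ((2 * p ^ q.factorization p : ℕ) : ℤ) ∣
        (∏ n ∈ T, (y n : ℤ)) - (∏ n ∈ T, v n p) * (b : ℤ) ^ j) :
    ∑ p ∈ q.primeFactors, ((q.factorization p : ℝ) * Real.log p) *
        (∑ n ∈ S, (v n p : ℝ)) ^ (2 * k) ≤
      (2 * (k : ℝ)) ^ k * (S.card : ℝ) ^ k * (6 * Real.log q) +
        (S.card : ℝ) ^ (2 * k) * (64 * ((k : ℝ) + 1) * √(Real.log q * Real.log N)) := by
  classical
  set L := Real.log q with hL
  set l := Real.log N with hl
  have hL0 : 0 ≤ L := Real.log_natCast_nonneg _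
  have hl2 : Real.log 2 ≤ l := by
    apply Real.log_le_log (by norm_num)
    exact_mod_cast hN
  have hlpos : 0 < l := lt_of_lt_of_le (Real.log_pos (by norm_num)) hl2
  have hk1 : (1 : ℝ) ≤ k := by exact_mod_cast hk
  have hs0 : (0 : ℝ) ≤ (S.card : ℝ) ^ (2 * k) := by positivity
  have hsq : ∀ p, (∑ n ∈ S, (v n p : ℝ)) ^ (2 * k) ≤ (S.card : ℝ) ^ (2 * k) := by
    intro p
    have h1 : |∑ n ∈ S, (v n p : ℝ)| ≤ (S.card : ℝ) := by
      refine (abs_sum_le_sum_abs _ _).trans ?_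
      rw [card_eq_sum_ones]
      push_cast
      refine sum_le_sum fun n _ => ?_
      rcases hv1 n p with h | h <;> rw [h] <;> norm_num
    have h2 : (∑ n ∈ S, (v n p : ℝ)) ^ (2 * k) = |∑ n ∈ S, (v n p : ℝ)| ^ (2 * k) := by
      rw [pow_mul, pow_mul, sq_abs]
    rw [h2]
    exact pow_le_pow_left₀ (abs_nonneg _) h1 _
  have htriv : ∑ p ∈ q.primeFactors, ((q.factorization p : ℝ) * Real.log p) *
      (∑ n ∈ S, (v n p : ℝ)) ^ (2 * k) ≤ L * (S.card : ℝ) ^ (2 * k) := by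
    rw [hL, ← RCORE.sum_log q, sum_mul]
    exact sum_le_sum fun p _ => mul_le_mul_of_nonneg_left (hsq p) (RCORE.w_nonneg q p)
  have hsk : (0 : ℝ) ≤ (2 * (k : ℝ)) ^ k * (S.card : ℝ) ^ k * (6 * L) := by positivity
  have hEnn : 0 ≤ 64 * ((k : ℝ) + 1) * √(L * l) := by positivity
  -- small `q`
  rcases le_or_gt L (64 * ((k : ℝ) + 1) ^ 2 * l) with hcase | hcase
  · have h1 : L ≤ 64 * ((k : ℝ) + 1) * √(L * l) := by
      have h2 : L ^ 2 ≤ (64 * ((k : ℝ) + 1) * √(L * l)) ^ 2 := by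
        rw [mul_pow, Real.sq_sqrt (by positivity)]
        have h3 : L * L ≤ L * (64 * ((k : ℝ) + 1) ^ 2 * l) := mul_le_mul_of_nonneg_left hcase hL0
        have h4 : 0 ≤ ((k : ℝ) + 1) ^ 2 * (L * l) := by positivity
        nlinarith
      exact le_of_sq_le_sq h2 hEnn |>.trans le_rfl
    calc _ ≤ L * (S.card : ℝ) ^ (2 * k) := htriv
      _ ≤ (64 * ((k : ℝ) + 1) * √(L * l)) * (S.card : ℝ) ^ (2 * k) :=
          mul_le_mul_of_nonneg_right h1 hs0
      _ ≤ _ := by linarith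
  -- small `S`
  rcases le_or_gt S.card 1 with hs | hs
  · have h1 : (S.card : ℝ) ^ (2 * k) ≤ (S.card : ℝ) ^ k := by
      interval_cases h : S.card
      · simp [show k ≠ 0 by omega]
      · simp
    have h2 : (1 : ℝ) ≤ (2 * (k : ℝ)) ^ k := one_le_pow₀ (by linarith)
    have hs1 : (0 : ℝ) ≤ (S.card : ℝ) ^ k := by positivity
    have h3 : (S.card : ℝ) ^ k ≤ (2 * (k : ℝ)) ^ k * (S.card : ℝ) ^ k := by nlinarith
    have h4 : L * (S.card : ℝ) ^ (2 * k) ≤ L * ((2 * (k : ℝ)) ^ k * (S.card : ℝ) ^ k) :=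
      mul_le_mul_of_nonneg_left (h1.trans h3) hL0
    have h5 : 0 ≤ (S.card : ℝ) ^ (2 * k) * (64 * ((k : ℝ) + 1) * √(L * l)) :=
      mul_nonneg hs0 hEnn
    have h6 : 0 ≤ L * ((2 * (k : ℝ)) ^ k * (S.card : ℝ) ^ k) := by positivity
    linarith
  -- main case
  have hbN : b ≤ 4 * N ^ 2 * q ^ 2 := by
    obtain ⟨n, hn, m, hm, hnm⟩ := one_lt_card.1 hs
    rcases lt_or_gt_of_ne hnm with h | h
    · exact RCORE.b_le (hy m hm) (hy n hn) h (hSN m hm) hq
    · exact RCORE.b_le (hy n hn) (hy m hm) h (hSN n hn) hq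
  have hmaxpos : (0 : ℝ) < ((max b q : ℕ) : ℝ) := by
    have : 0 < max b q := lt_of_lt_of_le hq (le_max_right _ _)
    exact_mod_cast this
  have hqpos : (0 : ℝ) < (q : ℝ) := by exact_mod_cast hq
  have hNpos : (0 : ℝ) < (N : ℝ) := by
    have : 0 < N := by omega
    exact_mod_cast this
  have hlam : 0 ≤ Real.log (max b q : ℕ) - L := by
    have : L ≤ Real.log (max b q : ℕ) := by
      apply Real.log_le_log hqpos
      exact_mod_cast le_max_right b q
    linarith
  have hmax : Real.log (max b q : ℕ) ≤ 6 * L := by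
    have h1 : ((max b q : ℕ) : ℝ) ≤ 4 * (N : ℝ) ^ 2 * (q : ℝ) ^ 2 := by
      have h2 : max b q ≤ 4 * N ^ 2 * q ^ 2 := by
        refine max_le hbN ?_
        have : 1 ≤ 4 * N ^ 2 * q := by
          have : 0 < 4 * N ^ 2 * q := by positivity
          omega
        calc q = 1 * q := (one_mul q).symm
          _ ≤ (4 * N ^ 2 * q) * q := Nat.mul_le_mul_right _ this
          _ = 4 * N ^ 2 * q ^ 2 := by ring
      exact_mod_cast h2
    have h3 : Real.log (4 * (N : ℝ) ^ 2 * (q : ℝ) ^ 2) = 2 * Real.log 2 + 2 * l + 2 * L := by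
      rw [Real.log_mul (by positivity) (by positivity), Real.log_mul (by norm_num) (by positivity),
        Real.log_pow, Real.log_pow, show (4 : ℝ) = 2 ^ 2 by norm_num, Real.log_pow]
      push_cast
      ring
    have h4 := Real.log_le_log hmaxpos h1
    rw [h3] at h4
    have h5 : l ≤ L := by
      have : 1 * l ≤ 64 * ((k : ℝ) + 1) ^ 2 * l :=
        mul_le_mul_of_nonneg_right (by nlinarith) hlpos.le
      linarith
    linarith
  have hlog := Unif.log_row Main.corr k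
  have hG : ∀ T, T ⊆ S → T.Nonempty → Even T.card → T.card ≤ 2 * k →
      ∑ p ∈ q.primeFactors, ((q.factorization p : ℝ) * Real.log p) *
        ∏ n ∈ T, (fun n p => (v n p : ℝ)) n p + (Real.log (max b q : ℕ) - L) ≤
        64 * ((k : ℝ) + 1) * √(L * l) := by
    intro T hT hne hev hcard
    obtain ⟨j, hj⟩ := hev
    have hj2 : T.card = 2 * j := by omega
    have hj1 : 1 ≤ j := by
      have := hne.card_pos
      omega
    have h1 := hlog N j b q (∏ n ∈ T, y n) T (fun p => ∏ n ∈ T, v n p) hN hj1 (by omega) hj2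
      (fun n hn => hSN n (hT hn)) hb hbq hcase.le hbN (by
        rw [← prod_pow]
        exact prod_congr rfl fun n hn => hy n (hT hn))
      (fun p => RCORE.prod_sign T _ fun n => hv1 n p) (fun p hp => by
        have := hv T hT j hj2 p hp
        push_cast
        push_cast at this
        exact this)
    have h2 : ∑ p ∈ q.primeFactors, ((q.factorization p : ℝ) * Real.log p) *
        ∏ n ∈ T, (fun n p => (v n p : ℝ)) n p = ∑ p ∈ q.primeFactors,
        ((q.factorization p : ℝ) * Real.log p) * (((∏ n ∈ T, v n p : ℤ)) : ℝ) := by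
      refine sum_congr rfl fun p _ => ?_
      push_cast
      rfl
    rw [h2]
    exact (le_abs_self _).trans h1
  have hM := Uns.moment k S q.primeFactors (fun p => (q.factorization p : ℝ) * Real.log p)
    (fun n p => (v n p : ℝ)) (Real.log (max b q : ℕ) - L) (64 * ((k : ℝ) + 1) * √(L * l))
    (fun p _ => RCORE.w_nonneg q p) hlam hEnn (fun n p => by
      rcases hv1 n p with h | h
      · exact Or.inl (by rw [h]; norm_num)
      · exact Or.inr (by rw [h]; norm_num)) hG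
  have hsum : ∑ p ∈ q.primeFactors, (fun p => (q.factorization p : ℝ) * Real.log p) p = L :=
    RCORE.sum_log q
  rw [hsum] at hM
  have h7 : (2 * (k : ℝ)) ^ k * (S.card : ℝ) ^ k * (L + (Real.log (max b q : ℕ) - L)) ≤
      (2 * (k : ℝ)) ^ k * (S.card : ℝ) ^ k * (6 * L) :=
    mul_le_mul_of_nonneg_left (by linarith) (by positivity)
  exact hM.trans (by linarith)

end Pool.Agent.Helper83.RU.UnsCore
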